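import Pool.Agent.UQ.Defs

set_option autoImplicit false

namespace Pool.Agent.UQ

open Finset

variable {α χ : Type} [Fintype α] [DecidableEq α] [Fintype χ] [DecidableEq χ]

theorem S_mono (c : Cfg α χ) {s t : ℕ} (h : s ≤ t) : c.S s ⊆ c.S t := by
  unfold Cfg.S vs low
  apply Finset.biUnion_subset_biUnion_of_subset_left
  intro E hE
  rw [Finset.mem_filter] at hE ⊢
  exact ⟨hE.1, le_trans hE.2 h⟩

theorem S_sub (c : Cfg α χ) (s : ℕ) : c.S s ⊆ vs c.B := by
  unfold Cfg.S vs low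
  exact Finset.biUnion_subset_biUnion_of_subset_left _ (Finset.filter_subset _ _)

theorem Ah_mono (c : Cfg α χ) {s t : ℕ} (h : s ≤ t) : c.Ah s ⊆ c.Ah t := by
  intro a ha
  unfold Cfg.Ah at ha ⊢
  rw [Finset.mem_filter] at ha ⊢
  obtain ⟨_, A, hA, hc⟩ := ha
  refine ⟨Finset.mem_univ _, A, hA, ?_⟩
  have h1 : nb c.Γ A \ c.S t ⊆ nb c.Γ A \ c.S s :=
    Finset.sdiff_subset_sdiff (Finset.Subset.refl _) (S_mono c h)
  have h2 := Finset.card_le_card h1
  omega

theorem At_mono (c : Cfg α χ) {s t : ℕ} (h : s ≤ t) : c.At s ⊆ c.At t := by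
  intro a ha
  unfold Cfg.At at ha ⊢
  rw [Finset.mem_filter] at ha ⊢
  obtain ⟨_, A, hA, hc⟩ := ha
  refine ⟨Finset.mem_univ _, A, hA, ?_⟩
  have h1 : nb c.Γ A \ c.S t ⊆ nb c.Γ A \ c.S s :=
    Finset.sdiff_subset_sdiff (Finset.Subset.refl _) (S_mono c h)
  have h2 := Finset.card_le_card h1
  omega

theorem At_sub_Ah (c : Cfg α χ) (s : ℕ) : c.At s ⊆ c.Ah s := by
  intro a ha
  unfold Cfg.At at ha
  unfold Cfg.Ah
  rw [Finset.mem_filter] at ha ⊢
  obtain ⟨_, A, hA, hc⟩ := ha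
  exact ⟨Finset.mem_univ _, A, hA, by omega⟩

theorem Z_mono (c : Cfg α χ) {s t : ℕ} (h : s ≤ t) : c.Z s ⊆ c.Z t := by
  unfold Cfg.Z
  exact Finset.union_subset_union (S_mono c h) (Finset.image_subset_image (Ah_mono c h))

theorem mu_mem_Z (c : Cfg α χ) (s : ℕ) (a : α) : c.μ a ∈ c.Z s ↔ a ∈ c.Ah s := by
  unfold Cfg.Z
  rw [Finset.mem_union]
  constructor
  · intro h
    rcases h with h | h
    · exact absurd (S_sub c s h) (c.hμB a)
    · obtain ⟨b, hb, he⟩ := Finset.mem_image.mp h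
      rwa [← c.hμ he]
  · intro h
    exact Or.inr (Finset.mem_image_of_mem _ h)

theorem mem_S_iff (c : Cfg α χ) (s : ℕ) {v : Finset χ} (hv : v ∈ c.B) {x : χ} (hx : x ∈ v) :
    x ∈ c.S s ↔ v.card ≤ s := by
  unfold Cfg.S vs low
  rw [Finset.mem_biUnion]
  constructor
  · rintro ⟨E, hE, hxE⟩
    rw [Finset.mem_filter] at hE
    have : E = v := by
      by_contra hne
      exact Finset.disjoint_left.mp (c.hB E hE.1 v hv hne) hxE hx
    rw [← this]
    exact hE.2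
  · intro h
    exact ⟨v, Finset.mem_filter.mpr ⟨hv, h⟩, hx⟩

theorem mem_Z_iff (c : Cfg α χ) (s : ℕ) {v : Finset χ} (hv : v ∈ c.B) {x : χ} (hx : x ∈ v) :
    x ∈ c.Z s ↔ v.card ≤ s := by
  rw [← mem_S_iff c s hv hx]
  unfold Cfg.Z
  rw [Finset.mem_union]
  constructor
  · intro h
    rcases h with h | h
    · exact h
    · obtain ⟨b, hb, he⟩ := Finset.mem_image.mp h
      exfalso
      apply c.hμB b
      rw [he]
      exact Finset.mem_biUnion.mpr ⟨v, hv, hx⟩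
  · intro h
    exact Or.inl h

/-- `μ(A)` lies in `Γ(A) \ Y` for every `Y ⊆ V(B)`. -/
theorem image_mu_sub (c : Cfg α χ) (A : Finset α) {Y : Finset χ} (hY : Y ⊆ vs c.B) :
    A.image c.μ ⊆ nb c.Γ A \ Y := by
  intro x hx
  obtain ⟨a, ha, he⟩ := Finset.mem_image.mp hx
  subst he
  rw [Finset.mem_sdiff]
  exact ⟨Finset.mem_biUnion.mpr ⟨a, ha, c.hμΓ a⟩, fun h => c.hμB a (hY h)⟩

theorem card_image_mu (c : Cfg α χ) (A : Finset α) : (A.image c.μ).card = A.card :=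
  Finset.card_image_of_injective _ c.hμ

theorem miss_B (c : Cfg α χ) {Y : Finset χ} (hY : Y ⊆ vs c.B) : Miss c.Γ Y := by
  intro A
  rw [← card_image_mu c A]
  exact Finset.card_le_card (image_mu_sub c A hY)

/-- `Miss` is inherited by subsets. -/
theorem miss_mono {Γ : α → Finset χ} {Y Y' : Finset χ} (h : Miss Γ Y) (hY : Y' ⊆ Y) : Miss Γ Y' := by
  intro A
  exact le_trans (h A) (Finset.card_le_card (Finset.sdiff_subset_sdiff (Finset.Subset.refl _) hY))

theorem nb_mono (Γ : α → Finset χ) {A A' : Finset α} (h : A ⊆ A') : nb Γ A ⊆ nb Γ A' := by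
  unfold nb
  exact Finset.biUnion_subset_biUnion_of_subset_left _ h

theorem nb_union (Γ : α → Finset χ) (A A' : Finset α) : nb Γ (A ∪ A') = nb Γ A ∪ nb Γ A' := by
  unfold nb
  exact Finset.union_biUnion

end Pool.Agent.UQ
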