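import Pool.Agent.UQ.Defs
import Pool.Agent.UQ.Mono

set_option autoImplicit false

namespace Pool.Agent.UQ

open Finset

variable {α χ : Type} [Fintype α] [DecidableEq α] [Fintype χ] [DecidableEq χ]

/-- weight of a family for the lexicographic comparison -/
private def cwt (L M : ℕ) (B : Finset (Finset χ)) : ℕ := ∑ E ∈ B, L ^ (M - E.card)

private lemma cwt_split (L M s : ℕ) (B : Finset (Finset χ)) :
    cwt L M B = cwt L M (low B s) + cwt L M (B.filter (fun E => ¬ E.card ≤ s)) := by
  unfold cwt low
  exact (Finset.sum_filter_add_sum_filter_not B (fun E => E.card ≤ s) _).symm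

private lemma cwt_high (T B : Finset (Finset χ)) (hBT : B ⊆ T) (s : ℕ)
    (hs : s ≤ Fintype.card χ) :
    cwt (T.card + 1) (Fintype.card χ) (B.filter (fun E => ¬ E.card ≤ s)) <
      (T.card + 1) ^ (Fintype.card χ - s) := by
  set M := Fintype.card χ with hM
  set L := T.card + 1 with hL
  have hpos : 0 < L := Nat.succ_pos _
  rcases Nat.eq_or_lt_of_le hs with h | h
  · have h0 : B.filter (fun E => ¬ E.card ≤ s) = ∅ := by
      rw [Finset.filter_eq_empty_iff]
      intro E _ hE
      apply hE
      rw [h]
      exact Finset.card_le_univ E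
    rw [h0]
    unfold cwt
    rw [Finset.sum_empty]
    exact pow_pos hpos _
  · have h1 : cwt L M (B.filter (fun E => ¬ E.card ≤ s)) ≤
        (B.filter (fun E => ¬ E.card ≤ s)).card * L ^ (M - s - 1) := by
      unfold cwt
      rw [← smul_eq_mul, ← Finset.sum_const]
      refine Finset.sum_le_sum fun E hE => ?_
      have h2 : ¬ E.card ≤ s := (Finset.mem_filter.mp hE).2
      exact Nat.pow_le_pow_right hpos (by omega)
    have h3 : (B.filter (fun E => ¬ E.card ≤ s)).card ≤ T.card :=
      (Finset.card_le_card (Finset.filter_subset _ _)).trans (Finset.card_le_card hBT)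
    have h4 : M - s = (M - s - 1) + 1 := by omega
    calc cwt L M (B.filter (fun E => ¬ E.card ≤ s))
        ≤ (B.filter (fun E => ¬ E.card ≤ s)).card * L ^ (M - s - 1) := h1
      _ ≤ T.card * L ^ (M - s - 1) := Nat.mul_le_mul_right _ h3
      _ < L * L ^ (M - s - 1) := Nat.mul_lt_mul_of_pos_right (Nat.lt_succ_self _) (pow_pos hpos _)
      _ = L ^ (M - s) := by
          conv_rhs => rw [h4, pow_succ]
          exact Nat.mul_comm _ _

private lemma miss_sub {Γ : α → Finset χ} {Y Y' : Finset χ} (h : Miss Γ Y) (hY : Y' ⊆ Y) :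
    Miss Γ Y' :=
  fun A => (h A).trans (Finset.card_le_card (Finset.sdiff_subset_sdiff (Finset.Subset.refl _) hY))

/-- Existence of the lexicographically maximal missable matching. -/
theorem exists_cfg (Γ N : α → Finset χ) (T : Finset (Finset χ)) (D : ℕ)
    (hNΓ : ∀ a, N a ⊆ Γ a) (hT : ∀ E ∈ T, 3 ≤ E.card)
    (hlin : ∀ E ∈ T, ∀ F ∈ T, E ≠ F → (E ∩ F).card ≤ 1) (hN : ∀ a, (N a).card ≤ D)
    (hdeg : ∀ x, (univ.filter (fun a => x ∈ N a)).card
      + ∑ E ∈ T.filter (fun E => x ∈ E), (E.card - 1) ≤ D)
    (hHall : Miss Γ ∅) :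
    ∃ c : Cfg α χ, c.Γ = Γ ∧ c.N = N ∧ c.T = T ∧ c.D = D ∧ Miss Γ (vs c.B) := by
  classical
  set M := Fintype.card χ with hM
  set L := T.card + 1 with hL
  let P : Finset (Finset χ) → Prop := fun B =>
    (∀ E ∈ B, ∀ F ∈ B, E ≠ F → Disjoint E F) ∧ Miss Γ (vs B)
  have hne : (T.powerset.filter P).Nonempty := by
    refine ⟨∅, Finset.mem_filter.mpr ⟨Finset.empty_mem_powerset _, ?_, ?_⟩⟩
    · intro E hE
      exact absurd hE (Finset.notMem_empty _)
    · have h : vs (∅ : Finset (Finset χ)) = ∅ := Finset.biUnion_empty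
      rw [h]
      exact hHall
  obtain ⟨B, hB, hmax⟩ := Finset.exists_max_image (T.powerset.filter P) (cwt L M) hne
  rw [Finset.mem_filter, Finset.mem_powerset] at hB
  obtain ⟨hBT, hBd, hBm⟩ := hB
  have hcardM : ∀ E : Finset χ, E.card ≤ M := fun E => Finset.card_le_univ E
  -- no improvement at level `s`
  have key : ∀ s, s ≤ M → ∀ B' : Finset (Finset χ), B' ⊆ T → P B' →
      ¬ (cwt L M (low B s) + L ^ (M - s) ≤ cwt L M B') := by
    intro s hs B' hB'T hB' hle
    have h1 := hmax B' (Finset.mem_filter.mpr ⟨Finset.mem_powerset.mpr hB'T, hB'⟩)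
    have h2 := cwt_split L M s B
    have h3 := cwt_high T B hBT s hs
    rw [← hL, ← hM] at h3
    omega
  -- the representatives
  have hhall : ∀ A : Finset α, A.card ≤ (A.biUnion fun a => Γ a \ vs B).card := by
    intro A
    have h1 := hBm A
    have h2 : nb Γ A \ vs B ⊆ A.biUnion fun a => Γ a \ vs B := by
      intro x hx
      rw [Finset.mem_sdiff, nb, Finset.mem_biUnion] at hx
      obtain ⟨⟨a, ha, hxa⟩, hxB⟩ := hx
      exact Finset.mem_biUnion.mpr ⟨a, ha, Finset.mem_sdiff.mpr ⟨hxa, hxB⟩⟩
    exact h1.trans (Finset.card_le_card h2)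
  obtain ⟨μ, hμ, hμm⟩ := (Finset.all_card_le_biUnion_card_iff_exists_injective _).mp hhall
  have he1 : ∀ u ∈ T, u ∉ B → Disjoint u (vs (low B u.card)) →
      ¬ Miss Γ (vs (low B u.card) ∪ u) := by
    intro u hu huB hdis hmiss
    have hnot : u ∉ low B u.card := fun h => huB (Finset.mem_filter.mp h).1
    refine key u.card (hcardM u) (insert u (low B u.card)) ?_ ⟨?_, ?_⟩ ?_
    · exact Finset.insert_subset hu ((Finset.filter_subset _ _).trans hBT)
    · have hx : ∀ F ∈ low B u.card, Disjoint u F := fun F hF =>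
        Finset.disjoint_of_subset_right (Finset.subset_biUnion_of_mem id hF) hdis
      intro E hE F hF hEF
      rw [Finset.mem_insert] at hE hF
      rcases hE with rfl | hE
      · rcases hF with rfl | hF
        · exact absurd rfl hEF
        · exact hx F hF
      · rcases hF with rfl | hF
        · exact (hx E hE).symm
        · exact hBd E (Finset.mem_filter.mp hE).1 F (Finset.mem_filter.mp hF).1 hEF
    · have h : vs (insert u (low B u.card)) = vs (low B u.card) ∪ u := by
        unfold vs
        rw [Finset.biUnion_insert, Finset.union_comm]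
        rfl
      rw [h]
      exact hmiss
    · unfold cwt
      rw [Finset.sum_insert hnot, Nat.add_comm]
  have he2 : ∀ v ∈ B, ∀ u ∈ T, ∀ u' ∈ T, u ∉ B → u' ∉ B → u.card = v.card → v.card ≤ u'.card →
      Disjoint u u' → Disjoint u (vs (low B u'.card) \ v) →
      Disjoint u' (vs (low B u'.card) \ v) →
      ¬ Miss Γ ((vs (low B u'.card) \ v) ∪ u ∪ u') := by
    intro v hv u hu u' hu' huB hu'B huv hvu' huu' hd hd' hmiss
    set B1 := (low B u'.card).erase v with hB1
    have hvlow : v ∈ low B u'.card := Finset.mem_filter.mpr ⟨hv, hvu'⟩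
    have hsub1 : B1 ⊆ B := (Finset.erase_subset _ _).trans (Finset.filter_subset _ _)
    have hin : ∀ F ∈ B1, F ⊆ vs (low B u'.card) \ v := by
      intro F hF
      have h1 : F ∈ low B u'.card := Finset.mem_of_mem_erase hF
      have h2 : F ≠ v := Finset.ne_of_mem_erase hF
      intro x hx
      refine Finset.mem_sdiff.mpr ⟨Finset.mem_biUnion.mpr ⟨F, h1, hx⟩, fun hxv => ?_⟩
      exact Finset.disjoint_left.mp (hBd F (Finset.mem_filter.mp h1).1 v hv h2) hx hxv
    have hx : ∀ F ∈ B1, Disjoint u F := fun F hF =>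
      Finset.disjoint_of_subset_right (hin F hF) hd
    have hx' : ∀ F ∈ B1, Disjoint u' F := fun F hF =>
      Finset.disjoint_of_subset_right (hin F hF) hd'
    have hu'1 : u' ∉ B1 := fun h => hu'B (hsub1 h)
    have hne' : u ≠ u' := by
      intro h
      rw [← h, disjoint_self] at huu'
      have h3 := hT u hu
      rw [huu'] at h3
      simp at h3
    have hu1 : u ∉ insert u' B1 := by
      rw [Finset.mem_insert]
      rintro (h | h)
      · exact hne' h
      · exact huB (hsub1 h)
    refine key u'.card (hcardM u') (insert u (insert u' B1)) ?_ ⟨?_, ?_⟩ ?_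
    · exact Finset.insert_subset hu (Finset.insert_subset hu' (hsub1.trans hBT))
    · intro E hE F hF hEF
      rw [Finset.mem_insert, Finset.mem_insert] at hE hF
      rcases hE with rfl | rfl | hE
      · rcases hF with rfl | rfl | hF
        · exact absurd rfl hEF
        · exact huu'
        · exact hx F hF
      · rcases hF with rfl | rfl | hF
        · exact huu'.symm
        · exact absurd rfl hEF
        · exact hx' F hF
      · rcases hF with rfl | rfl | hF
        · exact (hx E hE).symm
        · exact (hx' E hE).symm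
        · exact hBd E (hsub1 hE) F (hsub1 hF) hEF
    · refine miss_sub hmiss ?_
      intro x hxm
      obtain ⟨F, hF, hxF⟩ := Finset.mem_biUnion.mp hxm
      rw [Finset.mem_insert, Finset.mem_insert] at hF
      rcases hF with rfl | rfl | hF
      · exact Finset.mem_union_left _ (Finset.mem_union_right _ hxF)
      · exact Finset.mem_union_right _ hxF
      · exact Finset.mem_union_left _ (Finset.mem_union_left _ (hin F hF hxF))
    · have h1 : cwt L M (low B u'.card) = L ^ (M - v.card) + cwt L M B1 := by
        unfold cwt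
        rw [hB1, Finset.add_sum_erase _ (fun E : Finset χ => L ^ (M - E.card)) hvlow]
      have h2 : cwt L M (insert u (insert u' B1)) =
          L ^ (M - u.card) + (L ^ (M - u'.card) + cwt L M B1) := by
        unfold cwt
        rw [Finset.sum_insert hu1, Finset.sum_insert hu'1]
      rw [h1, h2, huv]
      omega
  exact ⟨{ Γ := Γ, N := N, T := T, B := B, μ := μ, D := D, hNΓ := hNΓ, hT := hT, hlin := hlin,
           hN := hN, hdeg := hdeg, hBT := hBT, hB := hBd, hμ := hμ,
           hμΓ := fun a => (Finset.mem_sdiff.mp (hμm a)).1,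
           hμB := fun a => (Finset.mem_sdiff.mp (hμm a)).2, e1 := he1, e2 := he2 },
    rfl, rfl, rfl, rfl, hBm⟩

end Pool.Agent.UQ
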