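import Pool.Agent.UQ.Defs

set_option autoImplicit false

namespace Pool.Agent.UQ

open Finset

variable {V : Type} [Fintype V] [DecidableEq V]

omit [Fintype V] in
private theorem gmatch_card {M : Finset (Finset V)} {S : Finset V} (h2 : ∀ e ∈ M, e.card = 2)
    (hd : ∀ e ∈ M, ∀ f ∈ M, e ≠ f → Disjoint e f) (hv : vs M = S) : 2 * M.card = S.card := by
  have h1 : (M.biUnion id).card = ∑ e ∈ M, (id e : Finset V).card :=
    card_biUnion fun e he f hf hne => hd e he f hf hne
  rw [← hv, vs, h1, sum_congr rfl fun e he => show (id e : Finset V).card = 2 from h2 e he,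
    sum_const, smul_eq_mul, mul_comm]

omit [Fintype V] in
private theorem gmatch_sub_vs {M : Finset (Finset V)} {e : Finset V} (he : e ∈ M) : e ⊆ vs M := by
  intro z hz
  exact mem_biUnion.2 ⟨e, he, hz⟩

omit [Fintype V] [DecidableEq V] in
/-- disjoint families from disjoint nonempty members -/
private theorem gmatch_disj {F G : Finset (Finset V)} (hF : ∀ e ∈ F, e.Nonempty)
    (h : ∀ e ∈ F, ∀ f ∈ G, Disjoint e f) : Disjoint F G := by
  rw [Finset.disjoint_left]
  intro e he hg
  have h1 := h e he e hg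
  rw [disjoint_self] at h1
  exact (hF e he).ne_empty h1

/-- (G4): the matching built from a missable matching. -/
theorem gmatch {H : Finset (Finset V)} {A : Finset V} {P : Finset (Finset V)} (hs : Sys H A P)
    (hfac : ∀ K ∈ P, ∀ v ∈ K, PM H (K.erase v)) (x : Finset V → V) (hx : ∀ K ∈ P, x K ∈ K)
    (B : Finset (Finset V)) (hBH : B ⊆ H) (hB3 : ∀ E ∈ B, 3 ≤ E.card)
    (hBX : ∀ E ∈ B, E ⊆ P.image x) (hBd : ∀ E ∈ B, ∀ F ∈ B, E ≠ F → Disjoint E F)
    (κ : {a // a ∈ A} → Finset V) (hκi : Function.Injective κ) (hκP : ∀ a, κ a ∈ P)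
    (hκadj : ∀ a, ∃ y ∈ κ a, ({a.1, y} : Finset V) ∈ H) (hκB : ∀ a, x (κ a) ∉ vs B) :
    ∃ M : Finset (Finset V), M ⊆ H ∧ (∀ E ∈ M, ∀ F ∈ M, E ≠ F → Disjoint E F) ∧
      2 * B.card + 2 * A.card + ∑ K ∈ P, (K.card - 1) ≤ 2 * M.card := by
  classical
  choose y hyκ hyH using hκadj
  obtain ⟨v, hvκ, hvx⟩ : ∃ v : Finset V → V, (∀ a, v (κ a) = y a) ∧
      ∀ K, (∀ a, κ a ≠ K) → v K = x K := by
    refine ⟨fun K => if h : ∃ a, κ a = K then y h.choose else x K, ?_, ?_⟩
    · intro a
      have h : ∃ b, κ b = κ a := ⟨a, rfl⟩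
      show (if h : ∃ b, κ b = κ a then y h.choose else x (κ a)) = y a
      rw [dif_pos h, hκi h.choose_spec]
    · intro K hK
      show (if h : ∃ b, κ b = K then y h.choose else x K) = x K
      rw [dif_neg (by rintro ⟨a, ha⟩; exact hK a ha)]
  have hvK : ∀ K ∈ P, v K ∈ K := by
    intro K hK
    by_cases h : ∃ a, κ a = K
    · obtain ⟨a, rfl⟩ := h
      rw [hvκ]
      exact hyκ a
    · push Not at h
      rw [hvx K h]
      exact hx K hK
  obtain ⟨MM, hMM⟩ : ∃ MM : Finset V → Finset (Finset V), ∀ K ∈ P, MM K ⊆ H ∧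
      (∀ e ∈ MM K, e.card = 2) ∧ (∀ e ∈ MM K, ∀ f ∈ MM K, e ≠ f → Disjoint e f) ∧
      vs (MM K) = K.erase (v K) := by
    refine ⟨fun K => if h : K ∈ P then (hfac K h (v K) (hvK K h)).choose else ∅, ?_⟩
    intro K hK
    have h1 : (fun K => if h : K ∈ P then (hfac K h (v K) (hvK K h)).choose else ∅) K =
        (hfac K hK (v K) (hvK K hK)).choose := dif_pos hK
    rw [h1]
    exact (hfac K hK (v K) (hvK K hK)).choose_spec
  -- vertices of `X` in blocks
  have hXK : ∀ K ∈ P, ∀ z ∈ K, z ∈ P.image x → z = x K := by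
    intro K hK z hz hzX
    obtain ⟨L, hL, rfl⟩ := mem_image.1 hzX
    by_contra hne
    have hKL : K ≠ L := fun h => hne (by rw [h])
    exact (Finset.disjoint_left.1 (hs.dis K hK L hL hKL)) hz (hx L hL)
  have hyA : ∀ a, y a ∉ A := fun a ha =>
    (Finset.disjoint_left.1 (hs.sub _ (hκP a))) (hyκ a) ha
  have hsame : ∀ a, ∀ K ∈ P, y a ∈ K → K = κ a := by
    intro a K hK hyK
    by_contra hne
    exact (Finset.disjoint_left.1 (hs.dis K hK _ (hκP a) hne)) hyK (hyκ a)
  have hB_A : ∀ E ∈ B, ∀ a ∈ A, a ∉ E := by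
    intro E hE a ha haE
    obtain ⟨K, hK, hKa⟩ := mem_image.1 (hBX E hE haE)
    have := hx K hK
    rw [hKa] at this
    exact (Finset.disjoint_left.1 (hs.sub K hK)) this ha
  have hB_y : ∀ E ∈ B, ∀ a, y a ∉ E := by
    intro E hE a haE
    have h1 := hXK _ (hκP a) _ (hyκ a) (hBX E hE haE)
    exact hκB a (by rw [← h1]; exact gmatch_sub_vs hE haE)
  -- the three families
  set F1 : Finset (Finset V) := A.attach.image (fun a => ({a.1, y a} : Finset V)) with hF1
  set F2 : Finset (Finset V) := P.biUnion MM with hF2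
  have h01 : ∀ E ∈ B, ∀ F ∈ F1, Disjoint E F := by
    intro E hE F hF
    obtain ⟨a, -, rfl⟩ := mem_image.1 hF
    rw [Finset.disjoint_left]
    intro z hz hzF
    rw [mem_insert, mem_singleton] at hzF
    rcases hzF with rfl | rfl
    · exact hB_A E hE _ a.2 hz
    · exact hB_y E hE a hz
  have h02 : ∀ E ∈ B, ∀ F ∈ F2, Disjoint E F := by
    intro E hE F hF
    obtain ⟨K, hK, hFK⟩ := mem_biUnion.1 hF
    rw [Finset.disjoint_left]
    intro z hz hzF
    have h1 : z ∈ K.erase (v K) := by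
      rw [← (hMM K hK).2.2.2]
      exact gmatch_sub_vs hFK hzF
    rw [mem_erase] at h1
    have h2 := hXK K hK z h1.2 (hBX E hE hz)
    by_cases h : ∃ a, κ a = K
    · obtain ⟨a, rfl⟩ := h
      exact hκB a (by rw [← h2]; exact gmatch_sub_vs hE hz)
    · push Not at h
      exact h1.1 (by rw [hvx K h, h2])
  have h11 : ∀ E ∈ F1, ∀ F ∈ F1, E ≠ F → Disjoint E F := by
    intro E hE F hF hne
    obtain ⟨a, -, rfl⟩ := mem_image.1 hE
    obtain ⟨b, -, rfl⟩ := mem_image.1 hF
    have hab : a ≠ b := fun h => hne (by rw [h])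
    rw [Finset.disjoint_left]
    intro z hz hz'
    rw [mem_insert, mem_singleton] at hz hz'
    rcases hz with rfl | rfl
    · rcases hz' with h | h
      · exact hab (Subtype.ext h)
      · exact hyA b (by rw [← h]; exact a.2)
    · rcases hz' with h | h
      · exact hyA a (by rw [h]; exact b.2)
      · have := hsame a _ (hκP b) (by rw [h]; exact hyκ b)
        exact hab (hκi this).symm
  have h12 : ∀ E ∈ F1, ∀ F ∈ F2, Disjoint E F := by
    intro E hE F hF
    obtain ⟨a, -, rfl⟩ := mem_image.1 hE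
    obtain ⟨K, hK, hFK⟩ := mem_biUnion.1 hF
    rw [Finset.disjoint_left]
    intro z hz hzF
    have h1 : z ∈ K.erase (v K) := by
      rw [← (hMM K hK).2.2.2]
      exact gmatch_sub_vs hFK hzF
    rw [mem_erase] at h1
    rw [mem_insert, mem_singleton] at hz
    rcases hz with rfl | rfl
    · exact (Finset.disjoint_left.1 (hs.sub K hK)) h1.2 a.2
    · have h2 := hsame a K hK h1.2
      exact h1.1 (by rw [h2, hvκ])
  have h22 : ∀ E ∈ F2, ∀ F ∈ F2, E ≠ F → Disjoint E F := by
    intro E hE F hF hne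
    obtain ⟨K, hK, hEK⟩ := mem_biUnion.1 hE
    obtain ⟨L, hL, hFL⟩ := mem_biUnion.1 hF
    by_cases hKL : K = L
    · subst hKL
      exact (hMM K hK).2.2.1 E hEK F hFL hne
    · rw [Finset.disjoint_left]
      intro z hz hzF
      have h1 : z ∈ K.erase (v K) := by
        rw [← (hMM K hK).2.2.2]
        exact gmatch_sub_vs hEK hz
      have h2 : z ∈ L.erase (v L) := by
        rw [← (hMM L hL).2.2.2]
        exact gmatch_sub_vs hFL hzF
      exact (Finset.disjoint_left.1 (hs.dis K hK L hL hKL)) (mem_of_mem_erase h1)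
        (mem_of_mem_erase h2)
  have hBne : ∀ E ∈ B, E.Nonempty := fun E hE => card_pos.1 (by have := hB3 E hE; omega)
  have hF1ne : ∀ E ∈ F1, E.Nonempty := by
    intro E hE
    obtain ⟨a, -, rfl⟩ := mem_image.1 hE
    exact ⟨a.1, mem_insert_self _ _⟩
  have hF2ne : ∀ E ∈ F2, E.Nonempty := by
    intro E hE
    obtain ⟨K, hK, hEK⟩ := mem_biUnion.1 hE
    exact card_pos.1 (by rw [(hMM K hK).2.1 E hEK]; norm_num)
  have hcF1 : F1.card = A.card := by
    rw [hF1, card_image_of_injOn, card_attach]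
    intro a _ b _ hab
    have h1 : a.1 ∈ ({b.1, y b} : Finset V) := by
      have : a.1 ∈ ({a.1, y a} : Finset V) := mem_insert_self _ _
      rw [show ({a.1, y a} : Finset V) = {b.1, y b} from hab] at this
      exact this
    rw [mem_insert, mem_singleton] at h1
    rcases h1 with h | h
    · exact Subtype.ext h
    · exact absurd a.2 (by rw [h]; exact hyA b)
  have hcF2 : 2 * F2.card = ∑ K ∈ P, (K.card - 1) := by
    rw [hF2, card_biUnion, mul_sum]
    · refine sum_congr rfl fun K hK => ?_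
      obtain ⟨-, h2, h3, h4⟩ := hMM K hK
      rw [gmatch_card h2 h3 h4, card_erase_of_mem (hvK K hK)]
    · intro K hK L hL hKL
      refine gmatch_disj (fun e he => hF2ne e (mem_biUnion.2 ⟨K, hK, he⟩)) fun e he f hf => ?_
      rw [Finset.disjoint_left]
      intro z hz hzF
      have h1 : z ∈ K.erase (v K) := by
        rw [← (hMM K hK).2.2.2]
        exact gmatch_sub_vs he hz
      have h2 : z ∈ L.erase (v L) := by
        rw [← (hMM L hL).2.2.2]
        exact gmatch_sub_vs hf hzF
      exact (Finset.disjoint_left.1 (hs.dis K hK L hL hKL)) (mem_of_mem_erase h1)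
        (mem_of_mem_erase h2)
  refine ⟨B ∪ (F1 ∪ F2), ?_, ?_, ?_⟩
  · refine union_subset hBH (union_subset ?_ ?_)
    · intro E hE
      obtain ⟨a, -, rfl⟩ := mem_image.1 hE
      exact hyH a
    · intro E hE
      obtain ⟨K, hK, hEK⟩ := mem_biUnion.1 hE
      exact (hMM K hK).1 hEK
  · intro E hE F hF hne
    rw [mem_union, mem_union] at hE hF
    rcases hE with hE | hE | hE <;> rcases hF with hF | hF | hF
    · exact hBd E hE F hF hne
    · exact h01 E hE F hF
    · exact h02 E hE F hF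
    · exact (h01 F hF E hE).symm
    · exact h11 E hE F hF hne
    · exact h12 E hE F hF
    · exact (h02 F hF E hE).symm
    · exact (h12 F hF E hE).symm
    · exact h22 E hE F hF hne
  · rw [card_union_of_disjoint (gmatch_disj hBne fun e he f hf => by
      rcases mem_union.1 hf with hf | hf
      · exact h01 e he f hf
      · exact h02 e he f hf), card_union_of_disjoint (gmatch_disj hF1ne h12), hcF1]
    omega

end Pool.Agent.UQ
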