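import Pool.Agent.UQ.Defs
import Pool.Agent.UQ.Mono

set_option autoImplicit false

namespace Pool.Agent.UQ

open Finset

variable {α χ : Type} [Fintype α] [DecidableEq α] [Fintype χ] [DecidableEq χ]

/-- (H2) -/
theorem H2 (c : Cfg α χ) (m : ℕ) (I : Finset χ) (hI : Disjoint I (c.Z m)) (hc : I.card ≤ m + 1) :
    Miss c.Γ (c.S m ∪ I) := by
  intro A
  by_contra hlt
  push Not at hlt
  have h1 : nb c.Γ A \ c.S m ⊆ (nb c.Γ A \ (c.S m ∪ I)) ∪ I := by
    intro x hx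
    have hx' := mem_sdiff.mp hx
    by_cases hxI : x ∈ I
    · exact mem_union_right _ hxI
    · refine mem_union_left _ (mem_sdiff.mpr ⟨hx'.1, ?_⟩)
      intro h
      rcases mem_union.mp h with h | h
      · exact hx'.2 h
      · exact hxI h
  have h2 := (card_le_card h1).trans (card_union_le _ _)
  have h3 : (nb c.Γ A \ c.S m).card ≤ A.card + m := by omega
  have h4 : ∀ a ∈ A, a ∈ c.Ah m := fun a ha => mem_filter.mpr ⟨mem_univ _, A, ha, h3⟩
  have h5 : A.image c.μ ⊆ nb c.Γ A \ (c.S m ∪ I) := by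
    intro x hx
    have h6 := image_mu_sub c A (Subset.refl (vs c.B)) hx
    have h7 := mem_sdiff.mp h6
    obtain ⟨a, ha, rfl⟩ := mem_image.mp hx
    refine mem_sdiff.mpr ⟨h7.1, ?_⟩
    intro h
    rcases mem_union.mp h with h | h
    · exact h7.2 (S_sub c m h)
    · exact (disjoint_left.mp hI) h ((mu_mem_Z c m a).mpr (h4 a ha))
  have h6 := card_le_card h5
  rw [card_image_mu] at h6
  omega

/-- (H1) -/
theorem H1 (c : Cfg α χ) (s : ℕ) (a : α) (ha : a ∈ c.Ah s) : (c.N a \ c.Z s).card ≤ s := by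
  obtain ⟨A, haA, hA⟩ := (mem_filter.mp ha).2
  have h4 : ∀ b ∈ A, b ∈ c.Ah s := fun b hb => mem_filter.mpr ⟨mem_univ _, A, hb, hA⟩
  have h1 : c.N a \ c.Z s ⊆ (nb c.Γ A \ c.S s) \ A.image c.μ := by
    intro x hx
    have hx' := mem_sdiff.mp hx
    refine mem_sdiff.mpr ⟨mem_sdiff.mpr ⟨mem_biUnion.mpr ⟨a, haA, c.hNΓ a hx'.1⟩, ?_⟩, ?_⟩
    · intro h
      exact hx'.2 (mem_union_left _ h)
    · intro h
      obtain ⟨b, hb, rfl⟩ := mem_image.mp h
      exact hx'.2 ((mu_mem_Z c s b).mpr (h4 b hb))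
  have h2 := card_le_card h1
  rw [card_sdiff_of_subset (image_mu_sub c A (S_sub c s)), card_image_mu] at h2
  omega

end Pool.Agent.UQ
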