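import Pool.Agent.UQ.Defs

set_option autoImplicit false

namespace Pool.Agent.UQ

open Finset

/-- Section 2: facts about the prices. -/
theorem pr_lower (s : ℕ) (hs : 3 ≤ s) : 1 / (2 * ((s : ℝ) - 1)) ≤ pr s := by
  unfold pr
  split_ifs with h1 h2
  · subst h1; norm_num
  · have h3 : (4 : ℝ) ≤ s := by
      have : 4 ≤ s := by omega
      exact_mod_cast this
    exact one_div_le_one_div_of_le (by norm_num) (by linarith)
  · exact le_refl _

theorem pr_mul_le (s : ℕ) (hs : 3 ≤ s) : (s : ℝ) * pr s ≤ 1 := by
  unfold pr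
  split_ifs with h1 h2
  · subst h1; norm_num
  · have h3 : (s : ℝ) ≤ 5 := by exact_mod_cast h2
    linarith
  · have h3 : (6 : ℝ) ≤ s := by
      have : 6 ≤ s := by omega
      exact_mod_cast this
    rw [mul_one_div, div_le_one (by linarith)]
    linarith

theorem pr_anti (s t : ℕ) (hs : 3 ≤ s) (hst : s ≤ t) : pr t ≤ pr s := by
  unfold pr
  by_cases h1 : s = 3
  · rw [if_pos h1]
    split_ifs with h2 h3
    · exact le_refl _
    · norm_num
    · have h3 : (6 : ℝ) ≤ t := by
        have : 6 ≤ t := by omega
        exact_mod_cast this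
      exact one_div_le_one_div_of_le (by norm_num) (by linarith)
  · rw [if_neg h1]
    by_cases h2 : s ≤ 5
    · rw [if_pos h2]
      split_ifs with h3 h4
      · omega
      · exact le_refl _
      · have h3 : (6 : ℝ) ≤ t := by
          have : 6 ≤ t := by omega
          exact_mod_cast this
        exact one_div_le_one_div_of_le (by norm_num) (by linarith)
    · rw [if_neg h2]
      rw [if_neg (by omega), if_neg (by omega)]
      have h3 : (6 : ℝ) ≤ s := by
        have : 6 ≤ s := by omega
        exact_mod_cast this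
      have h4 : (s : ℝ) ≤ t := by exact_mod_cast hst
      exact one_div_le_one_div_of_le (by linarith) (by linarith)

theorem pr_pos (s : ℕ) (hs : 3 ≤ s) : 0 < pr s := by
  have h3 : (3 : ℝ) ≤ s := by exact_mod_cast hs
  have := pr_lower s hs
  have h1 : 0 < 1 / (2 * ((s : ℝ) - 1)) := by
    apply one_div_pos.mpr
    linarith
  linarith

theorem pr_le (s : ℕ) (hs : 3 ≤ s) : pr s ≤ 1 / 4 := by
  have := pr_anti 3 s (le_refl _) hs
  have h : pr 3 = 1 / 4 := by unfold pr; simp
  linarith

end Pool.Agent.UQ
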