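import Pool.Agent.UQ.Defs
import Pool.Agent.UQ.Prices
import Pool.Agent.UQ.Mono

set_option autoImplicit false

namespace Pool.Agent.UQ

open Finset

variable {α χ : Type} [Fintype α] [DecidableEq α] [Fintype χ] [DecidableEq χ]

theorem p_nonneg (c : Cfg α χ) (x : χ) : 0 ≤ c.p x := by
  unfold Cfg.p
  split_ifs with h
  · exact (pr_pos _ (Nat.find_spec h).1).le
  · exact le_refl _

theorem p_le (c : Cfg α χ) (x : χ) : c.p x ≤ 1 / 4 := by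
  unfold Cfg.p
  split_ifs with h
  · exact pr_le _ (Nat.find_spec h).1
  · norm_num

theorem p_of_mem_Z (c : Cfg α χ) {s : ℕ} (hs : 3 ≤ s) {x : χ} (hx : x ∈ c.Z s) : pr s ≤ c.p x := by
  unfold Cfg.p
  have h : ∃ s, 3 ≤ s ∧ x ∈ c.Z s := ⟨s, hs, hx⟩
  rw [dif_pos h]
  exact pr_anti _ _ (Nat.find_spec h).1 (Nat.find_min' h ⟨hs, hx⟩)

theorem p_of_mem_B (c : Cfg α χ) {v : Finset χ} (hv : v ∈ c.B) {x : χ} (hx : x ∈ v) :
    c.p x = pr v.card := by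
  unfold Cfg.p
  have hc : 3 ≤ v.card := c.hT v (c.hBT hv)
  have h : ∃ s, 3 ≤ s ∧ x ∈ c.Z s := ⟨v.card, hc, (mem_Z_iff c v.card hv hx).mpr (le_refl _)⟩
  rw [dif_pos h]
  congr 1
  apply le_antisymm
  · exact Nat.find_min' h ⟨hc, (mem_Z_iff c v.card hv hx).mpr (le_refl _)⟩
  · exact (mem_Z_iff c _ hv hx).mp (Nat.find_spec h).2

theorem p_zero (c : Cfg α χ) (x : χ) (hx : x ∉ vs c.B) (hx' : ∀ a, x ≠ c.μ a) : c.p x = 0 := by
  unfold Cfg.p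
  rw [dif_neg]
  rintro ⟨s, _, hs⟩
  unfold Cfg.Z at hs
  rcases Finset.mem_union.mp hs with h | h
  · exact hx (S_sub c s h)
  · obtain ⟨a, _, ha⟩ := Finset.mem_image.mp h
    exact hx' a ha.symm

/-- The price of `μ a`. -/
theorem p_mu (c : Cfg α χ) (a : α) : c.p (c.μ a) = 0 ∨
    ∃ s, 3 ≤ s ∧ c.p (c.μ a) = pr s ∧ a ∈ c.Ah s ∧ ∀ t, 3 ≤ t → t < s → a ∉ c.Ah t := by
  classical
  by_cases h : ∃ s, 3 ≤ s ∧ c.μ a ∈ c.Z s
  · right
    refine ⟨Nat.find h, (Nat.find_spec h).1, ?_, ?_, ?_⟩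
    · unfold Cfg.p
      rw [dif_pos h]
    · exact (mu_mem_Z c _ a).mp (Nat.find_spec h).2
    · intro t ht htl hta
      exact Nat.find_min h htl ⟨ht, (mu_mem_Z c t a).mpr hta⟩
  · left
    unfold Cfg.p
    rw [dif_neg h]

end Pool.Agent.UQ
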