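import Pool.Agent.UQ.Defs
import Pool.Agent.UQ.Prices
import Pool.Agent.UQ.PFacts
import Pool.Agent.UQ.HLem

set_option autoImplicit false

namespace Pool.Agent.UQ

open Finset

variable {α χ : Type} [Fintype α] [DecidableEq α] [Fintype χ] [DecidableEq χ]

/-- Every `u ∈ T \ B` meets `Z_{|u|}`. -/
theorem touch (c : Cfg α χ) {u : Finset χ} (hu : u ∈ c.T) (hB : u ∉ c.B) : (c.tch u).Nonempty := by
  by_contra hne
  rw [Finset.not_nonempty_iff_eq_empty] at hne
  have hd : Disjoint u (c.Z u.card) := Finset.disjoint_iff_inter_eq_empty.2 hne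
  have hd' : Disjoint u (vs (low c.B u.card)) :=
    Finset.disjoint_of_subset_right (by
      intro x hx
      exact Finset.mem_union_left _ hx) hd
  exact c.e1 u hu hB hd' (H2 c u.card u hd (Nat.le_succ _))

/-- A needy edge has exactly one small vertex. -/
theorem needy_touch (c : Cfg α χ) {u : Finset χ} (hu : u ∈ c.Nd) :
    ∃ z, z ∈ u ∧ z ∈ c.Z u.card ∧ c.tch u = {z} ∧ c.bt u = u.erase z := by
  have hu' := hu
  unfold Cfg.Nd at hu'
  rw [Finset.mem_filter] at hu'
  obtain ⟨hT, hB, hX⟩ := hu'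
  have h3 : 3 ≤ u.card := c.hT u hT
  obtain ⟨z, hz⟩ := touch c hT hB
  have hz' : z ∈ u ∧ z ∈ c.Z u.card := Finset.mem_inter.1 hz
  have huniq : ∀ y ∈ u, y ∈ c.Z u.card → y = z := by
    intro y hy hyZ
    by_contra hyz
    have h1 : pr u.card ≤ c.p y := p_of_mem_Z c h3 hyZ
    have h2 : pr u.card ≤ c.p z := p_of_mem_Z c h3 hz'.2
    have h4 : c.p y + c.p z ≤ ∑ x ∈ u, c.p x := by
      rw [← Finset.sum_pair hyz]
      apply Finset.sum_le_sum_of_subset_of_nonneg
      · intro x hx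
        rw [Finset.mem_insert, Finset.mem_singleton] at hx
        rcases hx with rfl | rfl
        · exact hy
        · exact hz'.1
      · intro x _ _
        exact p_nonneg c x
    have h5 := pr_lower u.card h3
    have h6 : (0 : ℝ) < (u.card : ℝ) - 1 := by
      have : (3 : ℝ) ≤ u.card := by exact_mod_cast h3
      linarith
    have h7 : 1 / ((u.card : ℝ) - 1) = 2 * (1 / (2 * ((u.card : ℝ) - 1))) := by
      field_simp
    unfold Cfg.X at hX
    linarith
  refine ⟨z, hz'.1, hz'.2, ?_, ?_⟩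
  · ext y
    rw [Finset.mem_singleton]
    constructor
    · intro hy
      have hy' : y ∈ u ∧ y ∈ c.Z u.card := Finset.mem_inter.1 hy
      exact huniq y hy'.1 hy'.2
    · rintro rfl
      exact hz
  · ext y
    unfold Cfg.bt
    rw [Finset.mem_sdiff, Finset.mem_erase]
    constructor
    · rintro ⟨h1, h2⟩
      refine ⟨?_, h1⟩
      rintro rfl
      exact h2 hz'.2
    · rintro ⟨h1, h2⟩
      exact ⟨h2, fun h => h1 (huniq y h2 h)⟩

theorem bt_card (c : Cfg α χ) {u : Finset χ} (hu : u ∈ c.Nd) : (c.bt u).card = u.card - 1 := by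
  obtain ⟨z, hz, -, -, hb⟩ := needy_touch c hu
  rw [hb, Finset.card_erase_of_mem hz]

/-- `X_u + p(z_u) = 1/(|u|-1) - Σ_{β(u)} p`. -/
theorem X_add (c : Cfg α χ) {u : Finset χ} (hu : u ∈ c.Nd) {z : χ} (hz : c.tch u = {z}) :
    c.X u + c.p z = 1 / ((u.card : ℝ) - 1) - ∑ x ∈ c.bt u, c.p x := by
  obtain ⟨w, hw, -, ht, hb⟩ := needy_touch c hu
  have hwz : z = w := by
    have : z ∈ ({w} : Finset χ) := by
      rw [← ht, hz]
      exact Finset.mem_singleton_self z
    exact Finset.mem_singleton.1 this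
  subst hwz
  rw [hb]
  have h1 := Finset.add_sum_erase u c.p hw
  unfold Cfg.X
  linarith

end Pool.Agent.UQ
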