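import Pool.Agent.UQ.Defs
import Pool.Agent.UQ.Prices
import Pool.Agent.UQ.NeedyTouch

set_option autoImplicit false

namespace Pool.Agent.UQ

open Finset

variable {α χ : Type} [Fintype α] [DecidableEq α] [Fintype χ] [DecidableEq χ]

theorem ac1 (c : Cfg α χ) :
    (c.T.card : ℝ) ≤ c.B.card + ∑ u ∈ c.T \ c.B, ((u.card : ℝ) - 1) * ∑ x ∈ u, c.p x
      + ∑ u ∈ c.Nd, ((u.card : ℝ) - 1) * c.X u := by
  have hcard : (c.T.card : ℝ) = c.B.card + ((c.T \ c.B).card : ℝ) := by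
    have h := card_sdiff_add_card_eq_card c.hBT
    have h2 : c.T.card = c.B.card + (c.T \ c.B).card := by omega
    exact_mod_cast h2
  have hge : ∀ u ∈ c.T, (0 : ℝ) < (u.card : ℝ) - 1 := by
    intro u hu
    have h3 : (3 : ℝ) ≤ u.card := by exact_mod_cast c.hT u hu
    linarith
  have hone : ((c.T \ c.B).card : ℝ) = ∑ u ∈ c.T \ c.B, (((u.card : ℝ) - 1) * ∑ x ∈ u, c.p x
      + ((u.card : ℝ) - 1) * c.X u) := by
    rw [card_eq_sum_ones]
    push_cast
    apply sum_congr rfl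
    intro u hu
    have hpos := hge u (mem_sdiff.mp hu).1
    unfold Cfg.X
    have : ((u.card : ℝ) - 1) * (1 / ((u.card : ℝ) - 1)) = 1 := by
      rw [mul_one_div, div_self hpos.ne']
    linarith [mul_sub ((u.card : ℝ) - 1) (1 / ((u.card : ℝ) - 1)) (∑ x ∈ u, c.p x)]
  have hNd : c.Nd ⊆ c.T \ c.B := by
    intro u hu
    have h := mem_filter.mp hu
    exact mem_sdiff.mpr ⟨h.1, h.2.1⟩
  have hle : ∑ u ∈ c.T \ c.B, ((u.card : ℝ) - 1) * c.X u
      ≤ ∑ u ∈ c.Nd, ((u.card : ℝ) - 1) * c.X u := by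
    rw [← sum_sdiff hNd]
    have : ∑ u ∈ (c.T \ c.B) \ c.Nd, ((u.card : ℝ) - 1) * c.X u ≤ 0 := by
      apply sum_nonpos
      intro u hu
      have h1 := mem_sdiff.mp hu
      have h2 := mem_sdiff.mp h1.1
      have h3 : c.X u ≤ 0 := by
        by_contra h
        push Not at h
        exact h1.2 (mem_filter.mpr ⟨h2.1, h2.2, h⟩)
      exact mul_nonpos_of_nonneg_of_nonpos (hge u h2.1).le h3
    linarith
  rw [hcard, hone, sum_add_distrib]
  linarith

end Pool.Agent.UQ
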