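import Pool.Agent.UQ.Defs
import Pool.Agent.UQ.PFacts

set_option autoImplicit false

namespace Pool.Agent.UQ

open Finset

variable {α χ : Type} [Fintype α] [DecidableEq α] [Fintype χ] [DecidableEq χ]

private theorem ac2_swap (F : Finset (Finset χ)) (g : Finset χ → χ → ℝ) :
    ∑ u ∈ F, ∑ x ∈ u, g u x = ∑ x, ∑ u ∈ F.filter (fun u => x ∈ u), g u x := by
  have h1 : ∀ u ∈ F, ∑ x ∈ u, g u x = ∑ x, if x ∈ u then g u x else 0 := by
    intro u _
    rw [sum_ite_mem, univ_inter]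
  rw [sum_congr rfl h1, sum_comm]
  refine sum_congr rfl (fun x _ => ?_)
  rw [sum_filter]

private theorem ac2_swapA (c : Cfg α χ) (g : χ → ℝ) :
    ∑ a, ∑ x ∈ c.N a, g x
      = ∑ x, ((univ.filter (fun a => x ∈ c.N a)).card : ℝ) * g x := by
  have h1 : ∀ a ∈ (univ : Finset α), ∑ x ∈ c.N a, g x = ∑ x, if x ∈ c.N a then g x else 0 := by
    intro a _
    rw [sum_ite_mem, univ_inter]
  rw [sum_congr rfl h1, sum_comm]
  refine sum_congr rfl (fun x _ => ?_)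
  rw [← sum_filter, sum_const, nsmul_eq_mul]

theorem ac2 (c : Cfg α χ) :
    ∑ u ∈ c.T \ c.B, ((u.card : ℝ) - 1) * ∑ x ∈ u, c.p x
      ≤ ∑ v ∈ c.B, (v.card : ℝ) * pr v.card * ((c.D : ℝ) - ((v.card : ℝ) - 1))
        + ∑ a, ((c.D : ℝ) * c.p (c.μ a) - ∑ x ∈ c.N a, c.p x) := by
  have hcard : ∀ E ∈ c.T, ((E.card - 1 : ℕ) : ℝ) = (E.card : ℝ) - 1 := by
    intro E hE
    have := c.hT E hE
    rw [Nat.cast_sub (by omega)]
    norm_num
  -- degree condition over the reals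
  have hdeg : ∀ x, ((univ.filter (fun a => x ∈ c.N a)).card : ℝ)
      + ∑ E ∈ c.T.filter (fun E => x ∈ E), ((E.card : ℝ) - 1) ≤ c.D := by
    intro x
    have h := c.hdeg x
    have h2 : (((univ.filter (fun a => x ∈ c.N a)).card
      + ∑ E ∈ c.T.filter (fun E => x ∈ E), (E.card - 1) : ℕ) : ℝ) ≤ (c.D : ℝ) := by
      exact_mod_cast h
    rw [Nat.cast_add, Nat.cast_sum] at h2
    rw [sum_congr rfl (fun E hE => hcard E (mem_filter.1 hE).1)] at h2
    exact h2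
  have hpos : ∀ E ∈ c.T, 0 ≤ (E.card : ℝ) - 1 := by
    intro E hE
    have := c.hT E hE
    have h3 : (3 : ℝ) ≤ (E.card : ℝ) := by exact_mod_cast this
    linarith
  have hBT := c.hBT
  -- the two parts
  have hsplit : ∀ x, ∑ E ∈ c.T.filter (fun E => x ∈ E), ((E.card : ℝ) - 1)
      = ∑ E ∈ (c.T \ c.B).filter (fun E => x ∈ E), ((E.card : ℝ) - 1)
        + ∑ E ∈ c.B.filter (fun E => x ∈ E), ((E.card : ℝ) - 1) := by
    intro x
    rw [sum_filter, sum_filter, sum_filter, ← sum_sdiff hBT]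
  have hDB : ∀ v ∈ c.B, 0 ≤ (c.D : ℝ) - ((v.card : ℝ) - 1) := by
    intro v hv
    have h3 := c.hT v (hBT hv)
    obtain ⟨x, hx⟩ := card_pos.1 (by omega : 0 < v.card)
    have h := hdeg x
    have h4 : ((v.card : ℝ) - 1) ≤ ∑ E ∈ c.T.filter (fun E => x ∈ E), ((E.card : ℝ) - 1) :=
      single_le_sum (f := fun E : Finset χ => ((E.card : ℝ) - 1))
        (fun E hE => hpos E (mem_filter.1 hE).1) (mem_filter.2 ⟨hBT hv, hx⟩)
    have h5 : (0 : ℝ) ≤ ((univ.filter (fun a => x ∈ c.N a)).card : ℝ) := Nat.cast_nonneg _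
    linarith
  have hprB : ∀ v ∈ c.B, 0 ≤ pr v.card := fun v hv => (pr_pos v.card (c.hT v (hBT hv))).le
  -- pointwise bound
  have key : ∀ x, c.p x * (∑ E ∈ (c.T \ c.B).filter (fun E => x ∈ E), ((E.card : ℝ) - 1)
        + ((univ.filter (fun a => x ∈ c.N a)).card : ℝ))
      ≤ ∑ v ∈ c.B.filter (fun v => x ∈ v), pr v.card * ((c.D : ℝ) - ((v.card : ℝ) - 1))
        + ∑ a ∈ univ.filter (fun a => c.μ a = x), (c.D : ℝ) * c.p (c.μ a) := by
    intro x
    have hn1 : 0 ≤ ∑ v ∈ c.B.filter (fun v => x ∈ v),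
        pr v.card * ((c.D : ℝ) - ((v.card : ℝ) - 1)) :=
      sum_nonneg (fun v hv => mul_nonneg (hprB v (mem_filter.1 hv).1) (hDB v (mem_filter.1 hv).1))
    have hn2 : 0 ≤ ∑ a ∈ univ.filter (fun a => c.μ a = x), (c.D : ℝ) * c.p (c.μ a) :=
      sum_nonneg (fun a _ => mul_nonneg (Nat.cast_nonneg _) (p_nonneg c _))
    have hd := hdeg x
    rw [hsplit x] at hd
    by_cases hx : x ∈ vs c.B
    · unfold vs at hx
      obtain ⟨v, hv, hxv⟩ := mem_biUnion.1 hx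
      simp only [id] at hxv
      have hp := p_of_mem_B c hv hxv
      have h1 : ((v.card : ℝ) - 1) ≤ ∑ E ∈ c.B.filter (fun E => x ∈ E), ((E.card : ℝ) - 1) :=
        single_le_sum (f := fun E : Finset χ => ((E.card : ℝ) - 1))
          (fun E hE => hpos E (hBT (mem_filter.1 hE).1)) (mem_filter.2 ⟨hv, hxv⟩)
      have h2 : pr v.card * ((c.D : ℝ) - ((v.card : ℝ) - 1))
          ≤ ∑ v ∈ c.B.filter (fun v => x ∈ v), pr v.card * ((c.D : ℝ) - ((v.card : ℝ) - 1)) :=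
        single_le_sum (f := fun v : Finset χ => pr v.card * ((c.D : ℝ) - ((v.card : ℝ) - 1)))
          (fun v hv => mul_nonneg (hprB v (mem_filter.1 hv).1) (hDB v (mem_filter.1 hv).1))
          (mem_filter.2 ⟨hv, hxv⟩)
      have h3 : c.p x * (∑ E ∈ (c.T \ c.B).filter (fun E => x ∈ E), ((E.card : ℝ) - 1)
          + ((univ.filter (fun a => x ∈ c.N a)).card : ℝ))
          ≤ pr v.card * ((c.D : ℝ) - ((v.card : ℝ) - 1)) := by
        rw [hp]
        exact mul_le_mul_of_nonneg_left (by linarith) (hprB v hv)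
      linarith
    · by_cases hx' : ∃ a, x = c.μ a
      · obtain ⟨a, rfl⟩ := hx'
        have h1 : (c.D : ℝ) * c.p (c.μ a)
            ≤ ∑ a' ∈ univ.filter (fun a' => c.μ a' = c.μ a), (c.D : ℝ) * c.p (c.μ a') :=
          single_le_sum (f := fun a' : α => (c.D : ℝ) * c.p (c.μ a'))
            (fun a' _ => mul_nonneg (Nat.cast_nonneg _) (p_nonneg c _))
            (mem_filter.2 ⟨mem_univ a, rfl⟩)
        have h2 : 0 ≤ ∑ E ∈ c.B.filter (fun E => c.μ a ∈ E), ((E.card : ℝ) - 1) :=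
          sum_nonneg (fun E hE => hpos E (hBT (mem_filter.1 hE).1))
        have h3 : c.p (c.μ a) * (∑ E ∈ (c.T \ c.B).filter (fun E => c.μ a ∈ E),
            ((E.card : ℝ) - 1) + ((univ.filter (fun a' => c.μ a ∈ c.N a')).card : ℝ))
            ≤ c.p (c.μ a) * (c.D : ℝ) :=
          mul_le_mul_of_nonneg_left (by linarith) (p_nonneg c _)
        linarith
      · push Not at hx'
        rw [p_zero c x hx hx', zero_mul]
        linarith
  have hsum := sum_le_sum (fun x (_ : x ∈ (univ : Finset χ)) => key x)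
  rw [sum_add_distrib] at hsum
  -- left side
  have eL : ∑ x, c.p x * (∑ E ∈ (c.T \ c.B).filter (fun E => x ∈ E), ((E.card : ℝ) - 1)
        + ((univ.filter (fun a => x ∈ c.N a)).card : ℝ))
      = ∑ u ∈ c.T \ c.B, ((u.card : ℝ) - 1) * ∑ x ∈ u, c.p x + ∑ a, ∑ x ∈ c.N a, c.p x := by
    rw [ac2_swapA]
    have : ∑ u ∈ c.T \ c.B, ((u.card : ℝ) - 1) * ∑ x ∈ u, c.p x
        = ∑ x, ∑ u ∈ (c.T \ c.B).filter (fun u => x ∈ u), ((u.card : ℝ) - 1) * c.p x := by
      rw [← ac2_swap]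
      exact sum_congr rfl (fun u _ => mul_sum _ _ _)
    rw [this, ← sum_add_distrib]
    refine sum_congr rfl (fun x _ => ?_)
    rw [← sum_mul]
    ring
  have eR1 : ∑ x, ∑ v ∈ c.B.filter (fun v => x ∈ v), pr v.card * ((c.D : ℝ) - ((v.card : ℝ) - 1))
      = ∑ v ∈ c.B, (v.card : ℝ) * pr v.card * ((c.D : ℝ) - ((v.card : ℝ) - 1)) := by
    rw [← ac2_swap c.B (fun v _ => pr v.card * ((c.D : ℝ) - ((v.card : ℝ) - 1)))]
    refine sum_congr rfl (fun v _ => ?_)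
    rw [sum_const, nsmul_eq_mul]
    ring
  have eR2 : ∑ x, ∑ a ∈ univ.filter (fun a => c.μ a = x), (c.D : ℝ) * c.p (c.μ a)
      = ∑ a, (c.D : ℝ) * c.p (c.μ a) :=
    sum_fiberwise (univ : Finset α) c.μ (fun a => (c.D : ℝ) * c.p (c.μ a))
  rw [eL, eR1, eR2] at hsum
  rw [sum_sub_distrib]
  linarith

end Pool.Agent.UQ
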