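import Pool.Agent.UQ.Defs

set_option autoImplicit false

namespace Pool.Agent.UQ

open Finset

/-- Paths of an injective partial map: starting points without predecessor. -/
theorem reach_disj {σ : Type} (step : σ → σ → Prop)
    (hf : ∀ s t t', step s t → step s t' → t = t')
    (hi : ∀ s s' t, step s t → step s' t → s = s')
    (s s' t : σ) (hs : ∀ x, ¬ step x s) (hs' : ∀ x, ¬ step x s')
    (h : Relation.ReflTransGen step s t) (h' : Relation.ReflTransGen step s' t) : s = s' := by
  induction h with
  | refl =>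
    rcases Relation.ReflTransGen.cases_tail h' with h1 | ⟨x, _, hx⟩
    · exact h1
    · exact absurd hx (hs x)
  | tail hab hbc ih =>
    rcases Relation.ReflTransGen.cases_tail h' with h1 | ⟨x, hx1, hx⟩
    · rw [h1] at hbc
      exact absurd hbc (hs' _)
    · have := hi _ _ _ hbc hx
      subst this
      exact ih hx1

theorem orbit_nocyc {σ : Type} (step : σ → σ → Prop)
    (hi : ∀ s s' t, step s t → step s' t → s = s')
    (s t : σ) (hs : ∀ x, ¬ step x s)
    (h : Relation.ReflTransGen step s t) : ¬ Relation.TransGen step t t := by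
  induction h with
  | refl =>
    intro hc
    obtain ⟨x, _, hx⟩ := Relation.TransGen.tail'_iff.1 hc
    exact hs x hx
  | tail hab hbc ih =>
    intro hc
    obtain ⟨x, hx1, hx⟩ := Relation.TransGen.tail'_iff.1 hc
    have := hi _ _ _ hbc hx
    subst this
    exact ih (Relation.TransGen.head' hbc hx1)

open Classical in
/-- Paths of an injective partial map are finite and disjoint; telescoping of `φ` along them. -/
theorem orbit {σ : Type} (step : σ → σ → Prop) (Ω St : Finset σ)
    (hf : ∀ s t t', step s t → step s t' → t = t')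
    (hi : ∀ s s' t, step s t → step s' t → s = s')
    (hΩ : ∀ s ∈ Ω, ∀ t, step s t → t ∈ Ω)
    (hSt : St ⊆ Ω) (hns : ∀ s ∈ St, ∀ t, ¬ step t s)
    (φ g : σ → ℝ) (hg : ∀ s, 0 ≤ g s) (hφ : ∀ s ∈ Ω, ∀ t, step s t → φ t - φ s ≤ g s) :
    ∃ fin : σ → σ, ∃ G : σ → ℝ,
      (∀ s ∈ St, Relation.ReflTransGen step s (fin s) ∧ ∀ t, ¬ step (fin s) t) ∧
      (∀ s ∈ St, 0 ≤ G s ∧ φ (fin s) - φ s ≤ G s) ∧
      ∑ s ∈ St, G s ≤ ∑ s ∈ Ω.filter (fun s => ∃ t, step s t), g s := by
  have hreach : ∀ s ∈ Ω, ∀ t, Relation.ReflTransGen step s t → t ∈ Ω := by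
    intro s hs t h
    induction h with
    | refl => exact hs
    | tail _ hbc ih => exact hΩ _ ih _ hbc
  have hfin : ∀ s ∈ St, ∃ t, Relation.ReflTransGen step s t ∧ ∀ t', ¬ step t t' := by
    intro s hs
    by_contra hcon
    push Not at hcon
    have hc2 : ∀ t : σ, ∃ t', Relation.ReflTransGen step s t → step t t' := by
      intro t
      by_cases ht : Relation.ReflTransGen step s t
      · obtain ⟨t', h'⟩ := hcon t ht
        exact ⟨t', fun _ => h'⟩
      · exact ⟨t, fun h => absurd h ht⟩
    choose f hfs using hc2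
    set R := Ω.filter (fun t => Relation.ReflTransGen step s t) with hR
    have hsR : s ∈ R := by
      rw [hR, mem_filter]
      exact ⟨hSt hs, Relation.ReflTransGen.refl⟩
    have himg : R.image f ⊆ R.erase s := by
      intro y hy
      obtain ⟨x, hx, rfl⟩ := mem_image.1 hy
      rw [hR, mem_filter] at hx
      have hst := hfs x hx.2
      rw [mem_erase, hR, mem_filter]
      refine ⟨?_, hΩ _ hx.1 _ hst, hx.2.tail hst⟩
      intro he
      rw [he] at hst
      exact hns s hs x hst
    have hinj : Set.InjOn f (R : Set σ) := by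
      intro x hx y hy hxy
      rw [mem_coe, hR, mem_filter] at hx hy
      have h1 := hfs x hx.2
      have h2 := hfs y hy.2
      rw [hxy] at h1
      exact hi _ _ _ h1 h2
    have hc1 := card_le_card himg
    rw [card_image_of_injOn hinj, card_erase_of_mem hsR] at hc1
    have hpos : 0 < R.card := card_pos.2 ⟨s, hsR⟩
    omega
  have hfin2 : ∀ s : σ, ∃ t, s ∈ St → Relation.ReflTransGen step s t ∧ ∀ t', ¬ step t t' := by
    intro s
    by_cases hs : s ∈ St
    · obtain ⟨t, ht⟩ := hfin s hs
      exact ⟨t, fun _ => ht⟩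
    · exact ⟨s, fun h => absurd h hs⟩
  choose fin hfin3 using hfin2
  have key : ∀ s ∈ St, ∀ t, Relation.ReflTransGen step s t → ∃ A : Finset σ,
      (∀ x ∈ A, Relation.ReflTransGen step s x ∧ Relation.ReflTransGen step x t ∧ x ≠ t ∧
        ∃ y, step x y) ∧ φ t - φ s ≤ ∑ x ∈ A, g x := by
    intro s hs t h
    induction h with
    | refl => exact ⟨∅, by simp, by simp⟩
    | @tail b c hab hbc ih =>
      obtain ⟨A, hA, hsum⟩ := ih
      have hbA : b ∉ A := fun hb => (hA b hb).2.2.1 rfl
      have hnc := orbit_nocyc step hi s b (hns s hs) hab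
      refine ⟨insert b A, ?_, ?_⟩
      · intro x hx
        rcases mem_insert.1 hx with rfl | hxA
        · refine ⟨hab, Relation.ReflTransGen.single hbc, ?_, c, hbc⟩
          intro he
          rw [← he] at hbc
          exact hnc (Relation.TransGen.single hbc)
        · obtain ⟨h1, h2, h3, h4⟩ := hA x hxA
          refine ⟨h1, h2.tail hbc, ?_, h4⟩
          intro he
          rw [he] at h2
          exact hnc (Relation.TransGen.head' hbc h2)
      · rw [sum_insert hbA]
        have := hφ b (hreach s (hSt hs) b hab) c hbc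
        linarith
  refine ⟨fin, fun s => ∑ x ∈ Ω.filter (fun x => Relation.ReflTransGen step s x ∧ ∃ y, step x y),
    g x, ?_, ?_, ?_⟩
  · intro s hs
    exact hfin3 s hs
  · intro s hs
    refine ⟨sum_nonneg (fun x _ => hg x), ?_⟩
    obtain ⟨A, hA, hsum⟩ := key s hs (fin s) (hfin3 s hs).1
    refine hsum.trans ?_
    apply sum_le_sum_of_subset_of_nonneg
    · intro x hx
      obtain ⟨h1, _, _, h4⟩ := hA x hx
      rw [mem_filter]
      exact ⟨hreach s (hSt hs) x h1, h1, h4⟩
    · intro x _ _
      exact hg x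
  · rw [← sum_biUnion]
    · apply sum_le_sum_of_subset_of_nonneg
      · intro x hx
        obtain ⟨s, hs, hx⟩ := mem_biUnion.1 hx
        rw [mem_filter] at hx ⊢
        exact ⟨hx.1, hx.2.2⟩
      · intro x _ _
        exact hg x
    · intro s hs s' hs' hne
      rw [Function.onFun, Finset.disjoint_left]
      intro x hx hx'
      rw [mem_filter] at hx hx'
      exact hne (reach_disj step hf hi s s' x (hns s hs) (hns s' hs') hx.2.1 hx'.2.1)

end Pool.Agent.UQ
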