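import Pool.Agent.UQ.Defs

set_option autoImplicit false

namespace Pool.Agent.UQ

open Finset

variable {α χ : Type} [Fintype α] [DecidableEq α] [Fintype χ] [DecidableEq χ]

theorem mem_un_inl (c : Cfg α χ) (x : χ) (E : Finset χ) (i : ℕ) :
    (Sum.inl (E, i) : (Finset χ × ℕ) ⊕ α) ∈ c.Un x ↔ E ∈ c.T ∧ x ∈ E ∧ i < E.card - 1 := by
  unfold Cfg.Un
  rw [mem_union, mem_biUnion, mem_image]
  constructor
  · rintro (⟨E', hE', h⟩ | ⟨a, -, h⟩)
    · rw [mem_image] at h
      obtain ⟨j, hj, h⟩ := h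
      rw [mem_filter] at hE'
      have h1 : (E', j) = (E, i) := Sum.inl_injective h
      obtain ⟨rfl, rfl⟩ := Prod.ext_iff.1 h1
      exact ⟨hE'.1, hE'.2, mem_range.1 hj⟩
    · exact absurd h.symm Sum.inl_ne_inr
  · rintro ⟨h1, h2, h3⟩
    left
    exact ⟨E, mem_filter.2 ⟨h1, h2⟩, mem_image.2 ⟨i, mem_range.2 h3, rfl⟩⟩

theorem mem_un_inr (c : Cfg α χ) (x : χ) (a : α) :
    (Sum.inr a : (Finset χ × ℕ) ⊕ α) ∈ c.Un x ↔ x ∈ c.N a := by
  unfold Cfg.Un
  rw [mem_union, mem_biUnion, mem_image]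
  constructor
  · rintro (⟨E', hE', h⟩ | ⟨a', ha', h⟩)
    · rw [mem_image] at h
      obtain ⟨j, hj, h⟩ := h
      exact absurd h Sum.inl_ne_inr
    · rw [mem_filter] at ha'
      have h1 : a' = a := Sum.inr_injective h
      subst h1
      exact ha'.2
  · intro h
    right
    exact ⟨a, mem_filter.2 ⟨mem_univ a, h⟩, rfl⟩

/-- At most `D` units at a vertex. -/
theorem un_card (c : Cfg α χ) (x : χ) : (c.Un x).card ≤ c.D := by
  unfold Cfg.Un
  refine (card_union_le _ _).trans ?_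
  refine le_trans ?_ (c.hdeg x)
  rw [add_comm]
  refine Nat.add_le_add card_image_le ?_
  refine card_biUnion_le.trans (sum_le_sum fun E _ => ?_)
  refine card_image_le.trans ?_
  rw [card_range]

/-- At most `D - (|v|-1)` units at `x ∈ v`, not counting those of `v`. -/
theorem un_card' (c : Cfg α χ) {v : Finset χ} (hv : v ∈ c.T) {x : χ} (hx : x ∈ v) :
    (c.Un x \ ((range (v.card - 1)).image (fun i => Sum.inl (v, i)))).card
      ≤ c.D - (v.card - 1) := by
  have hsub : (range (v.card - 1)).image (fun i => (Sum.inl (v, i) : (Finset χ × ℕ) ⊕ α)) ⊆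
      c.Un x := by
    intro η hη
    rw [mem_image] at hη
    obtain ⟨i, hi, rfl⟩ := hη
    exact (mem_un_inl c x v i).2 ⟨hv, hx, mem_range.1 hi⟩
  have hcard : ((range (v.card - 1)).image
      (fun i => (Sum.inl (v, i) : (Finset χ × ℕ) ⊕ α))).card = v.card - 1 := by
    rw [card_image_of_injective, card_range]
    intro i j hij
    have h1 : (v, i) = (v, j) := Sum.inl_injective hij
    exact (Prod.ext_iff.1 h1).2
  rw [card_sdiff_of_subset hsub, hcard]
  exact Nat.sub_le_sub_right (un_card c x) _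

end Pool.Agent.UQ
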