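import Pool.Agent.UQ.Defs
import Pool.Agent.UQ.UnCard

set_option autoImplicit false

namespace Pool.Agent.UQ

open Finset

variable {α χ : Type} [Fintype α] [DecidableEq α] [Fintype χ] [DecidableEq χ]

theorem step_fun {c : Cfg α χ} (R : Route c) (s t t' : χ × ((Finset χ × ℕ) ⊕ α))
    (h : R.Step s t) (h' : R.Step s t') : t = t' := by
  obtain ⟨a, h1, h2, h3, h4⟩ := h
  obtain ⟨a', h1', h2', h3', h4'⟩ := h'
  have e : a = a' := c.hμ (h1.symm.trans h1')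
  subst e
  have e2 : t.1 = t'.1 := Option.some_injective _ (h3.symm.trans h3')
  exact Prod.ext e2 (h4.trans h4'.symm)

theorem step_inj {c : Cfg α χ} (R : Route c) (s s' t : χ × ((Finset χ × ℕ) ⊕ α))
    (h : R.Step s t) (h' : R.Step s' t) : s = s' := by
  obtain ⟨a, h1, h2, h3, h4⟩ := h
  obtain ⟨a', h1', h2', h3', h4'⟩ := h'
  have e : a = a' := Sum.inr_injective (h4.symm.trans h4')
  subst e
  exact Prod.ext (h1.trans h1'.symm) (R.h2 a _ h2 _ h2' _ h3 h3')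

theorem step_un {c : Cfg α χ} (R : Route c) (s t : χ × ((Finset χ × ℕ) ⊕ α))
    (h : R.Step s t) : t.2 ∈ c.Un t.1 ∧ ∃ a, s.1 = c.μ a ∧ t.1 ∈ c.N a ∧ t.2 = Sum.inr a := by
  obtain ⟨a, h1, h2, h3, h4⟩ := h
  have h5 : t.1 ∈ c.N a := R.h1 a _ h2 _ h3
  refine ⟨?_, a, h1, h5, h4⟩
  rw [h4, mem_un_inr]
  exact h5

/-- A step never arrives at a T-unit. -/
theorem step_not_inl {c : Cfg α χ} (R : Route c) (s : χ × ((Finset χ × ℕ) ⊕ α)) (x : χ)
    (E : Finset χ) (i : ℕ) : ¬ R.Step s (x, Sum.inl (E, i)) := by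
  rintro ⟨a, -, -, -, h4⟩
  exact absurd h4 Sum.inl_ne_inr

/-- Reachable states of a valid state are valid; a reachable state is the start or an A-unit. -/
theorem reach_un {c : Cfg α χ} (R : Route c) (s t : χ × ((Finset χ × ℕ) ⊕ α))
    (hs : s.2 ∈ c.Un s.1) (h : R.Reach s t) : t.2 ∈ c.Un t.1 ∧ (t = s ∨ ∃ a, t.2 = Sum.inr a) := by
  unfold Route.Reach at h
  induction h with
  | refl => exact ⟨hs, Or.inl rfl⟩
  | tail _ h2 _ =>
    obtain ⟨h3, a, -, -, h4⟩ := step_un R _ _ h2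
    exact ⟨h3, Or.inr ⟨a, h4⟩⟩

/-- A valid state without successor: it lies off `μ(A)`, or its unit is missing there. -/
theorem terminal {c : Cfg α χ} (R : Route c) (s : χ × ((Finset χ × ℕ) ⊕ α))
    (hs : s.2 ∈ c.Un s.1) (h : ∀ t, ¬ R.Step s t) :
    (∀ a, s.1 ≠ c.μ a) ∨ ∃ a, s.1 = c.μ a ∧ R.nx a s.2 = none := by
  by_cases h1 : ∃ a, s.1 = c.μ a
  · obtain ⟨a, ha⟩ := h1
    right
    refine ⟨a, ha, ?_⟩
    rcases hy : R.nx a s.2 with _ | y
    · rfl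
    · exfalso
      refine h (y, Sum.inr a) ⟨a, ha, ?_, hy, rfl⟩
      rw [← ha]
      exact hs
  · left
    intro a ha
    exact h1 ⟨a, ha⟩

end Pool.Agent.UQ
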