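import Pool.Agent.UQ.Defs
import Pool.Agent.UQ.Mono

set_option autoImplicit false

namespace Pool.Agent.UQ

open Finset

variable {α χ : Type} [Fintype α] [DecidableEq α] [Fintype χ] [DecidableEq χ]

/-- Union of tight sets over a missable set is tight (submodularity of `|Γ(·) \ Y|`). -/
theorem tight_sup {Γ : α → Finset χ} {Y : Finset χ} (h : Miss Γ Y) (A A' : Finset α)
    (hA : (nb Γ A \ Y).card ≤ A.card) (hA' : (nb Γ A' \ Y).card ≤ A'.card) :
    (nb Γ (A ∪ A') \ Y).card ≤ (A ∪ A').card := by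
  have h1 : nb Γ (A ∪ A') \ Y = (nb Γ A \ Y) ∪ (nb Γ A' \ Y) := by
    rw [nb_union, union_sdiff_distrib]
  have h2 : nb Γ (A ∩ A') \ Y ⊆ (nb Γ A \ Y) ∩ (nb Γ A' \ Y) := by
    apply subset_inter
    · exact sdiff_subset_sdiff (nb_mono Γ inter_subset_left) (Subset.refl _)
    · exact sdiff_subset_sdiff (nb_mono Γ inter_subset_right) (Subset.refl _)
  have h3 := card_le_card h2
  have h4 := h (A ∩ A')
  have h5 := card_union_add_card_inter (nb Γ A \ Y) (nb Γ A' \ Y)
  have h6 := card_union_add_card_inter A A'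
  rw [h1]
  omega

/-- There is a largest tight set over a missable set. -/
theorem exists_largest_tight {Γ : α → Finset χ} {Y : Finset χ} (h : Miss Γ Y) :
    ∃ A : Finset α, (nb Γ A \ Y).card = A.card ∧
      ∀ A' : Finset α, (nb Γ A' \ Y).card ≤ A'.card → A' ⊆ A := by
  let F : Finset (Finset α) := univ.filter fun A => (nb Γ A \ Y).card ≤ A.card
  have h1 : (nb Γ (F.sup id) \ Y).card ≤ (F.sup id).card := by
    refine Finset.sup_induction (p := fun A : Finset α => (nb Γ A \ Y).card ≤ A.card) ?_ ?_ ?_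
    · simp [nb]
    · intro A hA A' hA'
      exact tight_sup h A A' hA hA'
    · intro A hA
      exact (mem_filter.1 hA).2
  refine ⟨F.sup id, le_antisymm h1 (h _), fun A' hA' => ?_⟩
  exact Finset.le_sup (f := id) (mem_filter.2 ⟨mem_univ A', hA'⟩)

/-- `Γ(At_s) \ S_s = μ(At_s)`. -/
theorem nb_At (c : Cfg α χ) (s : ℕ) : nb c.Γ (c.At s) \ c.S s = (c.At s).image c.μ := by
  obtain ⟨A, hA, hmax⟩ := exists_largest_tight (miss_B c (S_sub c s))
  have e : c.At s = A := by
    ext a
    unfold Cfg.At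
    rw [mem_filter]
    constructor
    · rintro ⟨-, A', ha, hA'⟩
      exact hmax A' hA' ha
    · intro ha
      exact ⟨mem_univ a, A, ha, hA.le⟩
  rw [e]
  refine (eq_of_subset_of_card_le (image_mu_sub c A (S_sub c s)) ?_).symm
  rw [hA, card_image_mu]

end Pool.Agent.UQ
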