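import Pool.Agent.UQ.Defs
import Pool.Agent.UQ.Mono
import Pool.Agent.UQ.Tight
import Pool.Agent.UQ.StepLem
import Pool.Agent.UQ.NeedyTouch

set_option autoImplicit false

namespace Pool.Agent.UQ

open Finset

variable {α χ : Type} [Fintype α] [DecidableEq α] [Fintype χ] [DecidableEq χ]

/-- The path of a unit of a spanned needy edge stays in `S_{|u|} ∪ μ(At_{|u|})`. -/
theorem trap {c : Cfg α χ} (R : Route c) {u : Finset χ} (hu : u ∈ c.Sp) {z : χ}
    (hz : c.tch u = {z}) (i : ℕ) (_hi : i < u.card - 1) (t : χ × ((Finset χ × ℕ) ⊕ α))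
    (h : R.Reach (z, Sum.inl (u, i)) t) :
    t.1 ∈ c.S u.card ∪ (c.At u.card).image c.μ := by
  unfold Route.Reach at h
  induction h with
  | refl =>
    have h1 := (mem_filter.1 hu).2
    apply h1
    rw [hz]
    exact mem_singleton_self z
  | @tail b d h1 h2 ih =>
    obtain ⟨-, a, h3, h4, -⟩ := step_un R _ _ h2
    rw [h3, mem_union] at ih
    rcases ih with ih | ih
    · exact absurd (S_sub c _ ih) (c.hμB a)
    · rw [mem_image] at ih
      obtain ⟨a', ha', h5⟩ := ih
      have e : a' = a := c.hμ h5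
      subst e
      rw [mem_union]
      by_cases h6 : d.1 ∈ c.S u.card
      · exact Or.inl h6
      · right
        rw [← nb_At c u.card, mem_sdiff]
        refine ⟨?_, h6⟩
        unfold nb
        rw [mem_biUnion]
        exact ⟨a', ha', c.hNΓ a' h4⟩

/-- End of such a path: in some `v ∈ B`, `|v| ≤ |u|`, or missing at some `a`. -/
theorem path_end {c : Cfg α χ} (R : Route c) {u : Finset χ} (hu : u ∈ c.Sp) {z : χ}
    (hz : c.tch u = {z}) (i : ℕ) (hi : i < u.card - 1) (t : χ × ((Finset χ × ℕ) ⊕ α))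
    (h : R.Reach (z, Sum.inl (u, i)) t) (ht : ∀ t', ¬ R.Step t t') :
    (∃ v ∈ c.B, v.card ≤ u.card ∧ t.1 ∈ v) ∨ (∃ a, t.1 = c.μ a ∧ R.nx a t.2 = none) := by
  have huT : u ∈ c.T := (mem_filter.1 (mem_filter.1 hu).1).1
  have hzu : z ∈ u := by
    have h1 : z ∈ c.tch u := by rw [hz]; exact mem_singleton_self z
    exact (mem_inter.1 h1).1
  have hval : t.2 ∈ c.Un t.1 := by
    refine (reach_un R _ _ ?_ h).1
    show (Sum.inl (u, i) : (Finset χ × ℕ) ⊕ α) ∈ c.Un z
    rw [mem_un_inl]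
    exact ⟨huT, hzu, hi⟩
  rcases terminal R t hval ht with h1 | h1
  · left
    have h2 := trap R hu hz i hi t h
    rw [mem_union] at h2
    rcases h2 with h2 | h2
    · unfold Cfg.S vs low at h2
      rw [mem_biUnion] at h2
      obtain ⟨v, hv, hx⟩ := h2
      rw [mem_filter] at hv
      exact ⟨v, hv.1, hv.2, hx⟩
    · rw [mem_image] at h2
      obtain ⟨a, -, ha⟩ := h2
      exact absurd ha.symm (h1 a)
  · exact Or.inr h1

end Pool.Agent.UQ
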