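import Pool.Agent.UQ.Defs
import Pool.Agent.UQ.Orbit
import Pool.Agent.UQ.StepLem
import Pool.Agent.UQ.Trap
import Pool.Agent.UQ.UnCard

set_option autoImplicit false

namespace Pool.Agent.UQ

open Finset

variable {α χ : Type} [Fintype α] [DecidableEq α] [Fintype χ] [DecidableEq χ]

/-- The gain at an A-unit state. -/
private noncomputable def ends_h (c : Cfg α χ) : χ × ((Finset χ × ℕ) ⊕ α) → ℝ
  | (_, Sum.inl _) => 0
  | (x, Sum.inr a) => max 0 (c.p x - c.p (c.μ a))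

private theorem ends_h_nonneg (c : Cfg α χ) (t : χ × ((Finset χ × ℕ) ⊕ α)) :
    0 ≤ ends_h c t := by
  obtain ⟨x, η⟩ := t
  cases η with
  | inl _ => exact le_refl 0
  | inr a => exact le_max_left _ _

private theorem ends_h_step {c : Cfg α χ} (R : Route c) (s t : χ × ((Finset χ × ℕ) ⊕ α))
    (h : R.Step s t) : c.p t.1 - c.p s.1 ≤ ends_h c t := by
  obtain ⟨-, a, hs, -, ht⟩ := step_un R s t h
  obtain ⟨x, η⟩ := t
  dsimp only at ht
  subst ht
  rw [hs]
  exact le_max_right _ _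

/-- The end states of all units of spanned needy edges, with the gains along the paths. -/
theorem ends {c : Cfg α χ} (R : Route c) (z : Finset χ → χ) (hz : ∀ u ∈ c.Sp, c.tch u = {z u}) :
    ∃ (fin : Finset χ → ℕ → χ × ((Finset χ × ℕ) ⊕ α)) (G : Finset χ → ℕ → ℝ),
      (∀ u ∈ c.Sp, ∀ i, i < u.card - 1 → R.Reach (z u, Sum.inl (u, i)) (fin u i) ∧
        ∀ t, ¬ R.Step (fin u i) t) ∧
      (∀ u ∈ c.Sp, ∀ i, i < u.card - 1 →
        0 ≤ G u i ∧ c.p (fin u i).1 - c.p (z u) ≤ G u i) ∧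
      ∑ u ∈ c.Sp, ∑ i ∈ range (u.card - 1), G u i
        ≤ ∑ a, ∑ x ∈ c.N a, max 0 (c.p x - c.p (c.μ a)) := by
  classical
  set Ω : Finset (χ × ((Finset χ × ℕ) ⊕ α)) :=
    univ.biUnion (fun x => (c.Un x).image (fun η => (x, η))) with hΩ
  have memΩ : ∀ s : χ × ((Finset χ × ℕ) ⊕ α), s ∈ Ω ↔ s.2 ∈ c.Un s.1 := by
    intro s
    obtain ⟨x, η⟩ := s
    simp only [hΩ, mem_biUnion, mem_univ, true_and, mem_image, Prod.mk.injEq]
    constructor
    · rintro ⟨y, η', h1, rfl, rfl⟩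
      exact h1
    · intro h
      exact ⟨x, η, h, rfl, rfl⟩
  set St : Finset (χ × ((Finset χ × ℕ) ⊕ α)) :=
    (c.Sp.sigma (fun u => range (u.card - 1))).image
      (fun q => (z q.1, Sum.inl (q.1, q.2))) with hSt
  have memSt : ∀ s, s ∈ St ↔ ∃ u ∈ c.Sp, ∃ i, i < u.card - 1 ∧ (z u, Sum.inl (u, i)) = s := by
    intro s
    simp only [hSt, mem_image, mem_sigma, mem_range]
    constructor
    · rintro ⟨⟨u, i⟩, ⟨h1, h2⟩, h3⟩
      exact ⟨u, h1, i, h2, h3⟩
    · rintro ⟨u, h1, i, h2, h3⟩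
      exact ⟨⟨u, i⟩, ⟨h1, h2⟩, h3⟩
  have hStΩ : St ⊆ Ω := by
    intro s hs
    obtain ⟨u, hu, i, hi, rfl⟩ := (memSt s).1 hs
    rw [memΩ]
    dsimp only
    rw [mem_un_inl]
    have huT : u ∈ c.T := by
      have h1 := hu
      unfold Cfg.Sp at h1
      have h2 := (mem_filter.1 h1).1
      unfold Cfg.Nd at h2
      exact (mem_filter.1 h2).1
    have hzu : z u ∈ u := by
      have h1 : z u ∈ c.tch u := by rw [hz u hu]; exact mem_singleton_self _
      unfold Cfg.tch at h1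
      exact (mem_inter.1 h1).1
    exact ⟨huT, hzu, hi⟩
  have hns : ∀ s ∈ St, ∀ t, ¬ R.Step t s := by
    intro s hs t
    obtain ⟨u, hu, i, hi, rfl⟩ := (memSt s).1 hs
    exact step_not_inl R t (z u) u i
  set g : χ × ((Finset χ × ℕ) ⊕ α) → ℝ :=
    fun s => if h : ∃ t, R.Step s t then ends_h c h.choose else 0 with hg
  have gval : ∀ s t, R.Step s t → g s = ends_h c t := by
    intro s t h
    have h1 : ∃ t, R.Step s t := ⟨t, h⟩
    have h2 : h1.choose = t := step_fun R s _ _ h1.choose_spec h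
    simp only [hg]
    rw [dif_pos h1, h2]
  have g0 : ∀ s, 0 ≤ g s := by
    intro s
    by_cases h : ∃ t, R.Step s t
    · obtain ⟨t, ht⟩ := h
      rw [gval s t ht]
      exact ends_h_nonneg c t
    · simp only [hg]
      rw [dif_neg h]
  obtain ⟨fin, G, h1, h2, h3⟩ := orbit R.Step Ω St (step_fun R) (step_inj R)
    (by
      intro s _ t ht
      rw [memΩ]
      exact (step_un R s t ht).1)
    hStΩ hns (fun s => c.p s.1) g g0
    (by
      intro s _ t ht
      rw [gval s t ht]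
      exact ends_h_step R s t ht)
  refine ⟨fun u i => fin (z u, Sum.inl (u, i)), fun u i => G (z u, Sum.inl (u, i)), ?_, ?_, ?_⟩
  · intro u hu i hi
    exact h1 _ ((memSt _).2 ⟨u, hu, i, hi, rfl⟩)
  · intro u hu i hi
    exact h2 _ ((memSt _).2 ⟨u, hu, i, hi, rfl⟩)
  · have e1 : ∑ u ∈ c.Sp, ∑ i ∈ range (u.card - 1), G (z u, Sum.inl (u, i)) = ∑ s ∈ St, G s := by
      rw [hSt, sum_image]
      · rw [sum_sigma]
      · rintro ⟨u, i⟩ _ ⟨u', i'⟩ _ h
        simp only [Prod.mk.injEq, Sum.inl.injEq] at h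
        obtain ⟨-, rfl, rfl⟩ := h
        rfl
    rw [e1]
    refine h3.trans ?_
    set Ω' := Ω.filter (fun s => ∃ t, R.Step s t) with hΩ'
    have e2 : ∑ a, ∑ x ∈ c.N a, max 0 (c.p x - c.p (c.μ a))
        = ∑ t ∈ ((univ : Finset α).sigma (fun a => c.N a)).image
            (fun q => ((q.2, Sum.inr q.1) : χ × ((Finset χ × ℕ) ⊕ α))), ends_h c t := by
      rw [sum_image]
      · rw [sum_sigma]
        rfl
      · rintro ⟨a, x⟩ _ ⟨a', x'⟩ _ h
        simp only [Prod.mk.injEq, Sum.inr.injEq] at h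
        obtain ⟨rfl, rfl⟩ := h
        rfl
    rw [e2]
    set sc : χ × ((Finset χ × ℕ) ⊕ α) → χ × ((Finset χ × ℕ) ⊕ α) :=
      fun s => if h : ∃ t, R.Step s t then h.choose else s with hsc
    have scs : ∀ s ∈ Ω', R.Step s (sc s) := by
      intro s hs
      have h := (mem_filter.1 hs).2
      simp only [hsc]
      rw [dif_pos h]
      exact h.choose_spec
    have e3 : ∑ s ∈ Ω', g s = ∑ s ∈ Ω', ends_h c (sc s) :=
      sum_congr rfl (fun s hs => gval s _ (scs s hs))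
    have e4 : ∑ s ∈ Ω', ends_h c (sc s) = ∑ t ∈ Ω'.image sc, ends_h c t := by
      rw [sum_image]
      intro s hs s' hs' h
      have h5 := scs s hs
      have h6 := scs s' hs'
      rw [h] at h5
      exact step_inj R s s' _ h5 h6
    have e5 : ∑ s ∈ Ω.filter (fun s => ∃ t, R.Step s t), g s = ∑ s ∈ Ω', g s := rfl
    rw [e3, e4]
    refine sum_le_sum_of_subset_of_nonneg ?_ (fun t _ _ => ends_h_nonneg c t)
    intro t ht
    obtain ⟨s, hs, rfl⟩ := mem_image.1 ht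
    obtain ⟨-, a, -, hN, hr⟩ := step_un R s _ (scs s hs)
    refine mem_image.2 ⟨⟨a, (sc s).1⟩, ?_, ?_⟩
    · exact mem_sigma.2 ⟨mem_univ a, hN⟩
    · exact Prod.ext rfl hr.symm

/-- Units reaching a common state coincide. -/
theorem unit_unique {c : Cfg α χ} (R : Route c) (x y : χ) (u u' : Finset χ) (i i' : ℕ)
    (t : χ × ((Finset χ × ℕ) ⊕ α)) (h : R.Reach (x, Sum.inl (u, i)) t)
    (h' : R.Reach (y, Sum.inl (u', i')) t) : x = y ∧ u = u' ∧ i = i' := by
  have h1 := reach_disj R.Step (step_fun R) (step_inj R) (x, Sum.inl (u, i))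
    (y, Sum.inl (u', i')) t (fun s => step_not_inl R s x u i)
    (fun s => step_not_inl R s y u' i') h h'
  simp only [Prod.mk.injEq, Sum.inl.injEq] at h1
  exact ⟨h1.1, h1.2.1, h1.2.2⟩

end Pool.Agent.UQ
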