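import Pool.Agent.UQ.Defs
import Pool.Agent.UQ.Mono
import Pool.Agent.UQ.Tight

set_option autoImplicit false

namespace Pool.Agent.UQ

open Finset

variable {α χ : Type} [Fintype α] [DecidableEq α] [Fintype χ] [DecidableEq χ]

/-- Bottleneck of a parallel class (section 6, (C1)). -/
theorem bottleneck (c : Cfg α χ) {v : Finset χ} (hv : v ∈ c.B) {z0 : χ}
    (h0 : NL c.Γ (vs c.B \ v) z0) :
    ∃ (A : Finset α) (w : χ), nb c.Γ A \ (vs c.B \ v) ⊆ insert w (A.image c.μ) ∧
      ∀ z', z' ≠ z0 → NL c.Γ (vs c.B \ v) z' → ¬ Miss c.Γ ((vs c.B \ v) ∪ {z0, z'}) →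
        z' ∈ nb c.Γ A ∧ z0 ∈ nb c.Γ A := by
  have _ := hv
  obtain ⟨h0n, h0m⟩ := h0
  obtain ⟨A, hA, hmax⟩ := exists_largest_tight h0m
  set Y := vs c.B \ v with hY
  -- images of `μ`
  have hμsub : A.image c.μ ⊆ nb c.Γ A \ Y := by
    intro x hx
    obtain ⟨a, ha, rfl⟩ := mem_image.1 hx
    refine mem_sdiff.2 ⟨mem_biUnion.2 ⟨a, ha, c.hμΓ a⟩, ?_⟩
    rw [hY]
    intro h
    exact c.hμB a (mem_sdiff.1 h).1
  have hμcard : (A.image c.μ).card = A.card := card_image_of_injective A c.hμ
  have hle : (nb c.Γ A \ Y).card ≤ A.card + 1 := by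
    have h1 : nb c.Γ A \ Y ⊆ insert z0 (nb c.Γ A \ (Y ∪ {z0})) := by
      intro x hx
      rw [mem_sdiff] at hx
      by_cases hxz : x = z0
      · rw [hxz]
        exact mem_insert_self _ _
      · refine mem_insert_of_mem (mem_sdiff.2 ⟨hx.1, ?_⟩)
        rw [mem_union, mem_singleton]
        exact fun h => h.elim hx.2 hxz
    have h2 := (card_le_card h1).trans (card_insert_le _ _)
    omega
  have hrest : ((nb c.Γ A \ Y) \ A.image c.μ).card ≤ 1 := by
    have h1 := card_sdiff_of_subset hμsub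
    omega
  obtain ⟨w, hw⟩ : ∃ w, (nb c.Γ A \ Y) \ A.image c.μ ⊆ {w} := by
    rcases eq_empty_or_nonempty ((nb c.Γ A \ Y) \ A.image c.μ) with h | h
    · exact ⟨z0, by rw [h]; exact empty_subset _⟩
    · obtain ⟨w, hw⟩ := h
      refine ⟨w, fun x hx => ?_⟩
      rw [mem_singleton]
      exact card_le_one.1 hrest x hx w hw
  refine ⟨A, w, ?_, ?_⟩
  · intro x hx
    by_cases hxm : x ∈ A.image c.μ
    · exact mem_insert_of_mem hxm
    · have := hw (mem_sdiff.2 ⟨hx, hxm⟩)
      rw [mem_singleton] at this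
      rw [this]
      exact mem_insert_self _ _
  · intro z' hz' hNL hMiss
    obtain ⟨hn', hm'⟩ := hNL
    unfold Miss at hMiss
    push Not at hMiss
    obtain ⟨A', hA'⟩ := hMiss
    have h1 : nb c.Γ A' \ (Y ∪ {z0}) ⊆ insert z' (nb c.Γ A' \ (Y ∪ {z0, z'})) := by
      intro x hx
      rw [mem_sdiff, mem_union, mem_singleton] at hx
      by_cases hxz : x = z'
      · rw [hxz]
        exact mem_insert_self _ _
      · refine mem_insert_of_mem (mem_sdiff.2 ⟨hx.1, ?_⟩)
        rw [mem_union, mem_insert, mem_singleton]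
        rintro (h | h | h)
        · exact hx.2 (Or.inl h)
        · exact hx.2 (Or.inr h)
        · exact hxz h
    have h2 : (nb c.Γ A' \ (Y ∪ {z0})).card ≤ A'.card := by
      have := (card_le_card h1).trans (card_insert_le _ _)
      omega
    have hsub : A' ⊆ A := hmax A' h2
    have hnb : nb c.Γ A' ⊆ nb c.Γ A := biUnion_subset_biUnion_of_subset_left _ hsub
    constructor
    · by_contra hcon
      have h3 : z' ∉ nb c.Γ A' := fun h => hcon (hnb h)
      have h4 : nb c.Γ A' \ (Y ∪ {z0}) ⊆ nb c.Γ A' \ (Y ∪ {z0, z'}) := by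
        intro x hx
        have hx1 := hx
        rw [mem_sdiff] at hx1
        rcases mem_insert.1 (h1 hx) with h | h
        · exact absurd (h ▸ hx1.1) h3
        · exact h
      have h5 := card_le_card h4
      have h6 := h0m A'
      omega
    · by_contra hcon
      have h3 : z0 ∉ nb c.Γ A' := fun h => hcon (hnb h)
      have h4 : nb c.Γ A' \ (Y ∪ {z'}) ⊆ nb c.Γ A' \ (Y ∪ {z0, z'}) := by
        intro x hx
        rw [mem_sdiff, mem_union, mem_singleton] at hx
        refine mem_sdiff.2 ⟨hx.1, ?_⟩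
        rw [mem_union, mem_insert, mem_singleton]
        rintro (h | h | h)
        · exact hx.2 (Or.inl h)
        · exact h3 (h ▸ hx.1)
        · exact hx.2 (Or.inr h)
      have h5 := card_le_card h4
      have h6 := hm' A'
      omega

end Pool.Agent.UQ
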