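import Pool.Agent.UQ.Defs
import Pool.Agent.UQ.Mono
import Pool.Agent.UQ.StepLem

set_option autoImplicit false

namespace Pool.Agent.UQ

open Finset

variable {α χ : Type} [Fintype α] [DecidableEq α] [Fintype χ] [DecidableEq χ]

theorem visit_vs (c : Cfg α χ) {v : Finset χ} (hv : v ∈ c.B) {x : χ} (hx : x ∈ v) :
    x ∈ vs c.B := by
  unfold vs
  rw [mem_biUnion]
  exact ⟨v, hv, hx⟩

/-- A path cannot leave `S \ v`. -/
theorem visit_stuck {c : Cfg α χ} (R : Route c) (v : Finset χ)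
    (s t : χ × ((Finset χ × ℕ) ⊕ α)) (hs : s.1 ∈ vs c.B \ v) (h : R.Reach s t) : t = s := by
  unfold Route.Reach at h
  induction h with
  | refl => rfl
  | tail _ h2 ih =>
    subst ih
    obtain ⟨-, a, h3, -, -⟩ := step_un R _ _ h2
    rw [h3] at hs
    exact absurd (mem_sdiff.1 hs).1 (c.hμB a)

/-- All states which are reached without visiting `w` lie in `μ(A)` or in `S \ v`. -/
theorem visit_key {c : Cfg α χ} (R : Route c) {v : Finset χ} (A : Finset α) (P : χ → Prop)
    (hA : ∀ x ∈ nb c.Γ A \ (vs c.B \ v), P x → x ∈ A.image c.μ)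
    (s t : χ × ((Finset χ × ℕ) ⊕ α)) (hs : s.1 ∈ nb c.Γ A \ (vs c.B \ v)) (h : R.Reach s t)
    (hP : ∀ t', R.Reach s t' → P t'.1) : t.1 ∈ A.image c.μ ∨ t.1 ∈ vs c.B \ v := by
  unfold Route.Reach at h
  induction h with
  | refl => exact Or.inl (hA _ hs (hP _ Relation.ReflTransGen.refl))
  | @tail b d h1 h2 ih =>
    obtain ⟨-, a, h3, h4, -⟩ := step_un R _ _ h2
    rcases ih with ih | ih
    · rw [mem_image] at ih
      obtain ⟨a', ha', h5⟩ := ih
      have e : a' = a := c.hμ (h5.trans h3)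
      subst e
      by_cases h6 : d.1 ∈ vs c.B \ v
      · exact Or.inr h6
      · left
        refine hA _ ?_ (hP _ (Relation.ReflTransGen.tail h1 h2))
        rw [mem_sdiff]
        refine ⟨?_, h6⟩
        unfold nb
        rw [mem_biUnion]
        exact ⟨a', ha', c.hNΓ a' h4⟩
    · rw [h3] at ih
      exact absurd (mem_sdiff.1 ih).1 (c.hμB a)

theorem visit_end (c : Cfg α χ) {v : Finset χ} (hv : v ∈ c.B) (A : Finset α) {x : χ}
    (hx : x ∈ v) (h : x ∈ A.image c.μ ∨ x ∈ vs c.B \ v) : False := by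
  rcases h with h1 | h1
  · rw [mem_image] at h1
    obtain ⟨a, -, ha⟩ := h1
    apply c.hμB a
    rw [ha]
    exact visit_vs c hv hx
  · exact (mem_sdiff.1 h1).2 hx

/-- A path that starts in `Γ(A) \ (S \ v) ⊆ μ(A) ∪ {w}` and ends in `v` visits `w`. -/
theorem visit {c : Cfg α χ} (R : Route c) {v : Finset χ} (hv : v ∈ c.B) (A : Finset α) (w : χ)
    (hA : nb c.Γ A \ (vs c.B \ v) ⊆ insert w (A.image c.μ))
    (s t : χ × ((Finset χ × ℕ) ⊕ α)) (hs : s.1 ∈ nb c.Γ A \ (vs c.B \ v)) (h : R.Reach s t)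
    (ht : t.1 ∈ v) : ∃ t', R.Reach s t' ∧ t'.1 = w := by
  by_contra hcon
  push Not at hcon
  refine visit_end c hv A ht (visit_key R A (fun x => x ≠ w) ?_ s t hs h hcon)
  intro x hx hxw
  have h1 := hA hx
  rw [mem_insert] at h1
  rcases h1 with h1 | h1
  · exact absurd h1 hxw
  · exact h1

/-- If a path from `z` reaches `v ∈ B` then `z` is a nonloop over `S \ v` (R4). -/
theorem reach_NL {c : Cfg α χ} (R : Route c) {v : Finset χ} (hv : v ∈ c.B)
    (s t : χ × ((Finset χ × ℕ) ⊕ α)) (h : R.Reach s t) (ht : t.1 ∈ v) :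
    NL c.Γ (vs c.B \ v) s.1 := by
  constructor
  · intro hs
    have e := visit_stuck R v s t hs h
    rw [e] at ht
    exact (mem_sdiff.1 hs).2 ht
  · intro A
    by_contra hcon
    push Not at hcon
    have hm : A.card ≤ (nb c.Γ A \ (vs c.B \ v)).card := miss_B c (sdiff_subset) A
    have e2 : nb c.Γ A \ ((vs c.B \ v) ∪ {s.1}) = (nb c.Γ A \ (vs c.B \ v)).erase s.1 := by
      ext x
      simp only [mem_sdiff, mem_union, mem_singleton, mem_erase, not_or]
      constructor
      · rintro ⟨h1, h2, h3⟩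
        exact ⟨h3, h1, h2⟩
      · rintro ⟨h1, h2, h3⟩
        exact ⟨h2, h3, h1⟩
    rw [e2] at hcon
    have hs1 : s.1 ∈ nb c.Γ A \ (vs c.B \ v) := by
      by_contra h1
      rw [erase_eq_of_notMem h1] at hcon
      omega
    rw [card_erase_of_mem hs1] at hcon
    have hpos : 0 < (nb c.Γ A \ (vs c.B \ v)).card := card_pos.2 ⟨_, hs1⟩
    have himg : A.image c.μ = nb c.Γ A \ (vs c.B \ v) :=
      eq_of_subset_of_card_le (image_mu_sub c A sdiff_subset) (by rw [card_image_mu]; omega)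
    refine visit_end c hv A ht (visit_key R A (fun _ => True) ?_ s t hs1 h fun _ _ => trivial)
    intro x hx _
    rw [himg]
    exact hx

end Pool.Agent.UQ
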