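import Pool.Agent.UQ.Defs
import Pool.Agent.UQ.Ends
import Pool.Agent.UQ.Bottle
import Pool.Agent.UQ.Visit
import Pool.Agent.UQ.UnCard

set_option autoImplicit false

namespace Pool.Agent.UQ

open Finset

variable {α χ : Type} [Fintype α] [DecidableEq α] [Fintype χ] [DecidableEq χ]

open Classical in
/-- (C1): at most `D` units of one class end in `v`. -/
theorem flow_c1 {c : Cfg α χ} (R : Route c) (z : Finset χ → χ) (hz : ∀ u ∈ c.Sp, c.tch u = {z u})
    (fin : Finset χ → ℕ → χ × ((Finset χ × ℕ) ⊕ α))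
    (hfin : ∀ u ∈ c.Sp, ∀ i, i < u.card - 1 → R.Reach (z u, Sum.inl (u, i)) (fin u i) ∧
        ∀ t, ¬ R.Step (fin u i) t)
    {v : Finset χ} (hv : v ∈ c.B) (z0 : χ) (h0 : NL c.Γ (vs c.B \ v) z0) :
    ∑ u ∈ c.Sp.filter (fun u => Par c.Γ (vs c.B \ v) z0 (z u)),
      ((range (u.card - 1)).filter (fun i => (fin u i).1 ∈ v)).card ≤ c.D := by
  set Y : Finset χ := vs c.B \ v with hY
  rw [← Finset.card_sigma]
  obtain ⟨F, hF⟩ : ∃ F : Finset (Σ _ : Finset χ, ℕ), F =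
    (c.Sp.filter (fun u => Par c.Γ Y z0 (z u))).sigma
      (fun u => (range (u.card - 1)).filter (fun i => (fin u i).1 ∈ v)) := ⟨_, rfl⟩
  rw [← hF]
  have hmem : ∀ x ∈ F, x.1 ∈ c.Sp ∧ Par c.Γ Y z0 (z x.1) ∧ x.2 < x.1.card - 1 ∧
      (fin x.1 x.2).1 ∈ v := by
    intro x hx
    rw [hF, Finset.mem_sigma] at hx
    obtain ⟨h1, h2⟩ := hx
    have h3 := Finset.mem_filter.1 h1
    have h4 := Finset.mem_filter.1 h2
    exact ⟨h3.1, h3.2, Finset.mem_range.1 h4.1, h4.2⟩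
  have hNL : ∀ x ∈ F, NL c.Γ Y (z x.1) := by
    intro x hx
    obtain ⟨h1, _, h3, h4⟩ := hmem x hx
    exact reach_NL R hv _ _ (hfin x.1 h1 x.2 h3).1 h4
  have hzu : ∀ u ∈ c.Sp, z u ∈ u ∧ u ∈ c.T := by
    intro u hu
    have h1 : z u ∈ c.tch u := by
      rw [hz u hu]
      exact Finset.mem_singleton_self _
    have h2 : u ∈ c.Nd := (Finset.mem_filter.1 hu).1
    have h3 : u ∈ c.T := (Finset.mem_filter.1 h2).1
    exact ⟨(Finset.mem_inter.1 h1).1, h3⟩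
  have hun : ∀ x ∈ F, (Sum.inl (x.1, x.2) : (Finset χ × ℕ) ⊕ α) ∈ c.Un (z x.1) := by
    intro x hx
    obtain ⟨h1, _, h3, _⟩ := hmem x hx
    rw [mem_un_inl]
    exact ⟨(hzu x.1 h1).2, (hzu x.1 h1).1, h3⟩
  by_cases hall : ∀ x ∈ F, z x.1 = z0
  · have hinj : Set.InjOn (fun x : (Σ _ : Finset χ, ℕ) =>
        (Sum.inl (x.1, x.2) : (Finset χ × ℕ) ⊕ α)) (F : Set (Σ _ : Finset χ, ℕ)) := by
      rintro ⟨u, i⟩ _ ⟨u', i'⟩ _ h
      simp only [Sum.inl.injEq, Prod.mk.injEq] at h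
      obtain ⟨h5, h6⟩ := h
      subst h5
      subst h6
      rfl
    have hmaps : ∀ x ∈ F, (fun x : (Σ _ : Finset χ, ℕ) =>
        (Sum.inl (x.1, x.2) : (Finset χ × ℕ) ⊕ α)) x ∈ c.Un z0 := by
      intro x hx
      have h1 := hun x hx
      rw [hall x hx] at h1
      exact h1
    exact (Finset.card_le_card_of_injOn _ hmaps hinj).trans (un_card c z0)
  · push Not at hall
    obtain ⟨x1, hx1, hne1⟩ := hall
    obtain ⟨A, w, hA, hbot⟩ := bottleneck c hv h0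
    have hkey : ∀ x ∈ F, z x.1 ≠ z0 → z x.1 ∈ nb c.Γ A ∧ z0 ∈ nb c.Γ A := by
      intro x hx hne
      obtain ⟨_, hpar, _, _⟩ := hmem x hx
      rcases hpar with h | h
      · exact absurd h.symm hne
      · exact hbot (z x.1) hne (hNL x hx) h
    have hz0A : z0 ∈ nb c.Γ A := (hkey x1 hx1 hne1).2
    have hin : ∀ x ∈ F, z x.1 ∈ nb c.Γ A \ (vs c.B \ v) := by
      intro x hx
      rw [Finset.mem_sdiff]
      refine ⟨?_, (hNL x hx).1⟩
      by_cases h : z x.1 = z0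
      · rw [h]
        exact hz0A
      · exact (hkey x hx h).1
    have hvis : ∀ x : (Σ _ : Finset χ, ℕ), ∃ t' : χ × ((Finset χ × ℕ) ⊕ α), x ∈ F →
        R.Reach (z x.1, Sum.inl (x.1, x.2)) t' ∧ t'.1 = w := by
      intro x
      by_cases hx : x ∈ F
      · obtain ⟨h1, _, h3, h4⟩ := hmem x hx
        obtain ⟨t', ht1, ht2⟩ := visit R hv A w hA (z x.1, Sum.inl (x.1, x.2)) (fin x.1 x.2)
          (hin x hx) (hfin x.1 h1 x.2 h3).1 h4
        exact ⟨t', fun _ => ⟨ht1, ht2⟩⟩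
      · exact ⟨fin x.1 x.2, fun h => absurd h hx⟩
    choose f hf using hvis
    have hmaps : ∀ x ∈ F, (fun x => (f x).2) x ∈ c.Un w := by
      intro x hx
      obtain ⟨h1, h2⟩ := hf x hx
      have h3 := (reach_un R (z x.1, Sum.inl (x.1, x.2)) (f x) (hun x hx) h1).1
      rw [h2] at h3
      exact h3
    have hinj : Set.InjOn (fun x => (f x).2) (F : Set (Σ _ : Finset χ, ℕ)) := by
      intro x hx y hy h
      have hx' : x ∈ F := Finset.mem_coe.1 hx
      have hy' : y ∈ F := Finset.mem_coe.1 hy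
      have h1 := hf x hx'
      have h3 := hf y hy'
      have h5 : f x = f y := Prod.ext (h1.2.trans h3.2.symm) h
      have h6 := h1.1
      rw [h5] at h6
      have h7 := unit_unique R _ _ _ _ _ _ _ h6 h3.1
      exact Sigma.ext h7.2.1 (heq_of_eq h7.2.2)
    exact (Finset.card_le_card_of_injOn _ hmaps hinj).trans (un_card c w)

end Pool.Agent.UQ
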