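import Pool.Agent.UQ.Defs
import Pool.Agent.UQ.UnCard

set_option autoImplicit false

namespace Pool.Agent.UQ

open Finset

variable {α χ : Type} [Fintype α] [DecidableEq α] [Fintype χ] [DecidableEq χ]

omit [Fintype χ] [DecidableEq χ] in
/-- a maximal assignment -/
theorem route_one {β : Type} [DecidableEq β] (P : Finset β) (Q : Finset χ) (D : ℕ)
    (hP : P.card ≤ D) (hQ : Q.card ≤ D) : ∃ f : β → Option χ,
      (∀ η ∈ P, ∀ y, f η = some y → y ∈ Q) ∧
      (∀ η ∈ P, ∀ η' ∈ P, ∀ y, f η = some y → f η' = some y → η = η') ∧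
      (P.filter (fun η => f η = none)).card + Q.card ≤ D := by
  classical
  rcases le_total P.card Q.card with h | h
  · obtain ⟨g, hg1, hg2⟩ := exists_subset_card_eq h
    obtain ⟨e⟩ : Nonempty (P ≃ g) := ⟨Finset.equivOfCardEq (by rw [hg2])⟩
    refine ⟨fun η => if hη : η ∈ P then some (e ⟨η, hη⟩ : χ) else none, ?_, ?_, ?_⟩
    · intro η hη y hy
      beta_reduce at hy
      rw [dif_pos hη] at hy
      rw [← Option.some_injective _ hy]
      exact hg1 (e ⟨η, hη⟩).2
    · intro η hη η' hη' y hy hy'
      beta_reduce at hy hy'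
      rw [dif_pos hη] at hy
      rw [dif_pos hη'] at hy'
      have h1 : (e ⟨η, hη⟩ : χ) = (e ⟨η', hη'⟩ : χ) :=
        (Option.some_injective _ hy).trans (Option.some_injective _ hy').symm
      have h2 := e.injective (Subtype.ext h1)
      exact congrArg Subtype.val h2
    · have h0 : P.filter (fun η => (if hη : η ∈ P then some (e ⟨η, hη⟩ : χ) else none) = none) = ∅ := by
        apply filter_eq_empty_iff.2
        intro η hη
        rw [dif_pos hη]
        exact Option.some_ne_none _
      rw [h0, card_empty, zero_add]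
      exact hQ
  · obtain ⟨g, hg1, hg2⟩ := exists_subset_card_eq h
    obtain ⟨e⟩ : Nonempty (g ≃ Q) := ⟨Finset.equivOfCardEq hg2⟩
    refine ⟨fun η => if hη : η ∈ g then some (e ⟨η, hη⟩ : χ) else none, ?_, ?_, ?_⟩
    · intro η _ y hy
      beta_reduce at hy
      by_cases hη : η ∈ g
      · rw [dif_pos hη] at hy
        rw [← Option.some_injective _ hy]
        exact (e ⟨η, hη⟩).2
      · rw [dif_neg hη] at hy
        exact absurd hy.symm (Option.some_ne_none _)
    · intro η _ η' _ y hy hy'
      beta_reduce at hy hy'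
      by_cases hη : η ∈ g
      · by_cases hη' : η' ∈ g
        · rw [dif_pos hη] at hy
          rw [dif_pos hη'] at hy'
          have h1 : (e ⟨η, hη⟩ : χ) = (e ⟨η', hη'⟩ : χ) :=
            (Option.some_injective _ hy).trans (Option.some_injective _ hy').symm
          have h2 := e.injective (Subtype.ext h1)
          exact congrArg Subtype.val h2
        · rw [dif_neg hη'] at hy'
          exact absurd hy'.symm (Option.some_ne_none _)
      · rw [dif_neg hη] at hy
        exact absurd hy.symm (Option.some_ne_none _)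
    · have h0 : P.filter (fun η => (if hη : η ∈ g then some (e ⟨η, hη⟩ : χ) else none) = none) =
          P \ g := by
        ext η
        rw [mem_filter, mem_sdiff]
        by_cases hη : η ∈ g
        · rw [dif_pos hη]
          simp [hη]
        · rw [dif_neg hη]
          simp [hη]
      rw [h0, card_sdiff_of_subset hg1, hg2]
      omega

/-- Assignments exist: `|Un (μ a)| ≤ D` and `|N a| ≤ D`. -/
theorem route_exists (c : Cfg α χ) : Nonempty (Route c) := by
  classical
  have h : ∀ a : α, ∃ f : ((Finset χ × ℕ) ⊕ α) → Option χ,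
      (∀ η ∈ c.Un (c.μ a), ∀ y, f η = some y → y ∈ c.N a) ∧
      (∀ η ∈ c.Un (c.μ a), ∀ η' ∈ c.Un (c.μ a), ∀ y, f η = some y → f η' = some y → η = η') ∧
      ((c.Un (c.μ a)).filter (fun η => f η = none)).card + (c.N a).card ≤ c.D :=
    fun a => route_one _ _ _ (un_card c (c.μ a)) (c.hN a)
  choose nx h1 h2 h3 using h
  exact ⟨⟨nx, h1, h2, h3⟩⟩

end Pool.Agent.UQ
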