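import Pool.Agent.UQ.Defs
import Pool.Agent.UQ.Mono
import Pool.Agent.UQ.PFacts
import Pool.Agent.UQ.StepLem
import Pool.Agent.UQ.Ends
import Pool.Agent.UQ.Trap
import Pool.Agent.UQ.FlowC1
import Pool.Agent.UQ.Visit
import Pool.Agent.UQ.RouteEx
import Pool.Agent.UQ.UnCard
import Pool.Agent.UQ.NeedyTouch

set_option autoImplicit false

namespace Pool.Agent.UQ

open Finset

variable {α χ : Type} [Fintype α] [DecidableEq α] [Fintype χ] [DecidableEq χ]

/-- the small vertices of the spanned edges -/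
theorem flowex_z [Nonempty χ] (c : Cfg α χ) :
    ∃ z : Finset χ → χ, ∀ u ∈ c.Sp, c.tch u = {z u} := by
  classical
  have h : ∀ u : Finset χ, ∃ z : χ, u ∈ c.Sp → c.tch u = {z} := by
    intro u
    by_cases hu : u ∈ c.Sp
    · obtain ⟨z, -, -, hz, -⟩ := needy_touch c (mem_filter.1 hu).1
      exact ⟨z, fun _ => hz⟩
    · exact ⟨Classical.arbitrary χ, fun h => absurd h hu⟩
  choose z hz using h
  exact ⟨z, hz⟩

theorem flowex_Sp {c : Cfg α χ} {u : Finset χ} (hu : u ∈ c.Sp) : u ∈ c.T ∧ u ∉ c.B := by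
  have h1 := (mem_filter.1 hu).1
  have h2 := mem_filter.1 h1
  exact ⟨h2.1, h2.2.1⟩

theorem flowex_mem {c : Cfg α χ} {u : Finset χ} {z : χ} (hz : c.tch u = {z}) : z ∈ u := by
  have h1 : z ∈ c.tch u := by rw [hz]; exact mem_singleton_self z
  exact (mem_inter.1 h1).1

/-- the blocks of `B` are disjoint -/
theorem flowex_dis (c : Cfg α χ) {v v' : Finset χ} (hv : v ∈ c.B) (hv' : v' ∈ c.B) {x : χ}
    (hx : x ∈ v) (hx' : x ∈ v') : v = v' := by
  by_contra hne
  exact (Finset.disjoint_left.1 (c.hB v hv v' hv' hne)) hx hx'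

theorem flowex_mu (c : Cfg α χ) {v : Finset χ} (hv : v ∈ c.B) (a : α) : c.μ a ∉ v := by
  intro h
  apply c.hμB a
  unfold vs
  rw [mem_biUnion]
  exact ⟨v, hv, h⟩

section

variable {c : Cfg α χ} (R : Route c) (z : Finset χ → χ) (hz : ∀ u ∈ c.Sp, c.tch u = {z u})
  (fin : Finset χ → ℕ → χ × ((Finset χ × ℕ) ⊕ α))
  (hfin : ∀ u ∈ c.Sp, ∀ i, i < u.card - 1 → R.Reach (z u, Sum.inl (u, i)) (fin u i) ∧
    ∀ t, ¬ R.Step (fin u i) t)

include hz hfin

/-- the final state is valid; its unit is the starting unit or an `A`-unit -/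
theorem flowex_valid {u : Finset χ} (hu : u ∈ c.Sp) {i : ℕ} (hi : i < u.card - 1) :
    (fin u i).2 ∈ c.Un (fin u i).1 ∧
      (fin u i = (z u, Sum.inl (u, i)) ∨ ∃ a, (fin u i).2 = Sum.inr a) := by
  refine reach_un R _ _ ?_ (hfin u hu i hi).1
  show (Sum.inl (u, i) : (Finset χ × ℕ) ⊕ α) ∈ c.Un (z u)
  rw [mem_un_inl]
  exact ⟨(flowex_Sp hu).1, flowex_mem (hz u hu), hi⟩

/-- the two kinds of ends -/
theorem flowex_end {u : Finset χ} (hu : u ∈ c.Sp) {i : ℕ} (hi : i < u.card - 1) :
    (∃ v ∈ c.B, v.card ≤ u.card ∧ (fin u i).1 ∈ v) ∨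
      (∃ a, (fin u i).1 = c.μ a ∧ R.nx a (fin u i).2 = none) :=
  path_end R hu (hz u hu) i hi _ (hfin u hu i hi).1 (hfin u hu i hi).2

omit hz in
theorem flowex_inj {u u' : Finset χ} (hu : u ∈ c.Sp) (hu' : u' ∈ c.Sp) {i i' : ℕ}
    (hi : i < u.card - 1) (hi' : i' < u'.card - 1) (h : fin u i = fin u' i') : u = u' ∧ i = i' := by
  have h1 := (hfin u hu i hi).1
  have h2 := (hfin u' hu' i' hi').1
  rw [← h] at h2
  exact (unit_unique R _ _ _ _ _ _ _ h1 h2).2

/-- a function summed over the ends -/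
theorem flowex_sum {M : Type} [AddCommMonoid M] {u : Finset χ} (hu : u ∈ c.Sp) (f : χ → M) :
    ∑ i ∈ range (u.card - 1), f (fin u i).1 =
      ∑ v ∈ c.B, ∑ i ∈ (range (u.card - 1)).filter (fun i => (fin u i).1 ∈ v), f (fin u i).1 +
      ∑ a : α, ∑ i ∈ (range (u.card - 1)).filter (fun i => (fin u i).1 = c.μ a),
        f (fin u i).1 := by
  have h1 : ∀ i ∈ range (u.card - 1), f (fin u i).1 =
      (∑ v ∈ c.B, if (fin u i).1 ∈ v then f (fin u i).1 else 0) +
        ∑ a : α, if (fin u i).1 = c.μ a then f (fin u i).1 else 0 := by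
    intro i hi
    rw [mem_range] at hi
    rcases flowex_end R z hz fin hfin hu hi with ⟨v, hv, -, hx⟩ | ⟨a, ha, -⟩
    · have e1 : (∑ v ∈ c.B, if (fin u i).1 ∈ v then f (fin u i).1 else 0) = f (fin u i).1 := by
        rw [sum_eq_single_of_mem v hv]
        · rw [if_pos hx]
        · intro v' hv' hne
          rw [if_neg]
          intro hx'
          exact hne (flowex_dis c hv' hv hx' hx)
      have e2 : (∑ a : α, if (fin u i).1 = c.μ a then f (fin u i).1 else 0) = 0 := by
        refine sum_eq_zero fun a _ => ?_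
        rw [if_neg]
        intro h
        rw [h] at hx
        exact flowex_mu c hv a hx
      rw [e1, e2, add_zero]
    · have e1 : (∑ v ∈ c.B, if (fin u i).1 ∈ v then f (fin u i).1 else 0) = 0 := by
        refine sum_eq_zero fun v hv => ?_
        rw [if_neg]
        rw [ha]
        exact flowex_mu c hv a
      have e2 : (∑ a : α, if (fin u i).1 = c.μ a then f (fin u i).1 else 0) = f (fin u i).1 := by
        rw [sum_eq_single_of_mem a (mem_univ a)]
        · rw [if_pos ha]
        · intro a' _ hne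
          rw [if_neg]
          intro h
          exact hne (c.hμ (h.symm.trans ha))
      rw [e1, e2, zero_add]
  rw [sum_congr rfl h1, sum_add_distrib, sum_comm, sum_comm (s := range (u.card - 1)) (t := univ)]
  simp only [sum_filter]

theorem flowex_hr {u : Finset χ} (hu : u ∈ c.Sp) :
    ∑ v ∈ c.B, ((range (u.card - 1)).filter (fun i => (fin u i).1 ∈ v)).card +
      ∑ a : α, ((range (u.card - 1)).filter (fun i => (fin u i).1 = c.μ a)).card = u.card - 1 := by
  have h := flowex_sum R z hz fin hfin hu (fun _ => (1 : ℕ))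
  simp only [sum_const, smul_eq_mul, mul_one, card_range] at h
  exact h.symm

theorem flowex_hm (a : α) :
    ∑ u ∈ c.Sp, ((range (u.card - 1)).filter (fun i => (fin u i).1 = c.μ a)).card +
      (c.N a).card ≤ c.D := by
  refine le_trans (Nat.add_le_add_right ?_ _) (R.h3 a)
  rw [← card_sigma]
  refine card_le_card_of_injOn (fun s => (fin s.1 s.2).2) ?_ ?_
  · rintro ⟨u, i⟩ hs
    simp only [coe_sigma, Set.mem_sigma_iff, mem_coe, mem_filter, mem_range] at hs
    obtain ⟨hu, hi, ha⟩ := hs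
    simp only [coe_filter, Set.mem_ofPred_eq]
    have h1 := (flowex_valid R z hz fin hfin hu hi).1
    rw [ha] at h1
    refine ⟨h1, ?_⟩
    rcases flowex_end R z hz fin hfin hu hi with ⟨v, hv, -, hx⟩ | ⟨a', ha', h2⟩
    · rw [ha] at hx
      exact absurd hx (flowex_mu c hv a)
    · have e : a = a' := c.hμ (ha.symm.trans ha')
      rw [e]
      exact h2
  · rintro ⟨u, i⟩ hs ⟨u', i'⟩ hs' h
    simp only [coe_sigma, Set.mem_sigma_iff, mem_coe, mem_filter, mem_range] at hs hs'
    obtain ⟨hu, hi, ha⟩ := hs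
    obtain ⟨hu', hi', ha'⟩ := hs'
    have h1 : fin u i = fin u' i' := Prod.ext (ha.trans ha'.symm) h
    obtain ⟨rfl, rfl⟩ := flowex_inj R z fin hfin hu hu' hi hi' h1
    rfl

theorem flowex_hrv {v : Finset χ} (hv : v ∈ c.B) :
    ∑ u ∈ c.Sp, ((range (u.card - 1)).filter (fun i => (fin u i).1 ∈ v)).card ≤
      v.card * (c.D - (v.card - 1)) := by
  classical
  rw [← card_sigma]
  calc _ ≤ (v.biUnion fun x => (c.Un x \ ((range (v.card - 1)).image
            (fun i => (Sum.inl (v, i) : (Finset χ × ℕ) ⊕ α)))).image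
            (fun η => (x, η))).card := by
        refine card_le_card_of_injOn (fun s => fin s.1 s.2) ?_ ?_
        · rintro ⟨u, i⟩ hs
          simp only [coe_sigma, Set.mem_sigma_iff, mem_coe, mem_filter, mem_range] at hs
          obtain ⟨hu, hi, hx⟩ := hs
          obtain ⟨h1, h2⟩ := flowex_valid R z hz fin hfin hu hi
          simp only [coe_biUnion, Set.mem_iUnion, mem_coe, mem_image, mem_sdiff]
          refine ⟨(fin u i).1, hx, (fin u i).2, ⟨h1, ?_⟩, rfl⟩
          rintro ⟨j, -, hj⟩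
          rcases h2 with h2 | ⟨a, h2⟩
          · rw [h2] at hj
            have e : (v, j) = (u, i) := Sum.inl_injective hj
            have e1 : v = u := (Prod.ext_iff.1 e).1
            exact (flowex_Sp hu).2 (e1 ▸ hv)
          · rw [h2] at hj
            exact Sum.inl_ne_inr hj
        · rintro ⟨u, i⟩ hs ⟨u', i'⟩ hs' h
          simp only [coe_sigma, Set.mem_sigma_iff, mem_coe, mem_filter, mem_range] at hs hs'
          obtain ⟨hu, hi, -⟩ := hs
          obtain ⟨hu', hi', -⟩ := hs'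
          obtain ⟨rfl, rfl⟩ := flowex_inj R z fin hfin hu hu' hi hi' h
          rfl
    _ ≤ ∑ x ∈ v, (c.D - (v.card - 1)) := by
        refine card_biUnion_le.trans (sum_le_sum fun x hx => ?_)
        exact card_image_le.trans (un_card' c (c.hBT hv) hx)
    _ = _ := by rw [sum_const, smul_eq_mul]

theorem flowex_pos {u v : Finset χ} (hu : u ∈ c.Sp) (hv : v ∈ c.B)
    (h : 0 < ((range (u.card - 1)).filter (fun i => (fin u i).1 ∈ v)).card) :
    v.card ≤ u.card ∧ NL c.Γ (vs c.B \ v) (z u) := by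
  obtain ⟨i, hi⟩ := card_pos.1 h
  rw [mem_filter, mem_range] at hi
  constructor
  · rcases flowex_end R z hz fin hfin hu hi.1 with ⟨v', hv', h1, hx⟩ | ⟨a, ha, -⟩
    · rw [flowex_dis c hv hv' hi.2 hx]
      exact h1
    · have h2 := hi.2
      rw [ha] at h2
      exact absurd h2 (flowex_mu c hv a)
  · exact reach_NL R hv _ _ (hfin u hu i hi.1).1 hi.2

theorem flowex_acc (G : Finset χ → ℕ → ℝ)
    (hG : ∀ u ∈ c.Sp, ∀ i, i < u.card - 1 →
        0 ≤ G u i ∧ c.p (fin u i).1 - c.p (z u) ≤ G u i) {u : Finset χ} (hu : u ∈ c.Sp) :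
    ((u.card : ℝ) - 1) * c.X u ≤ ∑ i ∈ range (u.card - 1), G u i +
      (∑ v ∈ c.B, (((range (u.card - 1)).filter (fun i => (fin u i).1 ∈ v)).card : ℝ) *
          max 0 (c.X u + c.p (z u) - pr v.card) +
        ∑ a : α, (((range (u.card - 1)).filter (fun i => (fin u i).1 = c.μ a)).card : ℝ) *
          max 0 (c.X u + c.p (z u) - c.p (c.μ a))) := by
  have h0 := flowex_sum R z hz fin hfin hu (fun x => max 0 (c.X u + c.p (z u) - c.p x))
  have h3 : 3 ≤ u.card := c.hT u (flowex_Sp hu).1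
  have e1 : ((u.card : ℝ) - 1) * c.X u = ∑ _i ∈ range (u.card - 1), c.X u := by
    rw [sum_const, card_range, nsmul_eq_mul, Nat.cast_sub (by omega)]
    norm_num
  have e2 : ∀ v ∈ c.B, ∑ i ∈ (range (u.card - 1)).filter (fun i => (fin u i).1 ∈ v),
      max 0 (c.X u + c.p (z u) - c.p (fin u i).1) =
      (((range (u.card - 1)).filter (fun i => (fin u i).1 ∈ v)).card : ℝ) *
          max 0 (c.X u + c.p (z u) - pr v.card) := by
    intro v hv
    rw [← nsmul_eq_mul, ← sum_const]
    refine sum_congr rfl fun i hi => ?_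
    rw [p_of_mem_B c hv (mem_filter.1 hi).2]
  have e3 : ∀ a : α, ∑ i ∈ (range (u.card - 1)).filter (fun i => (fin u i).1 = c.μ a),
      max 0 (c.X u + c.p (z u) - c.p (fin u i).1) =
      (((range (u.card - 1)).filter (fun i => (fin u i).1 = c.μ a)).card : ℝ) *
          max 0 (c.X u + c.p (z u) - c.p (c.μ a)) := by
    intro a
    rw [← nsmul_eq_mul, ← sum_const]
    refine sum_congr rfl fun i hi => ?_
    rw [(mem_filter.1 hi).2]
  rw [sum_congr rfl e2, sum_congr rfl fun a _ => e3 a] at h0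
  rw [e1, ← h0, ← sum_add_distrib]
  refine sum_le_sum fun i hi => ?_
  have h1 := (hG u hu i (mem_range.1 hi)).2
  have h2 : c.X u + c.p (z u) - c.p (fin u i).1 ≤
      max 0 (c.X u + c.p (z u) - c.p (fin u i).1) := le_max_right _ _
  linarith

end

theorem flow_exists [Nonempty χ] (c : Cfg α χ) : Nonempty (Flow c) := by
  classical
  obtain ⟨R⟩ := route_exists c
  obtain ⟨z, hz⟩ := flowex_z c
  obtain ⟨fin, G, hfin, hG, hGs⟩ := ends R z hz
  refine ⟨{
    z := z
    r := fun u v => ((range (u.card - 1)).filter (fun i => (fin u i).1 ∈ v)).card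
    m := fun u a => ((range (u.card - 1)).filter (fun i => (fin u i).1 = c.μ a)).card
    hz := hz
    hr := fun u hu => flowex_hr R z hz fin hfin hu
    hm := fun a => flowex_hm R z hz fin hfin a
    hrv := fun v hv => flowex_hrv R z hz fin hfin hv
    hle := fun u hu v hv h => (flowex_pos R z hz fin hfin hu hv h).1
    hnl := fun u hu v hv h => (flowex_pos R z hz fin hfin hu hv h).2
    hC1 := ?_
    hacc := ?_ }⟩
  · intro v hv z0 h0
    exact flow_c1 R z hz fin hfin hv z0 h0
  · calc _ ≤ ∑ u ∈ c.Sp, (∑ i ∈ range (u.card - 1), G u i +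
        (∑ v ∈ c.B, (((range (u.card - 1)).filter (fun i => (fin u i).1 ∈ v)).card : ℝ) *
          max 0 (c.X u + c.p (z u) - pr v.card) +
        ∑ a : α, (((range (u.card - 1)).filter (fun i => (fin u i).1 = c.μ a)).card : ℝ) *
          max 0 (c.X u + c.p (z u) - c.p (c.μ a)))) :=
          sum_le_sum fun u hu => flowex_acc R z hz fin hfin G hG hu
      _ ≤ _ := by
          rw [sum_add_distrib, sum_add_distrib, ← add_assoc]
          linarith

end Pool.Agent.UQ
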