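import Mathlib

/-!
# Lemma X_k (section 7 of the UQ1 paper)

Abstract form: a finite family `N` of indices with sets `β u`, sizes `a u = |β u|`, multiplicities
`r u ≤ a u`, real numbers `W u`, classes `cls u`, and a predicate `isK`.
-/

namespace Pool.Agent.UQ.XL

open Finset

section numeric

/-- the parameter `w_k` -/
noncomputable def wK (k : ℕ) : ℝ := if k ≤ 3 then 0 else ((k : ℝ) - 2) / (2 * ((k : ℝ) - 1))

/-- the parameter `ρ_k` -/
noncomputable def rhoK (k : ℕ) : ℝ := ((k : ℝ) - 1) / ((k : ℝ) + 1)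

theorem wK_nonneg (k : ℕ) : 0 ≤ wK k := by
  unfold wK
  split_ifs with h
  · exact le_refl 0
  · push Not at h
    have hk : (4 : ℝ) ≤ k := by exact_mod_cast h
    apply div_nonneg <;> linarith

theorem wK_le_rhoK (k : ℕ) (hk2 : 2 ≤ k) : wK k ≤ rhoK k := by
  have hk : (2 : ℝ) ≤ k := by exact_mod_cast hk2
  unfold wK rhoK
  split_ifs with h
  · apply div_nonneg <;> linarith
  · rw [div_le_div_iff₀ (by linarith) (by linarith)]
    nlinarith

theorem rhoK_le_one (k : ℕ) : rhoK k ≤ 1 := by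
  unfold rhoK
  have hk : (0 : ℝ) ≤ k := by positivity
  rw [div_le_one (by linarith)]
  linarith

theorem rhoK_nonneg (k : ℕ) (hk2 : 2 ≤ k) : 0 ≤ rhoK k := by
  have hk : (2 : ℝ) ≤ k := by exact_mod_cast hk2
  unfold rhoK
  apply div_nonneg <;> linarith

theorem rhoK_mul (k : ℕ) : rhoK k * ((k : ℝ) + 1) = (k : ℝ) - 1 := by
  unfold rhoK
  have hk : (0 : ℝ) ≤ k := by positivity
  field_simp

/-- `k - 2 - w k ≥ 0` -/
theorem wK_coef (k : ℕ) (hk2 : 2 ≤ k) : 0 ≤ (k : ℝ) - 2 - wK k * k := by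
  have hk : (2 : ℝ) ≤ k := by exact_mod_cast hk2
  unfold wK
  split_ifs with h
  · linarith
  · push Not at h
    have hk : (4 : ℝ) ≤ k := by exact_mod_cast h
    have h1 : ((k : ℝ) - 2) / (2 * ((k : ℝ) - 1)) * k
        = ((k : ℝ) - 2) * (k / (2 * ((k : ℝ) - 1))) := by ring
    rw [h1]
    have h2 : (k : ℝ) / (2 * ((k : ℝ) - 1)) ≤ 1 := by
      rw [div_le_one (by linarith)]
      linarith
    nlinarith

/-- case 2 numerics for `k ≥ 3` -/
theorem case2_numeric (k : ℕ) (hk3 : 3 ≤ k) (D s : ℝ) (hD : (k : ℝ) ^ 2 + k + 1 ≤ D)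
    (hs : 2 ≤ s) :
    wK k * ((k : ℝ) + 1) * (D - k) + (1 - rhoK k) * (k * s) + (rhoK k - wK k) * D
      + (1 - wK k) * (D - k * s) + ((k : ℝ) - 1) ^ 2 * (k * (1 - wK k))
      ≤ ((k : ℝ) - 1) * D + k * (k + 1) := by
  have hk : (3 : ℝ) ≤ k := by exact_mod_cast hk3
  set K : ℝ := (k : ℝ) with hKdef
  have hρ : rhoK k * (K + 1) = K - 1 := rhoK_mul k
  have hwρ := wK_le_rhoK k (by omega)
  by_cases h : k ≤ 3
  · have hk' : k = 3 := by omega
    have hw : wK k = 0 := by unfold wK; rw [if_pos h]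
    have hK3 : K = 3 := by rw [hKdef, hk']; norm_num
    rw [hK3] at hρ hD
    have hρ' : rhoK k = 1 / 2 := by linarith
    rw [hρ', hw, hK3]
    nlinarith
  · push Not at h
    have hk4 : (4 : ℝ) ≤ K := by rw [hKdef]; exact_mod_cast h
    have hw : wK k * (2 * (K - 1)) = K - 2 := by
      unfold wK; rw [if_neg (by omega)]
      rw [← hKdef]
      have hne : (2 * (K - 1)) ≠ 0 := by
        have : (0 : ℝ) < 2 * (K - 1) := by linarith
        exact this.ne'
      exact div_mul_cancel₀ _ hne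
    set w := wK k
    set ρ := rhoK k
    -- RHS - LHS = (K-2-ρ-w(K-1)) D + K(K+1)(1+w) + (ρ-w) K s - (K-1)^2 K (1-w)
    have hco : (K - 2 - ρ - w * (K - 1)) * (2 * (K + 1)) = K * (K - 3) := by nlinarith
    have hco' : 0 ≤ K - 2 - ρ - w * (K - 1) := by
      by_contra hcon
      push Not at hcon
      nlinarith [mul_nonneg (by linarith : (0:ℝ) ≤ K) (by linarith : (0:ℝ) ≤ K - 3)]
    have h1 : (K - 2 - ρ - w * (K - 1)) * (K ^ 2 + K + 1) ≤ (K - 2 - ρ - w * (K - 1)) * D :=
      mul_le_mul_of_nonneg_left hD hco'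
    have h2 : 0 ≤ (ρ - w) * (K * s) := by
      apply mul_nonneg (by linarith)
      apply mul_nonneg <;> linarith
    -- (K-1)^2 K (1-w) = K^2 (K-1)/2
    have h3 : (K - 1) ^ 2 * (K * (1 - w)) * 2 = K ^ 2 * (K - 1) := by
      have : (K - 1) * (1 - w) * 2 = K := by nlinarith
      calc (K - 1) ^ 2 * (K * (1 - w)) * 2 = (K - 1) * K * ((K - 1) * (1 - w) * 2) := by ring
        _ = K ^ 2 * (K - 1) := by rw [this]; ring
    -- K(K+1)(1+w) ≥ K (K+1)
    have hw4 : 1 / 3 ≤ w := by
      by_contra hcon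
      push Not at hcon
      nlinarith
    have h4 : K * (K + 1) * (4 / 3) ≤ K * (K + 1) * (1 + w) := by
      apply mul_le_mul_of_nonneg_left
      · linarith
      · apply mul_nonneg <;> linarith
    have h5 : (K - 2 - ρ - w * (K - 1)) * (K ^ 2 + K + 1) * (2 * (K + 1))
        = K * (K - 3) * (K ^ 2 + K + 1) := by
      calc _ = (K - 2 - ρ - w * (K - 1)) * (2 * (K + 1)) * (K ^ 2 + K + 1) := by ring
        _ = _ := by rw [hco]
    -- need: h5/(2(K+1)) + (4/3) K (K+1) - K^2 (K-1)/2 ≥ 0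
    have h6 : K ^ 2 * (K - 1) / 2 ≤
        (K - 2 - ρ - w * (K - 1)) * (K ^ 2 + K + 1) + K * (K + 1) * (4 / 3) := by
      by_contra hcon
      push Not at hcon
      have hpos : 0 < 2 * (K + 1) := by linarith
      have h7 := mul_lt_mul_of_pos_right hcon hpos
      rw [add_mul, h5] at h7
      nlinarith [mul_nonneg (by linarith : (0:ℝ) ≤ K) (by linarith : (0:ℝ) ≤ K - 4),
        mul_nonneg (mul_nonneg (by linarith : (0:ℝ) ≤ K) (by linarith : (0:ℝ) ≤ K - 4))
          (by linarith : (0:ℝ) ≤ K)]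
    nlinarith

end numeric

section count

variable {X ι : Type*} [DecidableEq X] [DecidableEq ι]

/-- the basic counting fact in a linear family -/
theorem card_le_mul_of_meet (S : Finset ι) (β : ι → Finset X)
    (hlin : ∀ u ∈ S, ∀ u' ∈ S, u ≠ u' → (β u ∩ β u').card ≤ 1)
    (F1 F2 : Finset X) (hF : Disjoint F1 F2)
    (h1 : ∀ u ∈ S, (β u ∩ F1).Nonempty) (h2 : ∀ u ∈ S, (β u ∩ F2).Nonempty) :
    S.card ≤ F1.card * F2.card := by
  classical
  rcases S.eq_empty_or_nonempty with hS | ⟨u0, hu0⟩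
  · rw [hS]; simp
  obtain ⟨x0, -⟩ := h1 u0 hu0
  have : Nonempty X := ⟨x0⟩
  choose! f hf using h1
  choose! g hg using h2
  rw [← card_product]
  apply card_le_card_of_injOn (fun u => (f u, g u))
  · intro u hu
    have hu' : u ∈ S := hu
    simp only [coe_product, Set.mem_prod, mem_coe]
    exact ⟨(mem_inter.mp (hf u hu')).2, (mem_inter.mp (hg u hu')).2⟩
  · intro u hu u' hu' h
    have hu1 : u ∈ S := hu
    have hu2 : u' ∈ S := hu'
    by_contra hne
    have h1 : f u = f u' := congrArg Prod.fst h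
    have h2 : g u = g u' := congrArg Prod.snd h
    have hfg : f u ≠ g u := by
      intro he
      have ha := (mem_inter.mp (hf u hu1)).2
      have hb := (mem_inter.mp (hg u hu1)).2
      rw [← he] at hb
      exact (disjoint_left.mp hF) ha hb
    have hsub : ({f u, g u} : Finset X) ⊆ β u ∩ β u' := by
      intro x hx
      rw [mem_insert, mem_singleton] at hx
      rcases hx with rfl | rfl
      · rw [mem_inter]
        refine ⟨(mem_inter.mp (hf u hu1)).1, ?_⟩
        rw [h1]
        exact (mem_inter.mp (hf u' hu2)).1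
      · rw [mem_inter]
        refine ⟨(mem_inter.mp (hg u hu1)).1, ?_⟩
        rw [h2]
        exact (mem_inter.mp (hg u' hu2)).1
    have hc := card_le_card hsub
    rw [card_pair hfg] at hc
    have := hlin u hu1 u' hu2 hne
    omega

/-- members through a common point that all meet a set avoiding that point -/
theorem card_le_of_star (S : Finset ι) (β : ι → Finset X)
    (hlin : ∀ u ∈ S, ∀ u' ∈ S, u ≠ u' → (β u ∩ β u').card ≤ 1)
    (q : X) (F : Finset X) (hq : q ∉ F)
    (h1 : ∀ u ∈ S, q ∈ β u) (h2 : ∀ u ∈ S, (β u ∩ F).Nonempty) :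
    S.card ≤ F.card := by
  have := card_le_mul_of_meet S β hlin {q} F
    (by rw [disjoint_singleton_left]; exact hq)
    (fun u hu => ⟨q, by simp [h1 u hu]⟩) h2
  simpa using this

end count

section main

variable {X ι γ : Type*} [DecidableEq X] [DecidableEq ι] [DecidableEq γ]

/-- hypotheses of Lemma X_k -/
structure XHyp (k D : ℕ) (N : Finset ι) (isK : ι → Prop) (β : ι → Finset X) (a r : ι → ℕ)
    (W : ι → ℝ) (cls : ι → γ) : Prop where
  hk : 2 ≤ k
  hkD : k ≤ D
  hra : ∀ u ∈ N, r u ≤ a u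
  haβ : ∀ u ∈ N, (β u).card = a u
  haK : ∀ u ∈ N, isK u → a u = k
  haO : ∀ u ∈ N, ¬ isK u → a u ≤ 2 * k - 1
  hWK : ∀ u ∈ N, isK u → W u ≤ 1
  hWO : ∀ u ∈ N, ¬ isK u → W u ≤ rhoK k
  hWO' : ∀ u ∈ N, ¬ isK u → (a u : ℝ) * W u ≤ (k : ℝ) - 1
  hlin : ∀ u ∈ N, ∀ u' ∈ N, u ≠ u' → (β u ∩ β u').card ≤ 1
  hC1 : ∀ g, ∑ u ∈ N.filter (fun u => cls u = g), r u ≤ D
  hC2 : ∀ q, ∑ u ∈ N.filter (fun u => q ∈ β u), a u ≤ D
  hC3 : ∑ u ∈ N, r u ≤ (k + 1) * (D - k)
  hC4 : ∀ u ∈ N, isK u → ∀ u' ∈ N, cls u ≠ cls u' → (β u ∩ β u').Nonempty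

/-- contribution of `u` -/
noncomputable def ctr (k : ℕ) (r : ι → ℕ) (W : ι → ℝ) (u : ι) : ℝ :=
  (r u : ℝ) * max (W u - wK k) 0

variable {k D : ℕ} {N : Finset ι} {isK : ι → Prop} {β : ι → Finset X} {a r : ι → ℕ}
    {W : ι → ℝ} {cls : ι → γ}

theorem wK_le_one (k : ℕ) (hk : 2 ≤ k) : wK k ≤ 1 := (wK_le_rhoK k hk).trans (rhoK_le_one k)

theorem ctr_K (H : XHyp k D N isK β a r W cls) {u : ι} (hu : u ∈ N) (hK : isK u) :
    ctr k r W u ≤ (1 - wK k) * r u := by
  unfold ctr
  rw [mul_comm]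
  apply mul_le_mul_of_nonneg_right _ (by positivity)
  apply max_le
  · linarith [H.hWK u hu hK]
  · linarith [wK_le_one k H.hk]

theorem ctr_O (H : XHyp k D N isK β a r W cls) {u : ι} (hu : u ∈ N) (hK : ¬ isK u) :
    ctr k r W u ≤ (rhoK k - wK k) * r u := by
  unfold ctr
  rw [mul_comm]
  apply mul_le_mul_of_nonneg_right _ (by positivity)
  apply max_le
  · linarith [H.hWO u hu hK]
  · linarith [wK_le_rhoK k H.hk]

theorem ctr_any (H : XHyp k D N isK β a r W cls) {u : ι} (hu : u ∈ N) :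
    ctr k r W u ≤ (1 - wK k) * r u := by
  by_cases hK : isK u
  · exact ctr_K H hu hK
  · refine (ctr_O H hu hK).trans ?_
    apply mul_le_mul_of_nonneg_right _ (by positivity)
    linarith [rhoK_le_one k]

theorem ctr_O' (H : XHyp k D N isK β a r W cls) {u : ι} (hu : u ∈ N) (hK : ¬ isK u) :
    ctr k r W u ≤ ((k : ℝ) + 1) * (rhoK k - wK k) := by
  have hwρ := wK_le_rhoK k H.hk
  have hw0 := wK_nonneg k
  have hk0 : (0 : ℝ) ≤ k := by positivity
  have hρ := rhoK_mul k
  have h0 : 0 ≤ ((k : ℝ) + 1) * (rhoK k - wK k) := mul_nonneg (by linarith) (by linarith)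
  by_cases hr : (r u : ℝ) ≤ (k : ℝ) + 1
  · refine (ctr_O H hu hK).trans ?_
    rw [mul_comm]
    exact mul_le_mul_of_nonneg_right hr (by linarith)
  · push Not at hr
    unfold ctr
    by_cases hW : W u - wK k ≤ 0
    · rw [max_eq_right hW, mul_zero]; exact h0
    · push Not at hW
      rw [max_eq_left hW.le]
      have hWpos : 0 ≤ W u := by linarith
      have h1 : (r u : ℝ) * W u ≤ (a u : ℝ) * W u :=
        mul_le_mul_of_nonneg_right (by exact_mod_cast H.hra u hu) hWpos
      have h2 := H.hWO' u hu hK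
      have h3 : ((k : ℝ) + 1) * wK k ≤ (r u : ℝ) * wK k :=
        mul_le_mul_of_nonneg_right hr.le hw0
      nlinarith

theorem numeric_O (k : ℕ) (hk2 : 2 ≤ k) :
    (k : ℝ) ^ 2 * (((k : ℝ) + 1) * (rhoK k - wK k)) ≤ ((k : ℝ) ^ 2 - 1) * (k * (1 - wK k)) := by
  have hk : (2 : ℝ) ≤ k := by exact_mod_cast hk2
  have hρ := rhoK_mul k
  have hw0 := wK_nonneg k
  have hw1 := wK_le_one k hk2
  have h1 : ((k : ℝ) + 1) * (rhoK k - wK k) = (k : ℝ) - 1 - (k + 1) * wK k := by
    rw [mul_sub, mul_comm, hρ]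
  rw [h1]
  -- RHS - LHS = k (k-1) + w k (k+1)
  have : ((k : ℝ) ^ 2 - 1) * (k * (1 - wK k)) - (k : ℝ) ^ 2 * ((k : ℝ) - 1 - (k + 1) * wK k)
      = k * (k - 1) + wK k * (k * (k + 1)) := by ring
  have h2 : 0 ≤ (k : ℝ) * (k - 1) := mul_nonneg (by linarith) (by linarith)
  have h3 : 0 ≤ wK k * (k * ((k : ℝ) + 1)) :=
    mul_nonneg hw0 (mul_nonneg (by linarith) (by linarith))
  linarith

theorem ctr_any' (H : XHyp k D N isK β a r W cls) {u : ι} (hu : u ∈ N) :
    ctr k r W u ≤ (k : ℝ) * (1 - wK k) := by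
  have hk : (2 : ℝ) ≤ k := by exact_mod_cast H.hk
  have hw1 := wK_le_one k H.hk
  by_cases hK : isK u
  · refine (ctr_K H hu hK).trans ?_
    rw [mul_comm]
    apply mul_le_mul_of_nonneg_right _ (by linarith)
    have h1 := H.hra u hu
    rw [H.haK u hu hK] at h1
    exact_mod_cast h1
  · refine (ctr_O' H hu hK).trans ?_
    have h1 := numeric_O k H.hk
    have h2 : ((k : ℝ) ^ 2 - 1) * (k * (1 - wK k)) ≤ (k : ℝ) ^ 2 * (k * (1 - wK k)) := by
      apply mul_le_mul_of_nonneg_right
      · linarith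
      · exact mul_nonneg (by linarith) (by linarith)
    have h3 := h1.trans h2
    exact le_of_mul_le_mul_left h3 (by positivity)

theorem sum_ctr_le_card (H : XHyp k D N isK β a r W cls) (P : Finset ι) (hP : P ⊆ N) :
    ∑ u ∈ P, ctr k r W u ≤ (P.card : ℝ) * (k * (1 - wK k)) := by
  have := sum_le_card_nsmul P (fun u => ctr k r W u) ((k : ℝ) * (1 - wK k))
    (fun u hu => ctr_any' H (hP hu))
  rwa [nsmul_eq_mul] at this

theorem sum_ctr_le_card_O (H : XHyp k D N isK β a r W cls) (P : Finset ι) (hP : P ⊆ N)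
    (hPK : ∀ u ∈ P, ¬ isK u) :
    ∑ u ∈ P, ctr k r W u ≤ (P.card : ℝ) * (((k : ℝ) + 1) * (rhoK k - wK k)) := by
  have := sum_le_card_nsmul P (fun u => ctr k r W u) (((k : ℝ) + 1) * (rhoK k - wK k))
    (fun u hu => ctr_O' H (hP hu) (hPK u hu))
  rwa [nsmul_eq_mul] at this

theorem sum_ctr_le_r (H : XHyp k D N isK β a r W cls) (P : Finset ι) (hP : P ⊆ N) :
    ∑ u ∈ P, ctr k r W u ≤ (1 - wK k) * ((∑ u ∈ P, r u : ℕ) : ℝ) := by
  push_cast
  rw [mul_sum]
  exact sum_le_sum fun u hu => ctr_any H (hP hu)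

theorem sum_ctr_le_split [DecidablePred isK] (H : XHyp k D N isK β a r W cls) (P : Finset ι)
    (hP : P ⊆ N) :
    ∑ u ∈ P, ctr k r W u ≤ (rhoK k - wK k) * ((∑ u ∈ P, r u : ℕ) : ℝ)
      + (1 - rhoK k) * ((∑ u ∈ P.filter isK, r u : ℕ) : ℝ) := by
  push_cast
  rw [mul_sum, mul_sum, sum_filter, ← sum_add_distrib]
  apply sum_le_sum
  intro u hu
  by_cases hK : isK u
  · rw [if_pos hK]
    have := ctr_K H (hP hu) hK
    linarith
  · rw [if_neg hK]
    have := ctr_O H (hP hu) hK
    linarith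

theorem castC1 (H : XHyp k D N isK β a r W cls) (g : γ) :
    ((∑ u ∈ N.filter (fun u => cls u = g), r u : ℕ) : ℝ) ≤ D := by
  exact_mod_cast H.hC1 g

theorem castC3 (H : XHyp k D N isK β a r W cls) :
    ((∑ u ∈ N, r u : ℕ) : ℝ) ≤ ((k : ℝ) + 1) * ((D : ℝ) - k) := by
  have h1 : ((D - k : ℕ) : ℝ) = D - k := Nat.cast_sub H.hkD
  rw [← h1]
  exact_mod_cast H.hC3

/-- the target inequality -/
def XGoal (k D : ℕ) (N : Finset ι) (r : ι → ℕ) (W : ι → ℝ) : Prop :=
  wK k * ((k : ℝ) + 1) * ((D : ℝ) - k) + ∑ u ∈ N, ctr k r W u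
    ≤ ((k : ℝ) - 1) * D + k * (k + 1)

theorem goal_T1 (H : XHyp k D N isK β a r W cls) (hD : D ≤ k * (k + 1)) :
    XGoal k D N r W := by
  unfold XGoal
  have h1 := sum_ctr_le_r H N (Subset.refl N)
  have h2 := castC3 H
  have hw1 := wK_le_one k H.hk
  have h3 : (1 - wK k) * ((∑ u ∈ N, r u : ℕ) : ℝ) ≤ (1 - wK k) * (((k : ℝ) + 1) * ((D : ℝ) - k)) :=
    mul_le_mul_of_nonneg_left h2 (by linarith)
  have h4 : (D : ℝ) ≤ k * (k + 1) := by exact_mod_cast hD
  nlinarith

theorem goal_T2 [DecidablePred isK] (H : XHyp k D N isK β a r W cls)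
    (hM : ∑ u ∈ N.filter isK, r u ≤ k ^ 2 * (k + 1)) :
    XGoal k D N r W := by
  unfold XGoal
  have h1 := sum_ctr_le_split H N (Subset.refl N)
  have h2 := castC3 H
  have hρ := rhoK_mul k
  have h3 : (rhoK k - wK k) * ((∑ u ∈ N, r u : ℕ) : ℝ)
      ≤ (rhoK k - wK k) * (((k : ℝ) + 1) * ((D : ℝ) - k)) :=
    mul_le_mul_of_nonneg_left h2 (by linarith [wK_le_rhoK k H.hk])
  have h4 : ((∑ u ∈ N.filter isK, r u : ℕ) : ℝ) ≤ (k : ℝ) ^ 2 * (k + 1) := by exact_mod_cast hM
  have h5 : (1 - rhoK k) * ((∑ u ∈ N.filter isK, r u : ℕ) : ℝ)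
      ≤ (1 - rhoK k) * ((k : ℝ) ^ 2 * (k + 1)) :=
    mul_le_mul_of_nonneg_left h4 (by linarith [rhoK_le_one k])
  have h6 : rhoK k * (((k : ℝ) + 1) * ((D : ℝ) - k)) = ((k : ℝ) - 1) * ((D : ℝ) - k) := by
    rw [← mul_assoc, hρ]
  have h7 : rhoK k * ((k : ℝ) ^ 2 * (k + 1)) = (k : ℝ) ^ 2 * ((k : ℝ) - 1) := by
    calc _ = (k : ℝ) ^ 2 * (rhoK k * (k + 1)) := by ring
      _ = _ := by rw [hρ]
  nlinarith

/-- numeric end of cases 1a and 1b -/
theorem numeric_1a (k : ℕ) (hk2 : 2 ≤ k) (D : ℝ) (hD : (k : ℝ) * (k + 1) ≤ D) (cG cR : ℝ)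
    (hG : cG ≤ (1 - wK k) * D) (hR : cR ≤ ((k : ℝ) ^ 2 - 1) * (k * (1 - wK k))) :
    wK k * ((k : ℝ) + 1) * (D - k) + (cG + cR) ≤ ((k : ℝ) - 1) * D + k * (k + 1) := by
  have h := wK_coef k hk2
  have h2 : 0 ≤ ((k : ℝ) - 2 - wK k * k) * (D - k * (k + 1)) := mul_nonneg h (by linarith)
  have h3 : ((k : ℝ) - 1) * D + k * (k + 1) - (wK k * ((k : ℝ) + 1) * (D - k)
      + ((1 - wK k) * D + ((k : ℝ) ^ 2 - 1) * (k * (1 - wK k))))
      = ((k : ℝ) - 2 - wK k * k) * (D - k * (k + 1)) := by ring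
  linarith

/-- numeric end of case 1c -/
theorem numeric_1c (k : ℕ) (hk2 : 2 ≤ k) (D : ℝ) (hD : (k : ℝ) ^ 2 + k + 1 ≤ D) (cG cR : ℝ)
    (hG : cG ≤ (rhoK k - wK k) * D + (1 - rhoK k) * ((k : ℝ) * k))
    (hR : cR ≤ ((k : ℝ) * k) * (k * (1 - wK k))) :
    wK k * ((k : ℝ) + 1) * (D - k) + (cG + cR) ≤ ((k : ℝ) - 1) * D + k * (k + 1) := by
  have hk : (2 : ℝ) ≤ k := by exact_mod_cast hk2
  have hwρ := wK_le_rhoK k hk2
  have hρ := rhoK_mul k
  have h2 : 0 ≤ (k : ℝ) * (rhoK k - wK k) * (D - (k ^ 2 + k + 1)) :=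
    mul_nonneg (mul_nonneg (by linarith) (by linarith)) (by linarith)
  have h3 : ((k : ℝ) - 1) * D + k * (k + 1) - (wK k * ((k : ℝ) + 1) * (D - k)
      + ((rhoK k - wK k) * D + (1 - rhoK k) * ((k : ℝ) * k) + ((k : ℝ) * k) * (k * (1 - wK k))))
      = (k : ℝ) * (rhoK k - wK k) * (D - (k ^ 2 + k + 1))
        + ((k : ℝ) - 1 - rhoK k * ((k : ℝ) + 1)) * (D - k * (k + 1)) := by ring
  rw [hρ, sub_self, zero_mul, add_zero] at h3
  linarith

/-- a sum of `ctr` splits along a class -/
theorem split_cls (g : γ) :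
    ∑ u ∈ N, ctr k r W u = ∑ u ∈ N.filter (fun u => cls u = g), ctr k r W u
      + ∑ u ∈ N.filter (fun u => ¬ cls u = g), ctr k r W u :=
  (sum_filter_add_sum_filter_not N (fun u => cls u = g) (fun u => ctr k r W u)).symm

theorem sum_r_K_le [DecidablePred isK] (H : XHyp k D N isK β a r W cls) (P : Finset ι)
    (hP : P ⊆ N) (hPK : ∀ u ∈ P, isK u) : ∑ u ∈ P, r u ≤ P.card * k := by
  have := sum_le_card_nsmul P r k (fun u hu => by
    have h1 := H.hra u (hP hu)
    rw [H.haK u (hP hu) (hPK u hu)] at h1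
    exact h1)
  rwa [smul_eq_mul] at this

theorem goal_case1 [DecidablePred isK] (H : XHyp k D N isK β a r W cls)
    (hD : k * (k + 1) + 1 ≤ D) (g : γ)
    (hne : ((N.filter (fun u => cls u = g)).filter isK).Nonempty)
    (hno : ∀ q, ∃ u ∈ (N.filter (fun u => cls u = g)).filter isK, q ∉ β u) :
    XGoal k D N r W := by
  have hk2 := H.hk
  have hDr : (k : ℝ) * (k + 1) + 1 ≤ D := by exact_mod_cast hD
  set G := N.filter (fun u => cls u = g) with hGdef
  set R := N.filter (fun u => ¬ cls u = g) with hRdef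
  have hGN : G ⊆ N := filter_subset _ _
  have hRN : R ⊆ N := filter_subset _ _
  have hmemG : ∀ u, u ∈ G.filter isK → u ∈ N ∧ cls u = g ∧ isK u := by
    intro u hu
    rw [mem_filter] at hu
    have h1 := hu.1
    rw [hGdef, mem_filter] at h1
    exact ⟨h1.1, h1.2, hu.2⟩
  have hmemR : ∀ u, u ∈ R → u ∈ N ∧ cls u ≠ g := by
    intro u hu
    rw [hRdef, mem_filter] at hu
    exact hu
  have hmeet : ∀ u ∈ G.filter isK, ∀ u' ∈ R, (β u' ∩ β u).Nonempty := by
    intro u hu u' hu'
    obtain ⟨h1, h2, h3⟩ := hmemG u hu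
    obtain ⟨h4, h5⟩ := hmemR u' hu'
    have := H.hC4 u h1 h3 u' h4 (by rw [h2]; exact fun h => h5 h.symm)
    rwa [inter_comm] at this
  have hcardK : ∀ u, u ∈ N → isK u → (β u).card = k := by
    intro u hu hK
    rw [H.haβ u hu, H.haK u hu hK]
  have hRq : ∀ q, (R.filter (fun u => q ∈ β u)).card ≤ k := by
    intro q
    obtain ⟨u, hu, hq⟩ := hno q
    obtain ⟨h1, h2, h3⟩ := hmemG u hu
    rw [← hcardK u h1 h3]
    apply card_le_of_star _ β _ q (β u) hq
    · intro u' hu'
      exact (mem_filter.mp hu').2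
    · intro u' hu'
      exact hmeet u hu u' (mem_filter.mp hu').1
    · intro x hx y hy hxy
      exact H.hlin x (hRN (mem_filter.mp hx).1) y (hRN (mem_filter.mp hy).1) hxy
  obtain ⟨u0, hu0⟩ := hne
  obtain ⟨hu0N, hu0g, hu0K⟩ := hmemG u0 hu0
  have hR : R.card ≤ k * k := by
    have hsub : R ⊆ (β u0).biUnion (fun q => R.filter (fun u => q ∈ β u)) := by
      intro u' hu'
      obtain ⟨q, hq⟩ := hmeet u0 hu0 u' hu'
      rw [mem_inter] at hq
      rw [mem_biUnion]
      exact ⟨q, hq.2, by rw [mem_filter]; exact ⟨hu', hq.1⟩⟩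
    calc R.card ≤ _ := card_le_card hsub
      _ ≤ ∑ q ∈ β u0, (R.filter (fun u => q ∈ β u)).card := card_biUnion_le
      _ ≤ (β u0).card • k := sum_le_card_nsmul _ _ _ (fun q _ => hRq q)
      _ = k * k := by rw [hcardK u0 hu0N hu0K, smul_eq_mul]
  have hsplit := split_cls (k := k) (r := r) (W := W) (N := N) (cls := cls) g
  unfold XGoal
  rw [hsplit]
  rw [← hGdef, ← hRdef]
  have hw1 := wK_le_one k hk2
  have hkr : (2 : ℝ) ≤ k := by exact_mod_cast hk2
  have hk0 : (0 : ℝ) ≤ (k : ℝ) * (1 - wK k) := mul_nonneg (by linarith) (by linarith)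
  have hGr : ∑ u ∈ G, ctr k r W u ≤ (1 - wK k) * D := by
    refine (sum_ctr_le_r H G hGN).trans ?_
    exact mul_le_mul_of_nonneg_left (castC1 H g) (by linarith)
  by_cases hlt : R.card < k * k
  · -- case 1a
    apply numeric_1a k hk2 D (by linarith) _ _ hGr
    refine (sum_ctr_le_card H R hRN).trans ?_
    apply mul_le_mul_of_nonneg_right _ hk0
    have h1 : R.card + 1 ≤ k * k := hlt
    have h2 : ((R.card : ℝ)) + 1 ≤ k * k := by exact_mod_cast h1
    nlinarith
  · have hReq : R.card = k * k := by omega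
    by_cases hRK : ∀ u ∈ R, ¬ isK u
    · -- case 1b
      apply numeric_1a k hk2 D (by linarith) _ _ hGr
      refine (sum_ctr_le_card_O H R hRN hRK).trans ?_
      rw [hReq]
      push_cast
      have := numeric_O k hk2
      rw [pow_two] at this
      rw [pow_two]
      exact this
    · -- case 1c
      push Not at hRK
      obtain ⟨K', hK'R, hK'K⟩ := hRK
      obtain ⟨hK'N, hK'g⟩ := hmemR K' hK'R
      have hdisj : ∀ x ∈ G.filter isK, ∀ y ∈ G.filter isK, x ≠ y → Disjoint (β x) (β y) := by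
        intro x hx y hy hxy
        rw [disjoint_left]
        intro q hqx hqy
        obtain ⟨hxN, hxg, hxK⟩ := hmemG x hx
        obtain ⟨hyN, hyg, hyK⟩ := hmemG y hy
        have hlin := H.hlin x hxN y hyN hxy
        have hc := card_le_mul_of_meet (R.filter (fun u => ¬ q ∈ β u)) β
          (fun a ha b hb hab => H.hlin a (hRN (mem_filter.mp ha).1) b
            (hRN (mem_filter.mp hb).1) hab)
          ((β x).erase q) ((β y).erase q)
          (by
            rw [disjoint_left]
            intro p hp1 hp2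
            rw [mem_erase] at hp1 hp2
            have hsub : ({q, p} : Finset X) ⊆ β x ∩ β y := by
              intro z hz
              rw [mem_insert, mem_singleton] at hz
              rcases hz with rfl | rfl
              · exact mem_inter.mpr ⟨hqx, hqy⟩
              · exact mem_inter.mpr ⟨hp1.2, hp2.2⟩
            have := card_le_card hsub
            rw [card_pair (fun h => hp1.1 h.symm)] at this
            omega)
          (by
            intro u hu
            rw [mem_filter] at hu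
            obtain ⟨p, hp⟩ := hmeet x hx u hu.1
            rw [mem_inter] at hp
            refine ⟨p, mem_inter.mpr ⟨hp.1, mem_erase.mpr ⟨?_, hp.2⟩⟩⟩
            rintro rfl
            exact hu.2 hp.1)
          (by
            intro u hu
            rw [mem_filter] at hu
            obtain ⟨p, hp⟩ := hmeet y hy u hu.1
            rw [mem_inter] at hp
            refine ⟨p, mem_inter.mpr ⟨hp.1, mem_erase.mpr ⟨?_, hp.2⟩⟩⟩
            rintro rfl
            exact hu.2 hp.1)
        rw [card_erase_of_mem hqx, card_erase_of_mem hqy, hcardK x hxN hxK,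
          hcardK y hyN hyK] at hc
        have hsum := card_filter_add_card_filter_not (s := R) (fun u => q ∈ β u)
        have hq := hRq q
        obtain ⟨m, rfl⟩ : ∃ m, k = m + 2 := ⟨k - 2, by omega⟩
        have e1 : m + 2 - 1 = m + 1 := by omega
        rw [e1] at hc
        nlinarith
      have hKg : (G.filter isK).card ≤ k := by
        have h1 : ∀ u ∈ G.filter isK, 1 ≤ (β K' ∩ β u).card := by
          intro u hu
          have := hmeet u hu K' hK'R
          exact card_pos.mpr this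
        have h2 : ((G.filter isK).biUnion (fun u => β K' ∩ β u)).card
            = ∑ u ∈ G.filter isK, (β K' ∩ β u).card := by
          apply card_biUnion
          intro x hx y hy hxy
          exact Disjoint.mono inter_subset_right inter_subset_right (hdisj x hx y hy hxy)
        have h3 : ((G.filter isK).biUnion (fun u => β K' ∩ β u)) ⊆ β K' := by
          intro p hp
          rw [mem_biUnion] at hp
          obtain ⟨u, -, hu⟩ := hp
          exact (mem_inter.mp hu).1
        have h4 := card_le_card h3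
        rw [hcardK K' hK'N hK'K, h2] at h4
        have h5 := card_nsmul_le_sum (G.filter isK) (fun u => (β K' ∩ β u).card) 1 h1
        rw [smul_eq_mul, mul_one] at h5
        exact h5.trans h4
      have hMK : ∑ u ∈ G.filter isK, r u ≤ k * k := by
        refine (sum_r_K_le H _ ((filter_subset _ _).trans hGN)
          (fun u hu => (mem_filter.mp hu).2)).trans ?_
        exact Nat.mul_le_mul_right k hKg
      have hMKr : ((∑ u ∈ G.filter isK, r u : ℕ) : ℝ) ≤ (k : ℝ) * k := by exact_mod_cast hMK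
      apply numeric_1c k hk2 D (by nlinarith)
      · refine (sum_ctr_le_split H G hGN).trans ?_
        apply add_le_add
        · exact mul_le_mul_of_nonneg_left (castC1 H g) (by linarith [wK_le_rhoK k hk2])
        · exact mul_le_mul_of_nonneg_left hMKr (by linarith [rhoK_le_one k])
      · refine (sum_ctr_le_card H R hRN).trans ?_
        rw [hReq]
        push_cast
        exact le_refl _

/-- members meeting two `K`-members through `q` but avoiding `q` -/
theorem card_avoid_le (H : XHyp k D N isK β a r W cls) (P : Finset ι) (hP : P ⊆ N)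
    (x y : ι) (hx : x ∈ N) (hy : y ∈ N) (hxK : isK x) (hyK : isK y) (hxy : x ≠ y) (q : X)
    (hqx : q ∈ β x) (hqy : q ∈ β y) (hmx : ∀ u ∈ P, (β u ∩ β x).Nonempty)
    (hmy : ∀ u ∈ P, (β u ∩ β y).Nonempty) (hq : ∀ u ∈ P, q ∉ β u) :
    P.card ≤ (k - 1) * (k - 1) := by
  have hlin := H.hlin x hx y hy hxy
  have hc := card_le_mul_of_meet P β
    (fun a ha b hb hab => H.hlin a (hP ha) b (hP hb) hab)
    ((β x).erase q) ((β y).erase q)
    (by
      rw [disjoint_left]
      intro p hp1 hp2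
      rw [mem_erase] at hp1 hp2
      have hsub : ({q, p} : Finset X) ⊆ β x ∩ β y := by
        intro z hz
        rw [mem_insert, mem_singleton] at hz
        rcases hz with rfl | rfl
        · exact mem_inter.mpr ⟨hqx, hqy⟩
        · exact mem_inter.mpr ⟨hp1.2, hp2.2⟩
      have := card_le_card hsub
      rw [card_pair (fun h => hp1.1 h.symm)] at this
      omega)
    (by
      intro u hu
      obtain ⟨p, hp⟩ := hmx u hu
      rw [mem_inter] at hp
      refine ⟨p, mem_inter.mpr ⟨hp.1, mem_erase.mpr ⟨?_, hp.2⟩⟩⟩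
      rintro rfl
      exact hq u hu hp.1)
    (by
      intro u hu
      obtain ⟨p, hp⟩ := hmy u hu
      rw [mem_inter] at hp
      refine ⟨p, mem_inter.mpr ⟨hp.1, mem_erase.mpr ⟨?_, hp.2⟩⟩⟩
      rintro rfl
      exact hq u hu hp.1)
  rwa [card_erase_of_mem hqx, card_erase_of_mem hqy, H.haβ x hx, H.haβ y hy, H.haK x hx hxK,
    H.haK y hy hyK] at hc

theorem goal_case2_ge3 [DecidablePred isK] (H : XHyp k D N isK β a r W cls)
    (hk3 : 3 ≤ k) (hD : k * (k + 1) + 1 ≤ D) (g : γ)
    (q : X) (hq : ∀ u ∈ (N.filter (fun u => cls u = g)).filter isK, q ∈ β u)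
    (hcard : 2 ≤ ((N.filter (fun u => cls u = g)).filter isK).card) :
    XGoal k D N r W := by
  have hk2 := H.hk
  have hDr : (k : ℝ) * (k + 1) + 1 ≤ D := by exact_mod_cast hD
  have hw1 := wK_le_one k hk2
  have hkr : (3 : ℝ) ≤ k := by exact_mod_cast hk3
  have hk0 : (0 : ℝ) ≤ (k : ℝ) * (1 - wK k) := mul_nonneg (by linarith) (by linarith)
  set G := N.filter (fun u => cls u = g) with hGdef
  set R := N.filter (fun u => ¬ cls u = g) with hRdef
  have hGN : G ⊆ N := filter_subset _ _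
  have hRN : R ⊆ N := filter_subset _ _
  have hmemG : ∀ u, u ∈ G.filter isK → u ∈ N ∧ cls u = g ∧ isK u := by
    intro u hu
    rw [mem_filter] at hu
    have h1 := hu.1
    rw [hGdef, mem_filter] at h1
    exact ⟨h1.1, h1.2, hu.2⟩
  have hmemR : ∀ u, u ∈ R → u ∈ N ∧ cls u ≠ g := by
    intro u hu
    rw [hRdef, mem_filter] at hu
    exact hu
  have hmeet : ∀ u ∈ G.filter isK, ∀ u' ∈ R, (β u' ∩ β u).Nonempty := by
    intro u hu u' hu'
    obtain ⟨h1, h2, h3⟩ := hmemG u hu
    obtain ⟨h4, h5⟩ := hmemR u' hu'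
    have := H.hC4 u h1 h3 u' h4 (by rw [h2]; exact fun h => h5 h.symm)
    rwa [inter_comm] at this
  set s := (G.filter isK).card with hsdef
  obtain ⟨x, hx, y, hy, hxy⟩ := one_lt_card.mp (show 1 < (G.filter isK).card by omega)
  obtain ⟨hxN, hxg, hxK⟩ := hmemG x hx
  obtain ⟨hyN, hyg, hyK⟩ := hmemG y hy
  -- members of R avoiding q
  have hav : (R.filter (fun u => ¬ q ∈ β u)).card ≤ (k - 1) * (k - 1) := by
    apply card_avoid_le H _ ((filter_subset _ _).trans hRN) x y hxN hyN hxK hyK hxy q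
      (hq x hx) (hq y hy)
    · exact fun u hu => hmeet x hx u (mem_filter.mp hu).1
    · exact fun u hu => hmeet y hy u (mem_filter.mp hu).1
    · exact fun u hu => (mem_filter.mp hu).2
  have havr : ((R.filter (fun u => ¬ q ∈ β u)).card : ℝ) ≤ ((k : ℝ) - 1) ^ 2 := by
    have h1 : ((k - 1 : ℕ) : ℝ) = (k : ℝ) - 1 := by
      rw [Nat.cast_sub (by omega)]; norm_num
    rw [pow_two, ← h1]
    exact_mod_cast hav
  -- members through q
  have hthru : ∑ u ∈ R.filter (fun u => q ∈ β u), r u + k * s ≤ D := by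
    have h1 := H.hC2 q
    have hdisj : Disjoint (R.filter (fun u => q ∈ β u)) (G.filter isK) := by
      rw [disjoint_left]
      intro u hu1 hu2
      exact (hmemR u (mem_filter.mp hu1).1).2 (hmemG u hu2).2.1
    have hsub : (R.filter (fun u => q ∈ β u)) ∪ (G.filter isK)
        ⊆ N.filter (fun u => q ∈ β u) := by
      intro u hu
      rw [mem_union] at hu
      rw [mem_filter]
      rcases hu with hu | hu
      · exact ⟨hRN (mem_filter.mp hu).1, (mem_filter.mp hu).2⟩
      · exact ⟨(hmemG u hu).1, hq u hu⟩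
    have h2 : ∑ u ∈ (R.filter (fun u => q ∈ β u)) ∪ (G.filter isK), a u
        ≤ ∑ u ∈ N.filter (fun u => q ∈ β u), a u := sum_le_sum_of_subset hsub
    rw [sum_union hdisj] at h2
    have h3 : ∑ u ∈ G.filter isK, a u = s * k := by
      rw [hsdef, ← smul_eq_mul, ← sum_const]
      exact sum_congr rfl fun u hu => H.haK u (hmemG u hu).1 (hmemG u hu).2.2
    have h4 : ∑ u ∈ R.filter (fun u => q ∈ β u), r u ≤ ∑ u ∈ R.filter (fun u => q ∈ β u), a u :=
      sum_le_sum fun u hu => H.hra u (hRN (mem_filter.mp hu).1)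
    rw [h3, mul_comm] at h2
    omega
  have hthrur : ((∑ u ∈ R.filter (fun u => q ∈ β u), r u : ℕ) : ℝ) ≤ (D : ℝ) - k * s := by
    have : ((∑ u ∈ R.filter (fun u => q ∈ β u), r u : ℕ) : ℝ) + k * s ≤ D := by
      exact_mod_cast hthru
    linarith
  have hMK : ∑ u ∈ G.filter isK, r u ≤ k * s := by
    rw [mul_comm]
    exact sum_r_K_le H _ ((filter_subset _ _).trans hGN) (fun u hu => (mem_filter.mp hu).2)
  have hMKr : ((∑ u ∈ G.filter isK, r u : ℕ) : ℝ) ≤ (k : ℝ) * s := by exact_mod_cast hMK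
  have hsplit := split_cls (k := k) (r := r) (W := W) (N := N) (cls := cls) g
  unfold XGoal
  rw [hsplit]
  rw [← hGdef, ← hRdef]
  rw [← sum_filter_add_sum_filter_not R (fun u => q ∈ β u) (fun u => ctr k r W u)]
  have c1 : ∑ u ∈ G, ctr k r W u ≤ (rhoK k - wK k) * D + (1 - rhoK k) * (k * s) := by
    refine (sum_ctr_le_split H G hGN).trans ?_
    apply add_le_add
    · exact mul_le_mul_of_nonneg_left (castC1 H g) (by linarith [wK_le_rhoK k hk2])
    · exact mul_le_mul_of_nonneg_left hMKr (by linarith [rhoK_le_one k])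
  have c2 : ∑ u ∈ R.filter (fun u => q ∈ β u), ctr k r W u ≤ (1 - wK k) * (D - k * s) := by
    refine (sum_ctr_le_r H _ ((filter_subset _ _).trans hRN)).trans ?_
    exact mul_le_mul_of_nonneg_left hthrur (by linarith)
  have c3 : ∑ u ∈ R.filter (fun u => ¬ q ∈ β u), ctr k r W u
      ≤ ((k : ℝ) - 1) ^ 2 * (k * (1 - wK k)) := by
    refine (sum_ctr_le_card H _ ((filter_subset _ _).trans hRN)).trans ?_
    exact mul_le_mul_of_nonneg_right havr hk0
  have hs2 : (2 : ℝ) ≤ s := by exact_mod_cast hcard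
  have := case2_numeric k hk3 D s (by nlinarith) hs2
  linarith

/-- if all members pass through `q`, the inequality holds -/
theorem goal_allthru (H : XHyp k D N isK β a r W cls) (q : X) (hq : ∀ u ∈ N, q ∈ β u) :
    XGoal k D N r W := by
  have hk2 := H.hk
  have hw0 := wK_nonneg k
  have hw1 := wK_le_one k hk2
  have h1 := sum_ctr_le_r H N (Subset.refl N)
  have h2 : ∑ u ∈ N, r u ≤ D := by
    have h3 := H.hC2 q
    rw [filter_true_of_mem hq] at h3
    exact (sum_le_sum H.hra).trans h3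
  have h3 : ((∑ u ∈ N, r u : ℕ) : ℝ) ≤ D := by exact_mod_cast h2
  have h4 : (1 - wK k) * ((∑ u ∈ N, r u : ℕ) : ℝ) ≤ (1 - wK k) * D :=
    mul_le_mul_of_nonneg_left h3 (by linarith)
  have h5 := wK_coef k hk2
  have hk0 : (0 : ℝ) ≤ k := by positivity
  have hD0 : (0 : ℝ) ≤ D := by positivity
  unfold XGoal
  have h6 : ((k : ℝ) - 1) * D + k * (k + 1) - (wK k * ((k : ℝ) + 1) * ((D : ℝ) - k)
      + (1 - wK k) * D) = D * ((k : ℝ) - 2 - wK k * k) + k * (k + 1) * (1 + wK k) := by ring
  have h7 : 0 ≤ (D : ℝ) * ((k : ℝ) - 2 - wK k * k) := mul_nonneg hD0 h5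
  have h8 : 0 ≤ (k : ℝ) * (k + 1) * (1 + wK k) :=
    mul_nonneg (mul_nonneg hk0 (by linarith)) (by linarith)
  linarith

theorem goal_case3 [DecidablePred isK] (H : XHyp k D N isK β a r W cls)
    (hKcard : k * (k + 1) + 1 ≤ (N.filter isK).card)
    (hinj : ∀ u ∈ N.filter isK, ∀ u' ∈ N.filter isK, cls u = cls u' → u = u') :
    XGoal k D N r W := by
  have hk2 := H.hk
  set Kf := N.filter isK with hKf
  have hmem : ∀ u ∈ Kf, u ∈ N ∧ isK u := fun u hu => mem_filter.mp hu
  have hmeet : ∀ u ∈ Kf, ∀ u' ∈ Kf, u ≠ u' → (β u ∩ β u').Nonempty := by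
    intro u hu u' hu' hne
    exact H.hC4 u (hmem u hu).1 (hmem u hu).2 u' (hmem u' hu').1
      (fun h => hne (hinj u hu u' hu' h))
  have hne : Kf.Nonempty := card_pos.mp (by omega)
  obtain ⟨u0, hu0⟩ := hne
  -- pigeonhole
  have hpig : ∃ q ∈ β u0, k + 1 ≤ ((Kf.erase u0).filter (fun u => q ∈ β u)).card := by
    by_contra hcon
    push Not at hcon
    have hsub : Kf.erase u0 ⊆ (β u0).biUnion (fun q => (Kf.erase u0).filter (fun u => q ∈ β u)) := by
      intro u hu
      have hu' := mem_erase.mp hu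
      obtain ⟨q, hq⟩ := hmeet u0 hu0 u hu'.2 (fun h => hu'.1 h.symm)
      rw [mem_inter] at hq
      rw [mem_biUnion]
      exact ⟨q, hq.1, mem_filter.mpr ⟨hu, hq.2⟩⟩
    have h1 := (card_le_card hsub).trans card_biUnion_le
    have h2 : ∑ q ∈ β u0, ((Kf.erase u0).filter (fun u => q ∈ β u)).card ≤ (β u0).card • k :=
      sum_le_card_nsmul _ _ _ (fun q hq => by have := hcon q hq; omega)
    rw [H.haβ u0 (hmem u0 hu0).1, H.haK u0 (hmem u0 hu0).1 (hmem u0 hu0).2, smul_eq_mul] at h2
    rw [card_erase_of_mem hu0] at h1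
    have h3 : k * (k + 1) = k * k + k := by ring
    omega
  obtain ⟨q, hq0, hq⟩ := hpig
  have hKq : ∀ u ∈ Kf, q ∈ β u := by
    intro u hu
    by_contra hqu
    have h1 := card_le_of_star ((Kf.erase u0).filter (fun u => q ∈ β u)) β
      (fun x hx y hy hxy => H.hlin x (hmem x (mem_of_mem_erase (mem_filter.mp hx).1)).1 y
        (hmem y (mem_of_mem_erase (mem_filter.mp hy).1)).1 hxy) q (β u) hqu
      (fun x hx => (mem_filter.mp hx).2)
      (fun x hx => hmeet x (mem_of_mem_erase (mem_filter.mp hx).1) u hu (by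
        rintro rfl
        exact hqu (mem_filter.mp hx).2))
    rw [H.haβ u (hmem u hu).1, H.haK u (hmem u hu).1 (hmem u hu).2] at h1
    omega
  apply goal_allthru H q
  intro u hu
  by_cases hK : isK u
  · exact hKq u (mem_filter.mpr ⟨hu, hK⟩)
  · by_contra hqu
    have hsz := H.haO u hu hK
    -- members of K in a class different from that of u
    have h1 := card_le_of_star (Kf.filter (fun x => ¬ cls x = cls u)) β
      (fun x hx y hy hxy => H.hlin x (hmem x (mem_filter.mp hx).1).1 y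
        (hmem y (mem_filter.mp hy).1).1 hxy) q (β u) hqu
      (fun x hx => hKq x (mem_filter.mp hx).1)
      (fun x hx => H.hC4 x (hmem x (mem_filter.mp hx).1).1 (hmem x (mem_filter.mp hx).1).2 u hu
        (mem_filter.mp hx).2)
    rw [H.haβ u hu] at h1
    have h2 : (Kf.filter (fun x => cls x = cls u)).card ≤ 1 := by
      rw [card_le_one]
      intro x hx y hy
      exact hinj x (mem_filter.mp hx).1 y (mem_filter.mp hy).1
        ((mem_filter.mp hx).2.trans (mem_filter.mp hy).2.symm)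
    have h3 := card_filter_add_card_filter_not (s := Kf) (fun x => cls x = cls u)
    have h4 : 2 * k ≤ k * (k + 1) := by nlinarith
    omega

/-- case 2 for `k = 2`, first part: all of `K` is a star -/
theorem two_star [DecidablePred isK] (H : XHyp 2 D N isK β a r W cls)
    (hKcard : 7 ≤ (N.filter isK).card) (g : γ) (q : X)
    (hq : ∀ u ∈ (N.filter isK).filter (fun u => cls u = g), q ∈ β u)
    (hcard : 2 ≤ ((N.filter isK).filter (fun u => cls u = g)).card)
    (hall : (∀ h, ((N.filter isK).filter (fun u => cls u = h)).card ≤ 2) ∨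
      3 ≤ ((N.filter isK).filter (fun u => cls u = g)).card) :
    ∀ u ∈ N.filter isK, q ∈ β u := by
  set Kf := N.filter isK with hKf
  have hmem : ∀ u ∈ Kf, u ∈ N ∧ isK u := fun u hu => mem_filter.mp hu
  have hcardK : ∀ u ∈ Kf, (β u).card = 2 := by
    intro u hu
    rw [H.haβ u (hmem u hu).1, H.haK u (hmem u hu).1 (hmem u hu).2]
  intro K' hK'
  by_contra hqK'
  have hclsK' : cls K' ≠ g := by
    intro h
    exact hqK' (hq K' (mem_filter.mpr ⟨hK', h⟩))
  have hmeet : ∀ u ∈ Kf, ∀ u' ∈ Kf, cls u ≠ cls u' → (β u ∩ β u').Nonempty := by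
    intro u hu u' hu' hne
    exact H.hC4 u (hmem u hu).1 (hmem u hu).2 u' (hmem u' hu').1 hne
  rcases hall with hall | hall
  · obtain ⟨x, hx, y, hy, hxy⟩ := one_lt_card.mp
      (show 1 < (Kf.filter (fun u => cls u = g)).card by omega)
    obtain ⟨hxK, hxg⟩ := mem_filter.mp hx
    obtain ⟨hyK, hyg⟩ := mem_filter.mp hy
    have hsub : Kf ⊆ (Kf.filter (fun u => cls u = g)) ∪ (Kf.filter (fun u => cls u = cls K')) := by
      intro K'' hK''
      by_contra hcon
      have h1 : cls K'' ≠ g := fun h => hcon (mem_union_left _ (mem_filter.mpr ⟨hK'', h⟩))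
      have h2 : cls K'' ≠ cls K' := fun h => hcon (mem_union_right _ (mem_filter.mpr ⟨hK'', h⟩))
      by_cases hq'' : q ∈ β K''
      · have hS := card_le_of_star ({x, y, K''} : Finset ι) β
          (fun u hu v hv huv => H.hlin u (by
            rw [mem_insert, mem_insert, mem_singleton] at hu
            rcases hu with rfl | rfl | rfl
            · exact (hmem _ hxK).1
            · exact (hmem _ hyK).1
            · exact (hmem _ hK'').1) v (by
            rw [mem_insert, mem_insert, mem_singleton] at hv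
            rcases hv with rfl | rfl | rfl
            · exact (hmem _ hxK).1
            · exact (hmem _ hyK).1
            · exact (hmem _ hK'').1) huv) q (β K') hqK'
          (by
            intro u hu
            rw [mem_insert, mem_insert, mem_singleton] at hu
            rcases hu with rfl | rfl | rfl
            · exact hq _ hx
            · exact hq _ hy
            · exact hq'')
          (by
            intro u hu
            rw [mem_insert, mem_insert, mem_singleton] at hu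
            rcases hu with rfl | rfl | rfl
            · exact hmeet _ hxK K' hK' (by rw [hxg]; exact hclsK'.symm)
            · exact hmeet _ hyK K' hK' (by rw [hyg]; exact hclsK'.symm)
            · exact hmeet _ hK'' K' hK' h2)
        rw [hcardK K' hK'] at hS
        have h3 : ({x, y, K''} : Finset ι).card = 3 := by
          apply card_eq_three.mpr
          refine ⟨x, y, K'', hxy, ?_, ?_, rfl⟩
          · rintro rfl; exact h1 hxg
          · rintro rfl; exact h1 hyg
        omega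
      · have hne : K' ≠ K'' := by
          rintro rfl; exact h2 rfl
        have hS := card_avoid_le H ({K', K''} : Finset ι)
          (by
            intro u hu
            rw [mem_insert, mem_singleton] at hu
            rcases hu with rfl | rfl
            · exact (hmem _ hK').1
            · exact (hmem _ hK'').1)
          x y (hmem x hxK).1 (hmem y hyK).1 (hmem x hxK).2 (hmem y hyK).2 hxy q
          (hq x hx) (hq y hy)
          (by
            intro u hu
            rw [mem_insert, mem_singleton] at hu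
            rcases hu with rfl | rfl
            · exact hmeet _ hK' x hxK (by rw [hxg]; exact hclsK')
            · exact hmeet _ hK'' x hxK (by rw [hxg]; exact h1))
          (by
            intro u hu
            rw [mem_insert, mem_singleton] at hu
            rcases hu with rfl | rfl
            · exact hmeet _ hK' y hyK (by rw [hyg]; exact hclsK')
            · exact hmeet _ hK'' y hyK (by rw [hyg]; exact h1))
          (by
            intro u hu
            rw [mem_insert, mem_singleton] at hu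
            rcases hu with rfl | rfl
            · exact hqK'
            · exact hq'')
        rw [card_pair hne] at hS
        omega
    have h1 := (card_le_card hsub).trans (card_union_le _ _)
    have h2 := hall g
    have h3 := hall (cls K')
    omega
  · have hS := card_le_of_star (Kf.filter (fun u => cls u = g)) β
      (fun u hu v hv huv => H.hlin u (hmem u (mem_filter.mp hu).1).1 v
        (hmem v (mem_filter.mp hv).1).1 huv) q (β K') hqK' hq
      (fun u hu => hmeet u (mem_filter.mp hu).1 K' hK' (by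
        rw [(mem_filter.mp hu).2]; exact hclsK'.symm))
    rw [hcardK K' hK'] at hS
    omega

theorem goal_two [DecidablePred isK] (H : XHyp 2 D N isK β a r W cls)
    (hKcard : 7 ≤ (N.filter isK).card) (q : X) (hKq : ∀ u ∈ N.filter isK, q ∈ β u) :
    XGoal 2 D N r W := by
  set Kf := N.filter isK with hKf
  have hmem : ∀ u ∈ Kf, u ∈ N ∧ isK u := fun u hu => mem_filter.mp hu
  by_cases hall : ∀ u ∈ N, q ∈ β u
  · exact goal_allthru H q hall
  push Not at hall
  obtain ⟨u', hu', hqu'⟩ := hall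
  have hbound : ∀ v ∈ N, q ∉ β v → (Kf.filter (fun x => ¬ cls x = cls v)).card ≤ 3 := by
    intro v hv hqv
    have hvK : ¬ isK v := fun h => hqv (hKq v (mem_filter.mpr ⟨hv, h⟩))
    have h1 := card_le_of_star (Kf.filter (fun x => ¬ cls x = cls v)) β
      (fun x hx y hy hxy => H.hlin x (hmem x (mem_filter.mp hx).1).1 y
        (hmem y (mem_filter.mp hy).1).1 hxy) q (β v) hqv
      (fun x hx => hKq x (mem_filter.mp hx).1)
      (fun x hx => H.hC4 x (hmem x (mem_filter.mp hx).1).1 (hmem x (mem_filter.mp hx).1).2 v hv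
        (mem_filter.mp hx).2)
    rw [H.haβ v hv] at h1
    have h2 := H.haO v hv hvK
    omega
  have hT := hbound u' hu' hqu'
  set d := cls u' with hd
  have hRq : ∀ v ∈ N, ¬ cls v = d → q ∈ β v := by
    intro v hv hcv
    by_contra hqv
    have hT' := hbound v hv hqv
    have hsub : Kf ⊆ (Kf.filter (fun x => ¬ cls x = d)) ∪ (Kf.filter (fun x => ¬ cls x = cls v)) := by
      intro x hx
      by_cases h : cls x = d
      · exact mem_union_right _ (mem_filter.mpr ⟨hx, fun h' => hcv (h'.symm.trans h)⟩)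
      · exact mem_union_left _ (mem_filter.mpr ⟨hx, h⟩)
    have := (card_le_card hsub).trans (card_union_le _ _)
    omega
  set G := N.filter (fun u => cls u = d) with hGdef
  set R := N.filter (fun u => ¬ cls u = d) with hRdef
  have hGN : G ⊆ N := filter_subset _ _
  have hRN : R ⊆ N := filter_subset _ _
  set s := (G.filter isK).card with hsdef
  have hMK : ∑ u ∈ G.filter isK, r u ≤ s * 2 :=
    sum_r_K_le H _ ((filter_subset _ _).trans hGN) (fun u hu => (mem_filter.mp hu).2)
  have hRK : (R.filter isK).card ≤ 3 := by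
    have : R.filter isK = Kf.filter (fun x => ¬ cls x = d) := by
      rw [hRdef, hKf, filter_filter, filter_filter]
      ext x
      simp only [mem_filter]
      tauto
    rw [this]; exact hT
  have hMR : ∑ u ∈ R.filter isK, r u ≤ 6 := by
    have := sum_r_K_le H _ ((filter_subset _ _).trans hRN)
      (fun u hu => (mem_filter.mp hu).2 : ∀ u ∈ R.filter isK, isK u)
    omega
  -- everything in R and G.filter isK passes through q
  have hthru : ∑ u ∈ R, r u + 2 * s ≤ D := by
    have h1 := H.hC2 q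
    have hdisj : Disjoint R (G.filter isK) := by
      rw [disjoint_left]
      intro u hu1 hu2
      rw [hRdef, mem_filter] at hu1
      rw [mem_filter, hGdef, mem_filter] at hu2
      exact hu1.2 hu2.1.2
    have hsub : R ∪ (G.filter isK) ⊆ N.filter (fun u => q ∈ β u) := by
      intro u hu
      rw [mem_union] at hu
      rw [mem_filter]
      rcases hu with hu | hu
      · rw [hRdef, mem_filter] at hu
        exact ⟨hu.1, hRq u hu.1 hu.2⟩
      · rw [mem_filter, hGdef, mem_filter] at hu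
        exact ⟨hu.1.1, hKq u (mem_filter.mpr ⟨hu.1.1, hu.2⟩)⟩
    have h2 : ∑ u ∈ R ∪ (G.filter isK), a u ≤ ∑ u ∈ N.filter (fun u => q ∈ β u), a u :=
      sum_le_sum_of_subset hsub
    rw [sum_union hdisj] at h2
    have h3 : ∑ u ∈ G.filter isK, a u = s * 2 := by
      rw [hsdef, ← smul_eq_mul, ← sum_const]
      exact sum_congr rfl fun u hu => H.haK u (hGN (mem_filter.mp hu).1) (mem_filter.mp hu).2
    have h4 : ∑ u ∈ R, r u ≤ ∑ u ∈ R, a u := sum_le_sum fun u hu => H.hra u (hRN hu)
    omega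
  have hsplit := split_cls (k := 2) (r := r) (W := W) (N := N) (cls := cls) d
  have hw : wK 2 = 0 := by unfold wK; rw [if_pos (by norm_num)]
  have hρ : rhoK 2 = 1 / 3 := by unfold rhoK; norm_num
  have c1 := sum_ctr_le_split H G hGN
  have c2 := sum_ctr_le_split H R hRN
  have e1 := castC1 H d
  rw [← hGdef] at e1
  have e2 : ((∑ u ∈ G.filter isK, r u : ℕ) : ℝ) ≤ s * 2 := by exact_mod_cast hMK
  have e3 : ((∑ u ∈ R.filter isK, r u : ℕ) : ℝ) ≤ 6 := by exact_mod_cast hMR
  have e4 : ((∑ u ∈ R, r u : ℕ) : ℝ) + 2 * s ≤ D := by exact_mod_cast hthru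
  have e5 : (0 : ℝ) ≤ ((∑ u ∈ R, r u : ℕ) : ℝ) := by positivity
  unfold XGoal
  rw [hsplit, ← hGdef, ← hRdef]
  rw [hw, hρ] at c1 c2
  rw [hw]
  push_cast
  push_cast at c1 c2 e1 e2 e3 e4 e5
  linarith

/-- **Lemma X_k.** -/
theorem lemma_X (H : XHyp k D N isK β a r W cls) : XGoal k D N r W := by
  classical
  have hk2 := H.hk
  by_cases hT1 : D ≤ k * (k + 1)
  · exact goal_T1 H hT1
  by_cases hT2 : ∑ u ∈ N.filter isK, r u ≤ k ^ 2 * (k + 1)
  · exact goal_T2 H hT2
  push Not at hT1 hT2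
  have hD : k * (k + 1) + 1 ≤ D := hT1
  have hKcard : k * (k + 1) + 1 ≤ (N.filter isK).card := by
    by_contra hcon
    push Not at hcon
    have h1 := sum_r_K_le H (N.filter isK) (filter_subset _ _) (fun u hu => (mem_filter.mp hu).2)
    have h2 : (N.filter isK).card * k ≤ k * (k + 1) * k := Nat.mul_le_mul_right k (by omega)
    have h3 : k * (k + 1) * k = k ^ 2 * (k + 1) := by ring
    omega
  have hcomm : ∀ g, (N.filter (fun u => cls u = g)).filter isK
      = (N.filter isK).filter (fun u => cls u = g) := by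
    intro g
    rw [filter_filter, filter_filter]
    ext x
    simp only [mem_filter]
    tauto
  by_cases hc1 : ∃ g, ((N.filter (fun u => cls u = g)).filter isK).Nonempty ∧
      ∀ q, ∃ u ∈ (N.filter (fun u => cls u = g)).filter isK, q ∉ β u
  · obtain ⟨g, h1, h2⟩ := hc1
    exact goal_case1 H hD g h1 h2
  push Not at hc1
  by_cases hc3 : ∀ u ∈ N.filter isK, ∀ u' ∈ N.filter isK, cls u = cls u' → u = u'
  · exact goal_case3 H hKcard hc3
  push Not at hc3
  obtain ⟨x, hx, y, hy, hxy, hne⟩ := hc3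
  have h2 : 2 ≤ ((N.filter isK).filter (fun u => cls u = cls x)).card := by
    apply one_lt_card.mpr
    exact ⟨x, mem_filter.mpr ⟨hx, rfl⟩, y, mem_filter.mpr ⟨hy, hxy.symm⟩, hne⟩
  by_cases hk3 : 3 ≤ k
  · obtain ⟨q, hq⟩ := hc1 (cls x) (by rw [hcomm]; exact card_pos.mp (by omega))
    exact goal_case2_ge3 H hk3 hD (cls x) q hq (by rw [hcomm]; exact h2)
  · have hkeq : k = 2 := by omega
    subst hkeq
    by_cases h3 : ∃ g, 3 ≤ ((N.filter isK).filter (fun u => cls u = g)).card
    · obtain ⟨g, hg⟩ := h3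
      obtain ⟨q, hq⟩ := hc1 g (by rw [hcomm]; exact card_pos.mp (by omega))
      rw [hcomm] at hq
      exact goal_two H (by omega) q
        (two_star H (by omega) g q hq (by omega) (Or.inr hg))
    · push Not at h3
      obtain ⟨q, hq⟩ := hc1 (cls x) (by rw [hcomm]; exact card_pos.mp (by omega))
      rw [hcomm] at hq
      exact goal_two H (by omega) q
        (two_star H (by omega) (cls x) q hq h2 (Or.inl (fun h => by have := h3 h; omega)))

end main

end Pool.Agent.UQ.XL
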