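import Pool.Agent.UQ.Defs
import Pool.Agent.UQ.Prices
import Pool.Agent.UQ.XLemma

set_option autoImplicit false

namespace Pool.Agent.UQ

open Finset

theorem wk_nonneg' (k : ℕ) : 0 ≤ wk k := XL.wK_nonneg k

theorem wk_le_rho' (k : ℕ) (hk : 2 ≤ k) : wk k ≤ rho k := XL.wK_le_rhoK k hk

/-- Section 6, weights. `a = a_u`, `P = Σ_{β(u)} p`. -/
theorem w_base (k : ℕ) (hk : 2 ≤ k) : 2 * (k : ℝ) * pr (k + 1) - 1 ≤ wk k := by
  have h0 := wk_nonneg' k
  by_cases h5 : 5 ≤ k
  · have h1 : pr (k + 1) = 1 / (2 * (k : ℝ)) := by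
      unfold pr
      rw [if_neg (by omega), if_neg (by omega)]
      push_cast
      ring_nf
    rw [h1]
    have hk0 : (0 : ℝ) < k := by exact_mod_cast (by omega : 0 < k)
    have : 2 * (k : ℝ) * (1 / (2 * (k : ℝ))) = 1 := by field_simp
    rw [this]
    linarith
  · have h : k = 2 ∨ k = 3 ∨ k = 4 := by omega
    rcases h with rfl | rfl | rfl
    · unfold pr wk; norm_num
    · unfold pr wk; norm_num
    · unfold pr wk; norm_num

theorem w_max_iff (k : ℕ) (b W : ℝ) (h1 : 2 * (k : ℝ) * pr (k + 1) - 1 ≤ W)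
    (h2 : 2 * (k : ℝ) * b - 1 ≤ W) : 2 * (k : ℝ) * max (pr (k + 1)) b - 1 ≤ W := by
  rcases le_total (pr (k + 1)) b with h | h
  · rw [max_eq_right h]; exact h2
  · rw [max_eq_left h]; exact h1

theorem w_big (k a : ℕ) (hk : 2 ≤ k) (ha : 2 * k ≤ a) (P : ℝ) (hP : 0 ≤ P) :
    2 * (k : ℝ) * max (pr (k + 1)) (1 / (a : ℝ) - P) - 1 ≤ wk k := by
  apply w_max_iff k _ _ (w_base k hk)
  have h0 := wk_nonneg' k
  have hkr : (2 : ℝ) ≤ k := by exact_mod_cast hk
  have har : 2 * (k : ℝ) ≤ a := by exact_mod_cast ha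
  have h1 : 2 * (k : ℝ) * (1 / (a : ℝ)) ≤ 1 := by
    rw [mul_one_div, div_le_one (by linarith)]
    exact har
  have h2 : 0 ≤ 2 * (k : ℝ) * P := by positivity
  nlinarith

/-- the decreasing function of `a` -/
theorem w_level_aux (k a : ℝ) (hk : 2 ≤ k) (ha : k ≤ a) :
    2 * k * (1 / a) - 2 * k * (1 / (2 * (k + a - 2))) - 1
      ≤ 1 - k / (2 * (k - 1)) := by
  have hk0 : 0 < k := by linarith
  have ha0 : 0 < a := by linarith
  have h1 : 0 < k - 1 := by linarith
  have h2 : 0 < k + a - 2 := by linarith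
  have key : 1 - k / (2 * (k - 1)) - (2 * k * (1 / a) - 2 * k * (1 / (2 * (k + a - 2))) - 1)
      = (a - k) * (2 / a - k / ((2 * (k - 1)) * (k + a - 2))) := by
    field_simp
    ring
  have h3 : 0 ≤ 2 / a - k / ((2 * (k - 1)) * (k + a - 2)) := by
    rw [sub_nonneg, div_le_div_iff₀ (by positivity) ha0]
    have h4 : k ≤ 2 * (k - 1) := by linarith
    have h5 : a ≤ k + a - 2 := by linarith
    nlinarith [mul_le_mul h4 h5 ha0.le (by linarith : (0:ℝ) ≤ 2 * (k - 1))]
  have h6 := mul_nonneg (sub_nonneg.mpr ha) h3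
  linarith

theorem w_level (k a : ℕ) (hk : 2 ≤ k) (ha : k ≤ a) (P : ℝ) (hP : pr (k + a - 1) ≤ P) :
    2 * (k : ℝ) * max (pr (k + 1)) (1 / (a : ℝ) - P) - 1 ≤ wk k := by
  apply w_max_iff k _ _ (w_base k hk)
  have h0 := wk_nonneg' k
  have hkr : (2 : ℝ) ≤ k := by exact_mod_cast hk
  have har : (k : ℝ) ≤ a := by exact_mod_cast ha
  have hlow := pr_lower (k + a - 1) (by omega)
  have hcast : ((k + a - 1 : ℕ) : ℝ) = k + a - 1 := by
    rw [Nat.cast_sub (by omega)]; push_cast; ring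
  rw [hcast] at hlow
  have e1 : (2 * ((k : ℝ) + a - 1 - 1)) = 2 * ((k : ℝ) + a - 2) := by ring
  rw [e1] at hlow
  have hmul : 2 * (k : ℝ) * pr (k + a - 1) ≤ 2 * (k : ℝ) * P :=
    mul_le_mul_of_nonneg_left hP (by linarith)
  have hmul2 : 2 * (k : ℝ) * (1 / (2 * ((k : ℝ) + a - 2))) ≤ 2 * (k : ℝ) * pr (k + a - 1) :=
    mul_le_mul_of_nonneg_left hlow (by linarith)
  have haux := w_level_aux k a hkr har
  have hexp : 2 * (k : ℝ) * (1 / (a : ℝ) - P) = 2 * (k : ℝ) * (1 / (a : ℝ)) - 2 * (k : ℝ) * P := by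
    ring
  rw [hexp]
  by_cases h4 : 4 ≤ k
  · have hk4 : (4 : ℝ) ≤ k := by exact_mod_cast h4
    have hw : wk k = 1 - (k : ℝ) / (2 * ((k : ℝ) - 1)) := by
      unfold wk
      rw [if_neg (by omega)]
      have : (2 * ((k : ℝ) - 1)) ≠ 0 := by
        have : (0 : ℝ) < 2 * ((k : ℝ) - 1) := by linarith
        exact this.ne'
      rw [eq_sub_iff_add_eq, ← add_div, div_eq_one_iff_eq this]
      ring
    rw [hw]
    linarith
  · have h : k = 2 ∨ k = 3 := by omega
    rcases h with rfl | rfl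
    · have h22 : (1 : ℝ) - (2 : ℝ) / (2 * ((2 : ℝ) - 1)) = 0 := by norm_num
      push_cast at *
      rw [h22] at haux
      linarith
    · by_cases ha3 : a = 3
      · subst ha3
        have : pr (3 + 3 - 1) = 1 / 6 := by unfold pr; norm_num
        rw [this] at hP
        push_cast
        norm_num
        linarith
      · have ha4 : 4 ≤ a := by omega
        have ha4r : (4 : ℝ) ≤ a := by exact_mod_cast ha4
        push_cast at *
        have h6 : 2 * (3 : ℝ) * (1 / (a : ℝ)) - 2 * 3 * (1 / (2 * (3 + (a : ℝ) - 2))) - 1 ≤ 0 := by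
          have ha0 : (0 : ℝ) < a := by linarith
          have ha1 : (0 : ℝ) < 3 + a - 2 := by linarith
          have : 2 * (3 : ℝ) * (1 / (a : ℝ)) - 2 * 3 * (1 / (2 * (3 + (a : ℝ) - 2))) - 1
              = -(((a : ℝ) ^ 2 - 2 * a - 6) / (a * (3 + a - 2))) := by
            field_simp
            ring
          rw [this, neg_nonpos]
          apply div_nonneg
          · nlinarith
          · positivity
        linarith

theorem w_K (k : ℕ) (hk : 2 ≤ k) (P : ℝ) (hP : 0 ≤ P) :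
    2 * (k : ℝ) * max (pr (k + 1)) (1 / (k : ℝ) - P) - 1 ≤ 1 := by
  have hkr : (2 : ℝ) ≤ k := by exact_mod_cast hk
  apply w_max_iff
  · have h1 := pr_mul_le (k + 1) (by omega)
    have h2 := pr_pos (k + 1) (by omega)
    push_cast at h1
    nlinarith
  · have h1 : 2 * (k : ℝ) * (1 / (k : ℝ) - P) = 2 - 2 * k * P := by
      field_simp
    rw [h1]
    have : 0 ≤ 2 * (k : ℝ) * P := by positivity
    linarith

theorem w_O1 (k : ℕ) (hk : 2 ≤ k) (P : ℝ) (hP : pr (3 * k - 2) ≤ P) :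
    2 * (k : ℝ) * max (pr (k + 1)) (1 / (k : ℝ) - P) - 1 ≤ rho k ∧
    (k : ℝ) * (2 * (k : ℝ) * max (pr (k + 1)) (1 / (k : ℝ) - P) - 1) ≤ (k : ℝ) - 1 := by
  have hkr : (2 : ℝ) ≤ k := by exact_mod_cast hk
  have hlow := pr_lower (3 * k - 2) (by omega)
  have hcast : ((3 * k - 2 : ℕ) : ℝ) = 3 * k - 2 := by
    rw [Nat.cast_sub (by omega)]; push_cast; ring
  rw [hcast] at hlow
  have hρ : rho k * ((k : ℝ) + 1) = (k : ℝ) - 1 := XL.rhoK_mul k
  have h1 : 2 * (k : ℝ) * max (pr (k + 1)) (1 / (k : ℝ) - P) - 1 ≤ rho k := by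
    apply w_max_iff
    · exact (w_base k hk).trans (wk_le_rho' k hk)
    · have hmul : 2 * (k : ℝ) * (1 / (2 * ((3 * k - 2 : ℝ) - 1))) ≤ 2 * (k : ℝ) * P :=
        mul_le_mul_of_nonneg_left (hlow.trans hP) (by linarith)
      have e1 : 2 * (k : ℝ) * (1 / (2 * ((3 * k - 2 : ℝ) - 1))) = k / (3 * (k - 1)) := by
        have : (0 : ℝ) < (k : ℝ) - 1 := by linarith
        have e2 : ((3 * k - 2 : ℝ) - 1) = 3 * (k - 1) := by ring
        rw [e2]
        field_simp
      rw [e1] at hmul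
      have e3 : 2 * (k : ℝ) * (1 / (k : ℝ) - P) = 2 - 2 * k * P := by field_simp
      rw [e3]
      have e4 : 1 - rho k ≤ k / (3 * ((k : ℝ) - 1)) := by
        have e5 : 1 - rho k = 2 / ((k : ℝ) + 1) := by
          unfold rho
          field_simp
          ring
        rw [e5, div_le_div_iff₀ (by linarith) (by linarith)]
        have : (0 : ℝ) ≤ ((k : ℝ) - 2) * (k - 3) := by
          by_cases h2 : k = 2
          · subst h2; norm_num
          · have : (3 : ℝ) ≤ k := by exact_mod_cast (by omega : 3 ≤ k)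
            exact mul_nonneg (by linarith) (by linarith)
        nlinarith
      linarith
  refine ⟨h1, ?_⟩
  have h2 : (k : ℝ) * (2 * (k : ℝ) * max (pr (k + 1)) (1 / (k : ℝ) - P) - 1) ≤ k * rho k :=
    mul_le_mul_of_nonneg_left h1 (by linarith)
  have h3 : 0 ≤ rho k := XL.rhoK_nonneg k hk
  nlinarith

theorem w_O2 (k a : ℕ) (hk : 2 ≤ k) (ha : k + 1 ≤ a) (ha' : a ≤ 2 * k - 1) (P : ℝ) (hP : 0 ≤ P) :
    2 * (k : ℝ) * max (pr (k + 1)) (1 / (a : ℝ) - P) - 1 ≤ rho k ∧
    (a : ℝ) * (2 * (k : ℝ) * max (pr (k + 1)) (1 / (a : ℝ) - P) - 1) ≤ (k : ℝ) - 1 := by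
  have hkr : (2 : ℝ) ≤ k := by exact_mod_cast hk
  have har : (k : ℝ) + 1 ≤ a := by exact_mod_cast ha
  have har' : (a : ℝ) ≤ 2 * k - 1 := by
    have h : a + 1 ≤ 2 * k := by omega
    have : (a : ℝ) + 1 ≤ 2 * k := by exact_mod_cast h
    linarith
  have hρ : rho k * ((k : ℝ) + 1) = (k : ℝ) - 1 := XL.rhoK_mul k
  have ha0 : (0 : ℝ) < a := by linarith
  have hkaP : 0 ≤ 2 * (k : ℝ) * P := by positivity
  constructor
  · apply w_max_iff
    · exact (w_base k hk).trans (wk_le_rho' k hk)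
    · have e1 : 2 * (k : ℝ) * (1 / (a : ℝ)) ≤ 1 + rho k := by
        rw [mul_one_div, div_le_iff₀ ha0]
        have h3 : 0 ≤ rho k := XL.rhoK_nonneg k hk
        nlinarith
      nlinarith
  · rcases le_total (pr (k + 1)) (1 / (a : ℝ) - P) with h | h
    · rw [max_eq_right h]
      have e1 : (a : ℝ) * (2 * (k : ℝ) * (1 / (a : ℝ) - P) - 1) = 2 * k - a * (2 * k * P) - a := by
        field_simp
      rw [e1]
      have : 0 ≤ (a : ℝ) * (2 * k * P) := by positivity
      linarith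
    · rw [max_eq_left h]
      by_cases h4 : k = 4
      · subst h4
        have : pr (4 + 1) = 1 / 6 := by unfold pr; norm_num
        rw [this]
        push_cast at *
        linarith
      · have h5 : 2 * (k : ℝ) * pr (k + 1) - 1 = 0 := by
          by_cases h5 : 5 ≤ k
          · have h1 : pr (k + 1) = 1 / (2 * (k : ℝ)) := by
              unfold pr
              rw [if_neg (by omega), if_neg (by omega)]
              push_cast
              ring_nf
            rw [h1]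
            field_simp
            ring
          · have h : k = 2 ∨ k = 3 := by omega
            rcases h with rfl | rfl
            · unfold pr; norm_num
            · unfold pr; norm_num
        rw [h5, mul_zero]
        linarith

end Pool.Agent.UQ
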