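import Pool.Agent.UQ.Defs
import Pool.Agent.UQ.Mono
import Pool.Agent.UQ.Tight
import Pool.Agent.UQ.HLem
import Pool.Agent.UQ.NeedyTouch

set_option autoImplicit false

namespace Pool.Agent.UQ

open Finset

variable {α χ : Type} [Fintype α] [DecidableEq α] [Fintype χ] [DecidableEq χ]

/-- basic facts on a spanned needy edge -/
theorem c4_basic (c : Cfg α χ) {u : Finset χ} (hu : u ∈ c.Sp) {z : χ} (hz : c.tch u = {z}) :
    u ∈ c.T ∧ u ∉ c.B ∧ u ∈ c.Nd ∧ 3 ≤ u.card ∧ z ∈ u ∧ c.bt u = u.erase z ∧
      z ∈ c.S u.card ∪ (c.At u.card).image c.μ := by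
  have h1 := mem_filter.mp hu
  have h2 := mem_filter.mp h1.1
  obtain ⟨z0, h3, _, h5, h6⟩ := needy_touch c h1.1
  have h7 : z0 = z := by
    rw [hz] at h5
    exact (singleton_injective h5).symm
  subst h7
  refine ⟨h2.1, h2.2.1, h1.1, c.hT u h2.1, h3, h6, ?_⟩
  apply h1.2
  rw [hz]
  exact mem_singleton_self _

/-- (C4) -/
theorem c4 (c : Cfg α χ) {v u u' : Finset χ} {z z' : χ} (hv : v ∈ c.B) (hu : u ∈ c.Sp)
    (hu' : u' ∈ c.Sp) (hz : c.tch u = {z}) (hz' : c.tch u' = {z'})
    (hn : NL c.Γ (vs c.B \ v) z) (hn' : NL c.Γ (vs c.B \ v) z')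
    (hpar : ¬ Par c.Γ (vs c.B \ v) z z')
    (hc : u.card = v.card) (hle : v.card ≤ u'.card)
    (hb : Disjoint (c.bt u) (c.Z (u.card + u'.card - 3)))
    (hb' : Disjoint (c.bt u') (c.Z (u.card + u'.card - 3))) :
    ¬ Disjoint (c.bt u) (c.bt u') := by
  intro hd
  obtain ⟨hT, hB, hNd, h3, hzu, hbt, hsp⟩ := c4_basic c hu hz
  obtain ⟨hT', hB', hNd', h3', hzu', hbt', hsp'⟩ := c4_basic c hu' hz'
  set m := u.card + u'.card - 3 with hm
  have hum : u.card ≤ m := by omega
  have hum' : u'.card ≤ m := by omega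
  have hne : z ≠ z' := fun h => hpar (Or.inl h)
  have hmiss : Miss c.Γ ((vs c.B \ v) ∪ {z, z'}) := by
    by_contra h
    exact hpar (Or.inr h)
  have hSm : c.S u'.card ⊆ c.S m := S_mono c hum'
  have hSZ : c.S m ⊆ c.Z m := subset_union_left
  have hAtZ : (c.At m).image c.μ ⊆ c.Z m :=
    (image_subset_image (At_sub_Ah c m)).trans subset_union_right
  have hspm : z ∈ c.S m ∪ (c.At m).image c.μ := by
    rcases mem_union.mp hsp with h | h
    · exact mem_union_left _ (S_mono c hum h)
    · exact mem_union_right _ (image_subset_image (At_mono c hum) h)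
  have hspm' : z' ∈ c.S m ∪ (c.At m).image c.μ := by
    rcases mem_union.mp hsp' with h | h
    · exact mem_union_left _ (S_mono c hum' h)
    · exact mem_union_right _ (image_subset_image (At_mono c hum') h)
  have hzZ : z ∈ c.Z m := by
    rcases mem_union.mp hspm with h | h
    · exact hSZ h
    · exact hAtZ h
  have hzZ' : z' ∈ c.Z m := by
    rcases mem_union.mp hspm' with h | h
    · exact hSZ h
    · exact hAtZ h
  have hmemu : ∀ x ∈ u, x = z ∨ x ∈ c.bt u := by
    intro x hx
    by_cases h : x = z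
    · exact Or.inl h
    · right; rw [hbt]; exact mem_erase.mpr ⟨h, hx⟩
  have hmemu' : ∀ x ∈ u', x = z' ∨ x ∈ c.bt u' := by
    intro x hx
    by_cases h : x = z'
    · exact Or.inl h
    · right; rw [hbt']; exact mem_erase.mpr ⟨h, hx⟩
  have hbZ : ∀ x ∈ c.bt u, x ∉ c.Z m := fun x hx h => (disjoint_left.mp hb) hx h
  have hbZ' : ∀ x ∈ c.bt u', x ∉ c.Z m := fun x hx h => (disjoint_left.mp hb') hx h
  have hduu : Disjoint u u' := by
    rw [disjoint_left]
    intro x hx hx'
    rcases hmemu x hx with rfl | h1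
    · rcases hmemu' x hx' with rfl | h2
      · exact hne rfl
      · exact hbZ' x h2 hzZ
    · rcases hmemu' x hx' with rfl | h2
      · exact hbZ x h1 hzZ'
      · exact (disjoint_left.mp hd) h1 h2
  have hvsub : vs (low c.B u'.card) ⊆ vs c.B := S_sub c u'.card
  have hdu : Disjoint u (vs (low c.B u'.card) \ v) := by
    rw [disjoint_left]
    intro x hx hx'
    rw [mem_sdiff] at hx'
    rcases hmemu x hx with rfl | h1
    · exact hn.1 (mem_sdiff.mpr ⟨hvsub hx'.1, hx'.2⟩)
    · exact hbZ x h1 (hSZ (hSm hx'.1))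
  have hdu' : Disjoint u' (vs (low c.B u'.card) \ v) := by
    rw [disjoint_left]
    intro x hx hx'
    rw [mem_sdiff] at hx'
    rcases hmemu' x hx with rfl | h1
    · exact hn'.1 (mem_sdiff.mpr ⟨hvsub hx'.1, hx'.2⟩)
    · exact hbZ' x h1 (hSZ (hSm hx'.1))
  apply c.e2 v hv u hT u' hT' hB hB' hc hle hduu hdu hdu'
  -- missability
  intro A
  set A0 := c.At m with hA0
  set I := c.bt u ∪ c.bt u' with hI
  have hIZ : Disjoint I (c.Z m) := disjoint_union_left.mpr ⟨hb, hb'⟩
  have hIc : I.card ≤ m + 1 := by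
    have := card_union_le (c.bt u) (c.bt u')
    rw [bt_card c hNd, bt_card c hNd'] at this
    rw [hI]
    omega
  have hH2 := H2 c m I hIZ hIc
  have hnbA0 : nb c.Γ A0 \ c.S m = A0.image c.μ := nb_At c m
  have hnbA0' : ∀ x ∈ nb c.Γ A0, x ∈ c.S m ∨ x ∈ A0.image c.μ := by
    intro x hx
    by_cases h : x ∈ c.S m
    · exact Or.inl h
    · right; rw [← hnbA0]; exact mem_sdiff.mpr ⟨hx, h⟩
  set P1 := nb c.Γ (A ∩ A0) \ ((vs c.B \ v) ∪ {z, z'}) with hP1
  set P2 := (nb c.Γ (A ∪ A0) \ (c.S m ∪ I)) \ A0.image c.μ with hP2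
  have hP1c : (A ∩ A0).card ≤ P1.card := hmiss _
  have hP2c : (A \ A0).card ≤ P2.card := by
    have h1 := hH2 (A ∪ A0)
    have h2 := le_card_sdiff (A0.image c.μ) (nb c.Γ (A ∪ A0) \ (c.S m ∪ I))
    rw [card_image_mu] at h2
    have h4 : (A ∪ A0).card = (A \ A0).card + A0.card := by
      rw [← card_union_of_disjoint sdiff_disjoint, sdiff_union_self_eq_union]
    rw [hP2]
    omega
  have hP1m : ∀ x ∈ P1, x ∈ c.S m ∨ x ∈ A0.image c.μ := by
    intro x hx
    apply hnbA0'
    exact nb_mono c.Γ inter_subset_right (mem_sdiff.mp hx).1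
  have hdisj : Disjoint P1 P2 := by
    rw [disjoint_left]
    intro x hx1 hx2
    have h2 := mem_sdiff.mp hx2
    have h3 := mem_sdiff.mp h2.1
    rcases hP1m x hx1 with h | h
    · exact h3.2 (mem_union_left _ h)
    · exact h2.2 h
  have hsub : P1 ∪ P2 ⊆ nb c.Γ A \ ((vs (low c.B u'.card) \ v) ∪ u ∪ u') := by
    intro x hx
    rcases mem_union.mp hx with hx1 | hx2
    · have hxZ : x ∈ c.Z m := by
        rcases hP1m x hx1 with h | h
        · exact hSZ h
        · exact hAtZ h
      have h1 := mem_sdiff.mp hx1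
      refine mem_sdiff.mpr ⟨nb_mono c.Γ inter_subset_left h1.1, ?_⟩
      intro h
      rcases mem_union.mp h with h | h
      · rcases mem_union.mp h with h | h
        · have h' := mem_sdiff.mp h
          exact h1.2 (mem_union_left _ (mem_sdiff.mpr ⟨hvsub h'.1, h'.2⟩))
        · rcases hmemu x h with rfl | h'
          · exact h1.2 (mem_union_right _ (mem_insert_self _ _))
          · exact hbZ x h' hxZ
      · rcases hmemu' x h with rfl | h'
        · exact h1.2 (mem_union_right _ (mem_insert_of_mem (mem_singleton_self _)))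
        · exact hbZ' x h' hxZ
    · have h2 := mem_sdiff.mp hx2
      have h3 := mem_sdiff.mp h2.1
      have hnS : x ∉ c.S m := fun h => h3.2 (mem_union_left _ h)
      have hnI : x ∉ I := fun h => h3.2 (mem_union_right _ h)
      have hnA : x ∈ nb c.Γ A := by
        have h4 := h3.1
        rw [nb_union] at h4
        rcases mem_union.mp h4 with h | h
        · exact h
        · rcases hnbA0' x h with h' | h'
          · exact absurd h' hnS
          · exact absurd h' h2.2
      refine mem_sdiff.mpr ⟨hnA, ?_⟩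
      intro h
      rcases mem_union.mp h with h | h
      · rcases mem_union.mp h with h | h
        · exact hnS (hSm (mem_sdiff.mp h).1)
        · rcases hmemu x h with rfl | h'
          · rcases mem_union.mp hspm with h'' | h''
            · exact hnS h''
            · exact h2.2 h''
          · exact hnI (mem_union_left _ h')
      · rcases hmemu' x h with rfl | h'
        · rcases mem_union.mp hspm' with h'' | h''
          · exact hnS h''
          · exact h2.2 h''
        · exact hnI (mem_union_right _ h')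
  have h1 := card_le_card hsub
  rw [card_union_of_disjoint hdisj] at h1
  have h2 : A.card = (A ∩ A0).card + (A \ A0).card := (card_inter_add_card_sdiff A A0).symm
  omega

end Pool.Agent.UQ
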