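import Pool.Agent.UQ.Defs
import Pool.Agent.UQ.Tight

set_option autoImplicit false

namespace Pool.Agent.UQ

open Finset

variable {α χ : Type} [Fintype α] [DecidableEq α] [Fintype χ] [DecidableEq χ]

theorem par_symm {Γ : α → Finset χ} {Y : Finset χ} {z z' : χ} (h : Par Γ Y z z') :
    Par Γ Y z' z := by
  rcases h with h | h
  · exact Or.inl h.symm
  · refine Or.inr ?_
    rw [pair_comm]
    exact h

omit [Fintype α] [Fintype χ] [DecidableEq α] in
private theorem parEq_one (U Y : Finset χ) (z : χ) : U \ (Y ∪ {z}) = (U \ Y).erase z := by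
  ext x
  simp only [mem_sdiff, mem_union, mem_singleton, mem_erase]
  tauto

omit [Fintype α] [Fintype χ] [DecidableEq α] in
private theorem parEq_two (U Y : Finset χ) (z z' : χ) :
    U \ (Y ∪ {z, z'}) = ((U \ Y).erase z).erase z' := by
  ext x
  simp only [mem_sdiff, mem_union, mem_insert, mem_singleton, mem_erase]
  tauto

/-- two distinct parallel nonloops lie in `Γ(A)` for a set `A` of defect one -/
private theorem parEq_aux {Γ : α → Finset χ} {Y : Finset χ} {z z' : χ} (h1 : NL Γ Y z)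
    (h2 : NL Γ Y z') (hne : z ≠ z') (h : ¬ Miss Γ (Y ∪ {z, z'})) :
    ∃ A : Finset α, z ∈ nb Γ A ∧ z' ∈ nb Γ A ∧ (nb Γ A \ Y).card ≤ A.card + 1 := by
  unfold Miss at h
  push Not at h
  obtain ⟨A, hA⟩ := h
  have e1 := h1.2 A
  have e2 := h2.2 A
  rw [parEq_one] at e1 e2
  rw [parEq_two] at hA
  have hz' : z' ∈ nb Γ A \ Y := by
    by_contra hc
    have h3 : z' ∉ (nb Γ A \ Y).erase z := fun h4 => hc (mem_of_mem_erase h4)
    rw [erase_eq_of_notMem h3] at hA
    omega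
  have hz : z ∈ nb Γ A \ Y := by
    by_contra hc
    rw [erase_eq_of_notMem hc] at hA
    omega
  refine ⟨A, (mem_sdiff.1 hz).1, (mem_sdiff.1 hz').1, ?_⟩
  have h3 : z' ∈ (nb Γ A \ Y).erase z := mem_erase.2 ⟨hne.symm, hz'⟩
  have h4 := card_erase_add_one h3
  have h5 := card_erase_add_one hz
  omega

/-- Parallelism of nonloops is transitive. -/
theorem par_trans {Γ : α → Finset χ} {Y : Finset χ} {z z' z'' : χ} (h1 : NL Γ Y z)
    (h2 : NL Γ Y z') (h3 : NL Γ Y z'') (h : Par Γ Y z z') (h' : Par Γ Y z' z'') :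
    Par Γ Y z z'' := by
  by_cases e1 : z = z'
  · rw [e1]; exact h'
  by_cases e2 : z' = z''
  · rw [← e2]; exact h
  by_cases e3 : z = z''
  · exact Or.inl e3
  obtain ⟨A, a1, a2, a3⟩ := parEq_aux h1 h2 e1 (h.resolve_left e1)
  obtain ⟨B, b1, b2, b3⟩ := parEq_aux h2 h3 e2 (h'.resolve_left e2)
  have t1 : (nb Γ A \ (Y ∪ {z'})).card ≤ A.card := by
    rw [parEq_one, card_erase_of_mem (mem_sdiff.2 ⟨a2, h2.1⟩)]
    omega
  have t2 : (nb Γ B \ (Y ∪ {z'})).card ≤ B.card := by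
    rw [parEq_one, card_erase_of_mem (mem_sdiff.2 ⟨b1, h2.1⟩)]
    omega
  have t3 := tight_sup h2.2 A B t1 t2
  refine Or.inr fun hm => ?_
  have t4 := hm (A ∪ B)
  have m1 : z ∈ nb Γ (A ∪ B) := by
    rw [nb_union]
    exact mem_union_left _ a1
  have m2 : z' ∈ nb Γ (A ∪ B) := by
    rw [nb_union]
    exact mem_union_left _ a2
  have m3 : z'' ∈ nb Γ (A ∪ B) := by
    rw [nb_union]
    exact mem_union_right _ b2
  rw [parEq_one] at t3
  rw [parEq_two] at t4
  have n1 := card_erase_add_one (mem_sdiff.2 ⟨m2, h2.1⟩)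
  have n2 := card_erase_add_one (mem_sdiff.2 ⟨m1, h1.1⟩)
  have n3 : z'' ∈ (nb Γ (A ∪ B) \ Y).erase z :=
    mem_erase.2 ⟨fun e => e3 e.symm, mem_sdiff.2 ⟨m3, h3.1⟩⟩
  have n4 := card_erase_add_one n3
  omega

end Pool.Agent.UQ
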