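import Pool.Agent.UQ.Defs
import Pool.Agent.UQ.PFacts
import Pool.Agent.UQ.Mono
import Pool.Agent.UQ.NeedyTouch
import Pool.Agent.UQ.ParEq
import Pool.Agent.UQ.CFour
import Pool.Agent.UQ.WBounds

set_option autoImplicit false

namespace Pool.Agent.UQ

open Finset

variable {α χ : Type} [Fintype α] [DecidableEq α] [Fintype χ] [DecidableEq χ]

private theorem xinst_Nd {c : Cfg α χ} {u : Finset χ} (hu : u ∈ c.Sp) : u ∈ c.Nd :=
  (mem_filter.1 hu).1

private theorem xinst_T {c : Cfg α χ} {u : Finset χ} (hu : u ∈ c.Sp) : u ∈ c.T :=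
  (mem_filter.1 (xinst_Nd hu)).1

private theorem xinst_bt_sub (c : Cfg α χ) (u : Finset χ) : c.bt u ⊆ u := sdiff_subset

/-- the sum of the prices on `β u` is at least the price of a level which is met -/
private theorem xinst_P (c : Cfg α χ) {u : Finset χ} {s : ℕ} (hs : 3 ≤ s)
    (h : ¬ Disjoint (c.bt u) (c.Z s)) : pr s ≤ ∑ x ∈ c.bt u, c.p x := by
  obtain ⟨x, hx, hx'⟩ := not_disjoint_iff.1 h
  exact (p_of_mem_Z c hs hx').trans
    (single_le_sum (f := fun x => c.p x) (fun y _ => p_nonneg c y) hx)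

private theorem xinst_P0 (c : Cfg α χ) (u : Finset χ) : 0 ≤ ∑ x ∈ c.bt u, c.p x :=
  sum_nonneg fun y _ => p_nonneg c y

open Classical in
/-- The data of Lemma X_k at `v ∈ B`. -/
theorem xinst {c : Cfg α χ} (F : Flow c) {v : Finset χ} (hv : v ∈ c.B) :
    ∃ d : XD χ (Finset χ) (Set χ), d.k = v.card - 1 ∧ d.D = c.D ∧
      (∀ u, d.r u = F.r u v) ∧
      (∀ u, d.W u = 2 * (d.k : ℝ) * max (pr v.card) (c.X u + c.p (F.z u)) - 1) ∧
      d.K ∪ d.O ⊆ c.Sp ∧
      (∀ u ∈ c.Sp, 0 < F.r u v → u ∉ d.K ∪ d.O → d.W u ≤ wk d.k) := by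
  have hv3 : 3 ≤ v.card := c.hT v (c.hBT hv)
  obtain ⟨k, hk⟩ : ∃ k, v.card = k + 1 := ⟨v.card - 1, by omega⟩
  have hk2 : 2 ≤ k := by omega
  -- values of the weight
  have hX : ∀ u ∈ c.Sp, c.X u + c.p (F.z u) =
      1 / ((u.card - 1 : ℕ) : ℝ) - ∑ x ∈ c.bt u, c.p x := by
    intro u hu
    rw [X_add c (xinst_Nd hu) (F.hz u hu)]
    have h3 := c.hT u (xinst_T hu)
    rw [Nat.cast_sub (by omega)]
    simp
  have hbt : ∀ u ∈ c.Sp, (c.bt u).card = u.card - 1 := fun u hu => bt_card c (xinst_Nd hu)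
  -- the two families
  let K : Finset (Finset χ) := c.Sp.filter (fun u => 0 < F.r u v ∧ u.card = v.card ∧
    Disjoint (c.bt u) (c.Z (3 * k - 2)))
  let O : Finset (Finset χ) := c.Sp.filter (fun u => u ∉ K ∧ 0 < F.r u v ∧ u.card ≤ 2 * k ∧
    Disjoint (c.bt u) (c.Z (k + u.card - 2)))
  have hKS : ∀ u ∈ K, u ∈ c.Sp ∧ 0 < F.r u v ∧ u.card = v.card ∧
      Disjoint (c.bt u) (c.Z (3 * k - 2)) := fun u hu => mem_filter.1 hu
  have hOS : ∀ u ∈ O, u ∈ c.Sp ∧ u ∉ K ∧ 0 < F.r u v ∧ u.card ≤ 2 * k ∧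
      Disjoint (c.bt u) (c.Z (k + u.card - 2)) := fun u hu => mem_filter.1 hu
  have hKOS : K ∪ O ⊆ c.Sp := by
    intro u hu
    rcases mem_union.1 hu with h | h
    · exact (hKS u h).1
    · exact (hOS u h).1
  have hKOr : ∀ u ∈ K ∪ O, 0 < F.r u v := by
    intro u hu
    rcases mem_union.1 hu with h | h
    · exact (hKS u h).2.1
    · exact (hOS u h).2.2.1
  have hnl : ∀ u ∈ K ∪ O, NL c.Γ (vs c.B \ v) (F.z u) := fun u hu =>
    F.hnl u (hKOS hu) v hv (hKOr u hu)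
  let cl : Finset χ → Set χ := fun u => {z | NL c.Γ (vs c.B \ v) z ∧
    Par c.Γ (vs c.B \ v) (F.z u) z}
  refine ⟨{
    k := k
    D := c.D
    K := K
    O := O
    β := c.bt
    r := fun u => F.r u v
    cl := cl
    W := fun u => 2 * (k : ℝ) * max (pr v.card) (c.X u + c.p (F.z u)) - 1
    hk := hk2
    hkD := ?_
    hKO := ?_
    hK := ?_
    hO := ?_
    hlin := ?_
    hr := ?_
    c1 := ?_
    c2 := ?_
    c3 := ?_
    c4 := ?_
    hWK := ?_
    hWO := ?_ }, by show k = v.card - 1; omega, rfl, fun _ => rfl, fun _ => rfl, hKOS, ?_⟩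
  · -- hkD
    obtain ⟨x, hx⟩ : v.Nonempty := card_pos.1 (by omega)
    have h1 := c.hdeg x
    have h2 : v.card - 1 ≤ ∑ E ∈ c.T.filter (fun E => x ∈ E), (E.card - 1) :=
      single_le_sum (f := fun E : Finset χ => E.card - 1) (fun _ _ => Nat.zero_le _)
        (mem_filter.2 ⟨c.hBT hv, hx⟩)
    omega
  · -- hKO
    rw [disjoint_left]
    intro u hu hu'
    exact (hOS u hu').2.1 hu
  · -- hK
    intro u hu
    rw [hbt u (hKS u hu).1, (hKS u hu).2.2.1]
    omega
  · -- hO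
    intro u hu
    have h1 := F.hle u (hOS u hu).1 v hv (hOS u hu).2.2.1
    have h2 := (hOS u hu).2.2.2.1
    rw [hbt u (hOS u hu).1]
    constructor
    · omega
    · omega
  · -- hlin
    intro u hu u' hu' hne
    refine le_trans (card_le_card ?_) (c.hlin u (xinst_T (hKOS hu)) u' (xinst_T (hKOS hu')) hne)
    exact inter_subset_inter (xinst_bt_sub c u) (xinst_bt_sub c u')
  · -- hr
    intro u hu
    have h1 := F.hr u (hKOS hu)
    rw [hbt u (hKOS hu)]
    have h2 : F.r u v ≤ ∑ v ∈ c.B, F.r u v :=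
      single_le_sum (f := fun v => F.r u v) (fun _ _ => Nat.zero_le _) hv
    show F.r u v ≤ u.card - 1
    omega
  · -- c1
    intro g
    by_cases hne : ((K ∪ O).filter (fun u => cl u = g)).Nonempty
    · obtain ⟨u0, hu0⟩ := hne
      obtain ⟨hu0, hg⟩ := mem_filter.1 hu0
      refine le_trans (sum_le_sum_of_subset ?_) (F.hC1 v hv (F.z u0) (hnl u0 hu0))
      intro u hu
      obtain ⟨hu, hg'⟩ := mem_filter.1 hu
      refine mem_filter.2 ⟨hKOS hu, ?_⟩
      have h1 : F.z u ∈ cl u := ⟨hnl u hu, Or.inl rfl⟩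
      rw [hg', ← hg] at h1
      exact h1.2
    · rw [not_nonempty_iff_eq_empty.1 hne, sum_empty]
      exact Nat.zero_le _
  · -- c2
    intro q
    have h1 := c.hdeg q
    have h2 : ∑ u ∈ (K ∪ O).filter (fun u => q ∈ c.bt u), (c.bt u).card ≤
        ∑ E ∈ c.T.filter (fun E => q ∈ E), (E.card - 1) := by
      calc ∑ u ∈ (K ∪ O).filter (fun u => q ∈ c.bt u), (c.bt u).card
          = ∑ u ∈ (K ∪ O).filter (fun u => q ∈ c.bt u), (u.card - 1) :=
            sum_congr rfl fun u hu => hbt u (hKOS (mem_filter.1 hu).1)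
        _ ≤ ∑ E ∈ c.T.filter (fun E => q ∈ E), (E.card - 1) := by
            refine sum_le_sum_of_subset fun u hu => ?_
            obtain ⟨h3, h4⟩ := mem_filter.1 hu
            exact mem_filter.2 ⟨xinst_T (hKOS h3), xinst_bt_sub c u h4⟩
    show ∑ u ∈ (K ∪ O).filter (fun u => q ∈ c.bt u), (c.bt u).card ≤ c.D
    omega
  · -- c3
    have h1 := F.hrv v hv
    rw [hk, Nat.add_sub_cancel] at h1
    exact le_trans (sum_le_sum_of_subset hKOS) h1
  · -- c4
    intro u hu u' hu' hcl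
    have huKO : u ∈ K ∪ O := mem_union_left _ hu
    obtain ⟨hS, hr, hc, hd⟩ := hKS u hu
    have hS' := hKOS hu'
    have hle' := F.hle u' hS' v hv (hKOr u' hu')
    have hn := hnl u huKO
    have hn' := hnl u' hu'
    have hdis : u'.card ≤ 2 * k ∧ Disjoint (c.bt u') (c.Z (k + u'.card - 2)) := by
      rcases mem_union.1 hu' with h | h
      · obtain ⟨_, _, h3, h4⟩ := hKS u' h
        refine ⟨by omega, h4.mono_right (Z_mono c (by omega))⟩
      · exact ⟨(hOS u' h).2.2.2.1, (hOS u' h).2.2.2.2⟩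
    refine c4 c hv hS hS' (F.hz u hS) (F.hz u' hS') hn hn' ?_ hc hle' ?_ ?_
    · intro hpar
      apply hcl
      ext z
      constructor
      · rintro ⟨h1, h2⟩
        exact ⟨h1, par_trans hn' hn h1 (par_symm hpar) h2⟩
      · rintro ⟨h1, h2⟩
        exact ⟨h1, par_trans hn hn' h1 hpar h2⟩
    · exact hd.mono_right (Z_mono c (by omega))
    · exact hdis.2.mono_right (Z_mono c (by omega))
  · -- hWK
    intro u hu
    obtain ⟨hS, hr, hc, hd⟩ := hKS u hu
    show 2 * (k : ℝ) * max (pr v.card) (c.X u + c.p (F.z u)) - 1 ≤ 1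
    rw [hX u hS, hc, hk, Nat.add_sub_cancel]
    exact w_K k hk2 _ (xinst_P0 c u)
  · -- hWO
    intro u hu
    obtain ⟨hS, hnK, hr, hc, hd⟩ := hOS u hu
    have hle' := F.hle u hS v hv hr
    show 2 * (k : ℝ) * max (pr v.card) (c.X u + c.p (F.z u)) - 1 ≤ rho k ∧
      ((c.bt u).card : ℝ) * (2 * (k : ℝ) * max (pr v.card) (c.X u + c.p (F.z u)) - 1) ≤
        (k : ℝ) - 1
    rw [hX u hS, hbt u hS]
    by_cases h1 : u.card = v.card
    · have h2 : ¬ Disjoint (c.bt u) (c.Z (3 * k - 2)) := fun h3 =>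
        hnK (mem_filter.2 ⟨hS, hr, h1, h3⟩)
      rw [h1, hk, Nat.add_sub_cancel]
      exact w_O1 k hk2 _ (xinst_P c (by omega) h2)
    · rw [hk]
      exact w_O2 k (u.card - 1) hk2 (by omega) (by omega) _ (xinst_P0 c u)
  · -- the light edges
    intro u hS hr hn
    have hle' := F.hle u hS v hv hr
    show 2 * (k : ℝ) * max (pr v.card) (c.X u + c.p (F.z u)) - 1 ≤ wk k
    rw [hX u hS, hk]
    by_cases h1 : 2 * k ≤ u.card - 1
    · exact w_big k (u.card - 1) hk2 h1 _ (xinst_P0 c u)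
    · have hnK : u ∉ K := fun h => hn (mem_union_left _ h)
      have h2 : ¬ Disjoint (c.bt u) (c.Z (k + u.card - 2)) := fun h3 =>
        hn (mem_union_right _ (mem_filter.2 ⟨hS, hnK, hr, by omega, h3⟩))
      refine w_level k (u.card - 1) hk2 (by omega) _ ?_
      have h3 := xinst_P c (by omega) h2
      rw [show k + (u.card - 1) - 1 = k + u.card - 2 by omega]
      exact h3

end Pool.Agent.UQ
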