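import Pool.Agent.UQ.Defs
import Pool.Agent.UQ.XLemma

set_option autoImplicit false

namespace Pool.Agent.UQ

open Finset

variable {χ ι κ : Type} [DecidableEq χ] [DecidableEq ι] [DecidableEq κ]

/-- the data of `XD` satisfy the hypotheses of `XL.lemma_X` -/
theorem xhyp (d : XD χ ι κ) :
    XL.XHyp d.k d.D (d.K ∪ d.O) (fun u => u ∈ d.K) d.β (fun u => (d.β u).card) d.r d.W d.cl := by
  have hO : ∀ u ∈ d.K ∪ d.O, ¬ u ∈ d.K → u ∈ d.O := by
    intro u hu h
    rcases mem_union.mp hu with h' | h'
    · exact absurd h' h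
    · exact h'
  exact
    { hk := d.hk
      hkD := d.hkD
      hra := d.hr
      haβ := fun u _ => rfl
      haK := fun u _ h => d.hK u h
      haO := fun u hu h => (d.hO u (hO u hu h)).2
      hWK := fun u _ h => d.hWK u h
      hWO := fun u hu h => (d.hWO u (hO u hu h)).1
      hWO' := fun u hu h => (d.hWO u (hO u hu h)).2
      hlin := d.hlin
      hC1 := d.c1
      hC2 := d.c2
      hC3 := d.c3
      hC4 := fun u _ h u' hu' hne => by
        have := d.c4 u h u' hu' hne
        rwa [not_disjoint_iff_nonempty_inter] at this }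

/-- Lemma X_k -/
theorem xmain (d : XD χ ι κ) : d.Good := by
  have h := XL.lemma_X (xhyp d)
  unfold XL.XGoal at h
  unfold XD.Good XD.Phi
  have h1 : XL.wK d.k = wk d.k := rfl
  have h2 : ∀ u, XL.ctr d.k d.r d.W u = d.ct u := by
    intro u
    unfold XL.ctr XD.ct
    rw [h1, max_comm]
  rw [sum_congr rfl (fun u _ => h2 u), h1, mul_assoc] at h
  exact h

end Pool.Agent.UQ
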