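import Pool.Agent.UQ.Defs
import Pool.Agent.UQ.Prices
import Pool.Agent.UQ.XInst
import Pool.Agent.UQ.XMain
import Pool.Agent.UQ.WBounds

set_option autoImplicit false

namespace Pool.Agent.UQ

open Finset

variable {α χ : Type} [Fintype α] [DecidableEq α] [Fintype χ] [DecidableEq χ]

/-- (V) -/
theorem perv {c : Cfg α χ} (F : Flow c) {v : Finset χ} (hv : v ∈ c.B) :
    (v.card : ℝ) * pr v.card * ((c.D : ℝ) - ((v.card : ℝ) - 1))
      + ∑ u ∈ c.Sp, (F.r u v : ℝ) * max 0 (c.X u + c.p (F.z u) - pr v.card) ≤ c.D := by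
  classical
  obtain ⟨d, hk, hD, hr, hW, hsub, hout⟩ := xinst F hv
  have hgood := xmain d
  unfold XD.Good XD.Phi at hgood
  have hv3 : 3 ≤ v.card := c.hT v (c.hBT hv)
  set k := d.k with hkdef
  have hvk : v.card = k + 1 := by omega
  have hk2 : 2 ≤ k := by omega
  have hkr : (2 : ℝ) ≤ k := by exact_mod_cast hk2
  have hkD : (k : ℝ) ≤ c.D := by
    have := d.hkD
    rw [hD] at this
    exact_mod_cast this
  rw [hD] at hgood
  set w0 := 2 * (k : ℝ) * pr (k + 1) - 1 with hw0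
  have hw0w : w0 ≤ wk k := w_base k hk2
  have hcardr : (v.card : ℝ) = k + 1 := by rw [hvk]; push_cast; ring
  set M : ℝ := ∑ u ∈ c.Sp, (F.r u v : ℝ) with hM
  have hMle : M ≤ ((k : ℝ) + 1) * ((c.D : ℝ) - k) := by
    have h1 := F.hrv v hv
    have h5 : k ≤ c.D := by exact_mod_cast hkD
    obtain ⟨e, he⟩ : ∃ e, c.D = k + e := ⟨c.D - k, by omega⟩
    have he2 : c.D - (v.card - 1) = e := by omega
    rw [he2, hvk] at h1
    have h2 : ((∑ u ∈ c.Sp, F.r u v : ℕ) : ℝ) ≤ (((k + 1) * e : ℕ) : ℝ) := by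
      exact_mod_cast h1
    push_cast at h2
    have h3 : (c.D : ℝ) - k = e := by rw [he]; push_cast; ring
    rw [h3]
    exact h2
  -- termwise
  have hterm : ∀ u ∈ c.Sp, 2 * (k : ℝ) * ((F.r u v : ℝ) * max 0 (c.X u + c.p (F.z u) - pr v.card))
      ≤ (F.r u v : ℝ) * (wk k - w0)
        + (if u ∈ d.K ∪ d.O then d.ct u else 0) := by
    intro u hu
    have h1 : 2 * (k : ℝ) * max 0 (c.X u + c.p (F.z u) - pr v.card) = d.W u - w0 := by
      rw [hW u, hw0, hvk]
      have h2 : max 0 (c.X u + c.p (F.z u) - pr (k + 1))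
          = max (pr (k + 1)) (c.X u + c.p (F.z u)) - pr (k + 1) := by
        rw [← max_sub_sub_right, sub_self]
      rw [h2]
      ring
    have h3 : 2 * (k : ℝ) * ((F.r u v : ℝ) * max 0 (c.X u + c.p (F.z u) - pr v.card))
        = (F.r u v : ℝ) * (d.W u - w0) := by
      rw [← h1]; ring
    rw [h3]
    have hr0 : (0 : ℝ) ≤ (F.r u v : ℝ) := by positivity
    by_cases hin : u ∈ d.K ∪ d.O
    · rw [if_pos hin]
      unfold XD.ct
      rw [hr u, ← hkdef]
      have h4 : d.W u - wk k ≤ max 0 (d.W u - wk k) := le_max_right _ _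
      have h5 := mul_le_mul_of_nonneg_left h4 hr0
      nlinarith
    · rw [if_neg hin, add_zero]
      by_cases hpos : 0 < F.r u v
      · have h4 := hout u hu hpos hin
        exact mul_le_mul_of_nonneg_left (by linarith) hr0
      · have h4 : F.r u v = 0 := by omega
        rw [h4]; simp
  have hsum := sum_le_sum hterm
  rw [← mul_sum, sum_add_distrib, ← sum_mul, ← hM] at hsum
  have hite : ∑ u ∈ c.Sp, (if u ∈ d.K ∪ d.O then d.ct u else 0) = ∑ u ∈ d.K ∪ d.O, d.ct u := by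
    rw [← sum_filter]
    congr 1
    ext u
    rw [mem_filter]
    exact ⟨fun h => h.2, fun h => ⟨hsub h, h⟩⟩
  rw [hite] at hsum
  have hMw : M * (wk k - w0) ≤ ((k : ℝ) + 1) * ((c.D : ℝ) - k) * (wk k - w0) :=
    mul_le_mul_of_nonneg_right hMle (by linarith)
  have hfirst : 2 * (k : ℝ) * ((v.card : ℝ) * pr v.card * ((c.D : ℝ) - ((v.card : ℝ) - 1)))
      = (w0 + 1) * (((k : ℝ) + 1) * ((c.D : ℝ) - k)) := by
    rw [hw0, hcardr, hvk]
    ring
  have htot : 2 * (k : ℝ) * ((v.card : ℝ) * pr v.card * ((c.D : ℝ) - ((v.card : ℝ) - 1))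
      + ∑ u ∈ c.Sp, (F.r u v : ℝ) * max 0 (c.X u + c.p (F.z u) - pr v.card))
      ≤ 2 * (k : ℝ) * c.D := by
    rw [mul_add, hfirst]
    nlinarith
  exact le_of_mul_le_mul_left htot (by linarith)

end Pool.Agent.UQ
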