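import Pool.Agent.UQ.Defs
import Pool.Agent.UQ.Mono
import Pool.Agent.UQ.NeedyTouch

set_option autoImplicit false

namespace Pool.Agent.UQ

open Finset

variable {α χ : Type} [Fintype α] [DecidableEq α] [Fintype χ] [DecidableEq χ]

private theorem q_unfold (c : Cfg α χ) (a : α) {u : Finset χ} (hu : u ∈ c.Q a) :
    u ∈ c.Nd ∧ c.μ a ∈ u ∧ a ∈ c.Ah u.card ∧ a ∉ c.At u.card := by
  have h := hu
  unfold Cfg.Q at h
  rw [mem_filter] at h
  exact ⟨h.1, h.2.1, h.2.2.1, h.2.2.2⟩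

private theorem q_tch_aux (c : Cfg α χ) (a : α) {u : Finset χ} (hu : u ∈ c.Q a) :
    c.tch u = {c.μ a} := by
  obtain ⟨hNd, hmu, hAh, -⟩ := q_unfold c a hu
  obtain ⟨z, hzu, hzZ, htch, -⟩ := needy_touch c hNd
  have hm : c.μ a ∈ c.tch u := by
    unfold Cfg.tch
    exact mem_inter.2 ⟨hmu, (mu_mem_Z c u.card a).2 hAh⟩
  rw [htch, mem_singleton] at hm
  rw [htch, hm]

private theorem mem_tch_or_bt (c : Cfg α χ) {u : Finset χ} {x : χ} (hx : x ∈ u) :
    x ∈ c.tch u ∨ x ∈ c.bt u := by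
  by_cases h : x ∈ c.Z u.card
  · left
    unfold Cfg.tch
    exact mem_inter.2 ⟨hx, h⟩
  · right
    unfold Cfg.bt
    exact mem_sdiff.2 ⟨hx, h⟩

/-- (Q1) -/
theorem q1 (c : Cfg α χ) (a : α) {u : Finset χ} (hu : u ∈ c.Q a) :
    ∃ A : Finset α, a ∈ A ∧ A ⊆ c.Ah u.card ∧ nb c.Γ A \ c.S u.card ⊆ A.image c.μ ∪ c.bt u := by
  obtain ⟨hNd, hmu, hAh, -⟩ := q_unfold c a hu
  have htch := q_tch_aux c a hu
  have hNd' := hNd
  unfold Cfg.Nd at hNd'
  rw [mem_filter] at hNd'
  obtain ⟨huT, huB, -⟩ := hNd'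
  have hdis : Disjoint u (vs (low c.B u.card)) := by
    rw [Finset.disjoint_left]
    intro x hx hxS
    have hxS' : x ∈ c.S u.card := hxS
    have hxt : x ∈ c.tch u := by
      unfold Cfg.tch Cfg.Z
      exact mem_inter.2 ⟨hx, mem_union_left _ hxS'⟩
    rw [htch, mem_singleton] at hxt
    apply c.hμB a
    rw [← hxt]
    exact S_sub c u.card hxS'
  have hnm := c.e1 u huT huB hdis
  unfold Miss at hnm
  push Not at hnm
  obtain ⟨A, hA⟩ := hnm
  change (nb c.Γ A \ (c.S u.card ∪ u)).card < A.card at hA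
  -- A is contained in Ah
  have hcard : (nb c.Γ A \ c.S u.card).card ≤ A.card + u.card := by
    have hsub : nb c.Γ A \ c.S u.card ⊆ (nb c.Γ A \ (c.S u.card ∪ u)) ∪ u := by
      intro x hx
      rw [mem_sdiff] at hx
      by_cases hxu : x ∈ u
      · exact mem_union_right _ hxu
      · refine mem_union_left _ (mem_sdiff.2 ⟨hx.1, ?_⟩)
        rw [mem_union]
        rintro (h | h)
        · exact hx.2 h
        · exact hxu h
    have h1 := card_le_card hsub
    have h2 := card_union_le (nb c.Γ A \ (c.S u.card ∪ u)) u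
    omega
  have hAsub : A ⊆ c.Ah u.card := by
    intro b hb
    unfold Cfg.Ah
    rw [mem_filter]
    exact ⟨mem_univ _, A, hb, hcard⟩
  have hmuS : A.image c.μ ⊆ nb c.Γ A \ c.S u.card := image_mu_sub c A (S_sub c u.card)
  have hmuu : ∀ x ∈ A.image c.μ, x ∈ u → x = c.μ a := by
    intro x hx hxu
    rw [mem_image] at hx
    obtain ⟨b, hb, rfl⟩ := hx
    have hxt : c.μ b ∈ c.tch u := by
      unfold Cfg.tch
      exact mem_inter.2 ⟨hxu, (mu_mem_Z c u.card b).2 (hAsub hb)⟩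
    rw [htch, mem_singleton] at hxt
    exact hxt
  have hsub2 : (A.image c.μ).erase (c.μ a) ⊆ nb c.Γ A \ (c.S u.card ∪ u) := by
    intro x hx
    rw [mem_erase] at hx
    have h1 := hmuS hx.2
    rw [mem_sdiff] at h1
    refine mem_sdiff.2 ⟨h1.1, ?_⟩
    rw [mem_union]
    rintro (h | h)
    · exact h1.2 h
    · exact hx.1 (hmuu x hx.2 h)
  have haA : a ∈ A := by
    by_contra haA
    have hni : c.μ a ∉ A.image c.μ := by
      intro h
      rw [mem_image] at h
      obtain ⟨b, hb, hba⟩ := h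
      exact haA (c.hμ hba ▸ hb)
    rw [erase_eq_of_notMem hni] at hsub2
    have h1 := card_le_card hsub2
    rw [card_image_mu] at h1
    omega
  have hmem : c.μ a ∈ A.image c.μ := mem_image_of_mem _ haA
  have heq : (A.image c.μ).erase (c.μ a) = nb c.Γ A \ (c.S u.card ∪ u) := by
    apply eq_of_subset_of_card_le hsub2
    rw [card_erase_of_mem hmem, card_image_mu]
    omega
  refine ⟨A, haA, hAsub, ?_⟩
  intro x hx
  rw [mem_sdiff] at hx
  by_cases hxu : x ∈ u
  · rcases mem_tch_or_bt c hxu with h | h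
    · rw [htch, mem_singleton] at h
      rw [h]
      exact mem_union_left _ hmem
    · exact mem_union_right _ h
  · have h1 : x ∈ nb c.Γ A \ (c.S u.card ∪ u) := by
      refine mem_sdiff.2 ⟨hx.1, ?_⟩
      rw [mem_union]
      rintro (h | h)
      · exact hx.2 h
      · exact hxu h
    rw [← heq, mem_erase] at h1
    exact mem_union_left _ h1.2

/-- For a Q-type edge the small vertex is `μ a`. -/
theorem q_tch (c : Cfg α χ) (a : α) {u : Finset χ} (hu : u ∈ c.Q a) : c.tch u = {c.μ a} :=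
  q_tch_aux c a hu

/-- consequence of (Q1) -/
theorem q1' (c : Cfg α χ) (a : α) {u : Finset χ} (hu : u ∈ c.Q a) :
    c.N a \ c.Z u.card ⊆ c.bt u := by
  obtain ⟨A, haA, hAsub, hA⟩ := q1 c a hu
  intro x hx
  rw [mem_sdiff] at hx
  have h1 : x ∈ nb c.Γ A \ c.S u.card := by
    refine mem_sdiff.2 ⟨?_, ?_⟩
    · unfold nb
      exact mem_biUnion.2 ⟨a, haA, c.hNΓ a hx.1⟩
    · intro h
      apply hx.2
      unfold Cfg.Z
      exact mem_union_left _ h
  have h2 := hA h1
  rw [mem_union] at h2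
  rcases h2 with h | h
  · exfalso
    rw [mem_image] at h
    obtain ⟨b, hb, rfl⟩ := h
    exact hx.2 ((mu_mem_Z c u.card b).2 (hAsub hb))
  · exact h

end Pool.Agent.UQ
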