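import Pool.Agent.UQ.Defs
import Pool.Agent.UQ.Mono
import Pool.Agent.UQ.NeedyTouch
import Pool.Agent.UQ.QOne

set_option autoImplicit false

namespace Pool.Agent.UQ

open Finset

variable {α χ : Type} [Fintype α] [DecidableEq α] [Fintype χ] [DecidableEq χ]

/-- (Q2) -/
theorem q2 (c : Cfg α χ) (a : α) {u u' : Finset χ} (hu : u ∈ c.Q a) (hu' : u' ∈ c.Q a)
    (hne : u ≠ u') (hle : u.card ≤ u'.card) : ∃ y ∈ c.bt u, y ∈ c.Z u'.card := by
  by_contra hcon
  push Not at hcon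
  obtain ⟨A1, ha1, hA1, hs1⟩ := q1 c a hu
  obtain ⟨A2, ha2, hA2, hs2⟩ := q1 c a hu'
  have hQ := (mem_filter.mp hu).2
  have hQ' := (mem_filter.mp hu').2
  have hT : u ∈ c.T := (mem_filter.mp (mem_filter.mp hu).1).1
  have hT' : u' ∈ c.T := (mem_filter.mp (mem_filter.mp hu').1).1
  apply hQ'.2.2
  refine mem_filter.mpr ⟨mem_univ _, A1 ∩ A2, mem_inter.mpr ⟨ha1, ha2⟩, ?_⟩
  have hsub : nb c.Γ (A1 ∩ A2) \ c.S u'.card ⊆ (A1 ∩ A2).image c.μ := by
    intro y hy
    have hy' := mem_sdiff.mp hy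
    have hyu : y ∉ c.S u.card := fun h => hy'.2 (S_mono c hle h)
    have h1 := hs1 (mem_sdiff.mpr ⟨nb_mono c.Γ inter_subset_left hy'.1, hyu⟩)
    have h2 := hs2 (mem_sdiff.mpr ⟨nb_mono c.Γ inter_subset_right hy'.1, hy'.2⟩)
    rcases mem_union.mp h1 with h1 | h1
    · obtain ⟨b, hb, rfl⟩ := mem_image.mp h1
      have hbZ : c.μ b ∈ c.Z u'.card := (mu_mem_Z c _ b).mpr (Ah_mono c hle (hA1 hb))
      rcases mem_union.mp h2 with h2 | h2
      · obtain ⟨b', hb', hbb⟩ := mem_image.mp h2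
        have : b' = b := c.hμ hbb
        subst this
        exact mem_image.mpr ⟨b', mem_inter.mpr ⟨hb, hb'⟩, rfl⟩
      · exact absurd hbZ (mem_sdiff.mp h2).2
    · rcases mem_union.mp h2 with h2 | h2
      · obtain ⟨b', hb', rfl⟩ := mem_image.mp h2
        exact absurd ((mu_mem_Z c _ b').mpr (hA2 hb')) (hcon _ h1)
      · exfalso
        have hyn : y ≠ c.μ a := by
          rintro rfl
          exact (mem_sdiff.mp h1).2 ((mu_mem_Z c _ a).mpr hQ.2.1)
        have hsub2 : ({y, c.μ a} : Finset χ) ⊆ u ∩ u' := by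
          intro x hx
          rcases mem_insert.mp hx with rfl | hx
          · exact mem_inter.mpr ⟨(mem_sdiff.mp h1).1, (mem_sdiff.mp h2).1⟩
          · rw [mem_singleton.mp hx]
            exact mem_inter.mpr ⟨hQ.1, hQ'.1⟩
        have h3 := card_le_card hsub2
        rw [card_pair hyn] at h3
        have := c.hlin u hT u' hT' hne
        omega
  have h := card_le_card hsub
  rwa [card_image_mu] at h

theorem q2_lt (c : Cfg α χ) (a : α) {u u' : Finset χ} (hu : u ∈ c.Q a) (hu' : u' ∈ c.Q a)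
    (hne : u ≠ u') (hle : u.card ≤ u'.card) : u.card < u'.card := by
  rcases Nat.lt_or_ge u.card u'.card with h | h
  · exact h
  · have heq : u.card = u'.card := le_antisymm hle h
    obtain ⟨y, hy, hyZ⟩ := q2 c a hu hu' hne hle
    rw [← heq] at hyZ
    exact absurd hyZ (mem_sdiff.mp hy).2

end Pool.Agent.UQ
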