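import Pool.Agent.UQ.Defs
import Pool.Agent.UQ.Prices
import Pool.Agent.UQ.PFacts
import Pool.Agent.UQ.QOne
import Pool.Agent.UQ.QTwo

set_option autoImplicit false

namespace Pool.Agent.UQ

open Finset

variable {α χ : Type} [Fintype α] [DecidableEq α] [Fintype χ] [DecidableEq χ]

private lemma qsum_card (c : Cfg α χ) (a : α) {u : Finset χ} (hu : u ∈ c.Q a) : 3 ≤ u.card := by
  have h1 : u ∈ c.Nd := (Finset.mem_filter.mp hu).1
  exact c.hT u (Finset.mem_filter.mp h1).1

private lemma qsum_X (c : Cfg α χ) {u : Finset χ} (hu : 3 ≤ u.card) :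
    ((u.card : ℝ) - 1) * c.X u = 1 - ((u.card : ℝ) - 1) * ∑ x ∈ u, c.p x := by
  have h1 : (3 : ℝ) ≤ u.card := by exact_mod_cast hu
  have h2 : ((u.card : ℝ) - 1) ≠ 0 := by linarith
  unfold Cfg.X
  rw [mul_sub, mul_one_div, div_self h2]

private lemma qsum_amgm (x y : ℝ) (hx : 0 < x) (hy : 0 < y) :
    1 ≤ x * (1 / (2 * y)) + y * (1 / (2 * x)) := by
  have h1 : x * (1 / (2 * y)) + y * (1 / (2 * x)) = (x ^ 2 + y ^ 2) / (2 * x * y) := by
    have hx' := hx.ne'
    have hy' := hy.ne'
    field_simp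
  rw [h1, le_div_iff₀ (by positivity)]
  nlinarith [sq_nonneg (x - y)]

/-- The chain estimate in (Q3): induction on `F`, removing the smallest member. -/
theorem qsum (c : Cfg α χ) (a : α) (s : ℕ) (hs : 3 ≤ s) (hp : c.p (c.μ a) = pr s)
    (F : Finset (Finset χ)) (hF : F ⊆ c.Q a) (hne : F.Nonempty) (hge : ∀ u ∈ F, s ≤ u.card) :
    ∃ u1 ∈ F, (∀ u ∈ F, u1.card ≤ u.card) ∧
      ∑ u ∈ F, ((u.card : ℝ) - 1) * c.X u ≤ 1 - ((u1.card : ℝ) - 1) * pr s := by
  induction hn : F.card using Nat.strong_induction_on generalizing F with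
  | _ n ih =>
    obtain ⟨u1, hu1, hmin⟩ := Finset.exists_min_image F Finset.card hne
    refine ⟨u1, hu1, hmin, ?_⟩
    have hu1Q := hF hu1
    have h3 : 3 ≤ u1.card := qsum_card c a hu1Q
    have h3' : (3 : ℝ) ≤ u1.card := by exact_mod_cast h3
    have hmem := Finset.mem_filter.mp hu1Q
    have hμu : c.μ a ∈ u1 := hmem.2.1
    have haZ : c.μ a ∈ c.Z u1.card := by
      unfold Cfg.Z
      exact Finset.mem_union_right _ (Finset.mem_image_of_mem _ hmem.2.2.1)
    by_cases hF' : (F.erase u1).Nonempty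
    · obtain ⟨u2, hu2, hmin2, hsum2⟩ := ih (F.erase u1).card
        (by rw [← hn]; exact Finset.card_erase_lt_of_mem hu1) (F.erase u1)
        ((Finset.erase_subset _ _).trans hF) hF'
        (fun u hu => hge u (Finset.mem_of_mem_erase hu)) rfl
      have hu2F : u2 ∈ F := Finset.mem_of_mem_erase hu2
      have hne12 : u1 ≠ u2 := (Finset.ne_of_mem_erase hu2).symm
      have hle12 := hmin u2 hu2F
      obtain ⟨y, hy, hyZ⟩ := q2 c a hu1Q (hF hu2F) hne12 hle12
      have h32 : 3 ≤ u2.card := qsum_card c a (hF hu2F)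
      have h32' : (3 : ℝ) ≤ u2.card := by exact_mod_cast h32
      have hpy : pr u2.card ≤ c.p y := p_of_mem_Z c h32 hyZ
      have hyu : y ∈ u1 := (Finset.mem_sdiff.mp hy).1
      have hyne : c.μ a ≠ y := fun h => (Finset.mem_sdiff.mp hy).2 (h ▸ haZ)
      have hpair : ({c.μ a, y} : Finset χ) ⊆ u1 :=
        Finset.insert_subset hμu (Finset.singleton_subset_iff.mpr hyu)
      have hsum : pr s + pr u2.card ≤ ∑ x ∈ u1, c.p x := by
        calc pr s + pr u2.card ≤ c.p (c.μ a) + c.p y := by rw [hp]; linarith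
          _ = ∑ x ∈ ({c.μ a, y} : Finset χ), c.p x := (Finset.sum_pair hyne).symm
          _ ≤ ∑ x ∈ u1, c.p x :=
            Finset.sum_le_sum_of_subset_of_nonneg hpair fun x _ _ => p_nonneg c x
      have hX := qsum_X c h3
      rw [← Finset.add_sum_erase F _ hu1, hX]
      have hpos : (0 : ℝ) ≤ (u1.card : ℝ) - 1 := by linarith
      have h5 := mul_le_mul_of_nonneg_left hsum hpos
      have h6 : 1 / (2 * ((u2.card : ℝ) - 1)) ≤ pr u2.card := pr_lower _ h32
      have h7 : 1 / (2 * ((u1.card : ℝ) - 1)) ≤ pr s :=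
        (pr_lower _ h3).trans (pr_anti s u1.card hs (hge u1 hu1))
      have h8 : 1 ≤ ((u1.card : ℝ) - 1) * pr u2.card + ((u2.card : ℝ) - 1) * pr s := by
        set x1 : ℝ := (u1.card : ℝ) - 1 with hx1
        set x2 : ℝ := (u2.card : ℝ) - 1 with hx2
        have hx1p : 0 < x1 := by linarith
        have hx2p : 0 < x2 := by linarith
        have h9 := mul_le_mul_of_nonneg_left h6 hx1p.le
        have h10 := mul_le_mul_of_nonneg_left h7 hx2p.le
        have h11 := qsum_amgm x1 x2 hx1p hx2p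
        linarith
      have h14 : ((u1.card : ℝ) - 1) * (pr s + pr u2.card) =
          ((u1.card : ℝ) - 1) * pr s + ((u1.card : ℝ) - 1) * pr u2.card := by ring
      linarith
    · have hF1 : F = {u1} := by
        rw [Finset.not_nonempty_iff_eq_empty] at hF'
        have h1 := Finset.insert_erase hu1
        rw [hF'] at h1
        rw [← h1]
        rfl
      rw [hF1, Finset.sum_singleton, qsum_X c h3]
      have hpos : (0 : ℝ) ≤ (u1.card : ℝ) - 1 := by linarith
      have h4 : pr s ≤ ∑ x ∈ u1, c.p x := by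
        rw [← hp]
        exact Finset.single_le_sum (fun x _ => p_nonneg c x) hμu
      have h5 := mul_le_mul_of_nonneg_left h4 hpos
      linarith

end Pool.Agent.UQ
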