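import Pool.Agent.UQ.Defs
import Pool.Agent.UQ.Prices
import Pool.Agent.UQ.PFacts
import Pool.Agent.UQ.HLem
import Pool.Agent.UQ.QOne
import Pool.Agent.UQ.QTwo
import Pool.Agent.UQ.QSum

set_option autoImplicit false

namespace Pool.Agent.UQ

open Finset

variable {α χ : Type} [Fintype α] [DecidableEq α] [Fintype χ] [DecidableEq χ]

lemma qthree_mem (c : Cfg α χ) (a : α) {u : Finset χ} (hu : u ∈ c.Q a) :
    3 ≤ u.card ∧ a ∈ c.Ah u.card := by
  unfold Cfg.Q at hu
  rw [Finset.mem_filter] at hu
  have h1 := hu.1
  unfold Cfg.Nd at h1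
  rw [Finset.mem_filter] at h1
  exact ⟨c.hT u h1.1, hu.2.2.1⟩

/-- the first sum, split by the two levels -/
lemma qthree_first (c : Cfg α χ) (a : α) (s t : ℕ) (hs : 3 ≤ s) (ht : 3 ≤ t)
    (hp : c.p (c.μ a) = pr s) :
    ∑ x ∈ c.N a, max 0 (c.p (c.μ a) - c.p x) ≤
      (((c.N a \ c.Z s) \ c.Z t).card : ℝ) * pr s +
        (((c.N a \ c.Z s) ∩ c.Z t).card : ℝ) * (pr s - pr t) := by
  have h1 : ∑ x ∈ c.N a, max 0 (c.p (c.μ a) - c.p x) =
      ∑ x ∈ c.N a \ c.Z s, max 0 (c.p (c.μ a) - c.p x) := by
    symm
    apply Finset.sum_subset Finset.sdiff_subset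
    intro x hx hx'
    have hxZ : x ∈ c.Z s := by
      by_contra hcon
      exact hx' (Finset.mem_sdiff.mpr ⟨hx, hcon⟩)
    have h2 := p_of_mem_Z c hs hxZ
    rw [hp]
    exact max_eq_left (by linarith)
  rw [h1]
  have h2 : ∑ x ∈ c.N a \ c.Z s, max 0 (c.p (c.μ a) - c.p x) =
      ∑ x ∈ (c.N a \ c.Z s) \ c.Z t, max 0 (c.p (c.μ a) - c.p x) +
      ∑ x ∈ (c.N a \ c.Z s) ∩ c.Z t, max 0 (c.p (c.μ a) - c.p x) := by
    rw [← Finset.sum_union]
    · congr 1
      exact (Finset.sdiff_union_inter _ _).symm
    · exact Finset.disjoint_sdiff_inter _ _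
  rw [h2]
  refine add_le_add ?_ ?_
  · rw [← nsmul_eq_mul]
    apply Finset.sum_le_card_nsmul
    intro x _
    rw [hp]
    have := p_nonneg c x
    have := pr_pos s hs
    exact max_le (by linarith) (by linarith)
  · by_cases hne : ((c.N a \ c.Z s) ∩ c.Z t) = ∅
    · rw [hne]
      simp
    · rw [← nsmul_eq_mul]
      apply Finset.sum_le_card_nsmul
      intro x hx
      rw [Finset.mem_inter] at hx
      have h3 := p_of_mem_Z c ht hx.2
      rw [hp]
      by_cases h4 : pr t ≤ pr s
      · exact max_le (by linarith) (by linarith)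
      · -- then `t < s`, and `x ∉ Z s` is compatible only if the prices are ordered
        exfalso
        push Not at h4
        -- `t < s`
        have hts : t < s := by
          by_contra h5
          push Not at h5
          exact absurd (pr_anti s t hs h5) (not_le.mpr h4)
        -- `Z t ⊆ Z s`
        have hsub : c.Z t ⊆ c.Z s := by
          intro y hy
          unfold Cfg.Z at hy ⊢
          rw [Finset.mem_union] at hy ⊢
          have hS : c.S t ⊆ c.S s := by
            intro w hw
            unfold Cfg.S vs low at hw ⊢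
            rw [Finset.mem_biUnion] at hw ⊢
            obtain ⟨E, hE, hwE⟩ := hw
            rw [Finset.mem_filter] at hE
            exact ⟨E, Finset.mem_filter.mpr ⟨hE.1, by omega⟩, hwE⟩
          rcases hy with hy | hy
          · exact Or.inl (hS hy)
          · right
            rw [Finset.mem_image] at hy ⊢
            obtain ⟨b, hb, rfl⟩ := hy
            refine ⟨b, ?_, rfl⟩
            unfold Cfg.Ah at hb ⊢
            rw [Finset.mem_filter] at hb ⊢
            obtain ⟨-, A, hbA, hA⟩ := hb
            refine ⟨Finset.mem_univ _, A, hbA, ?_⟩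
            have : (nb c.Γ A \ c.S s).card ≤ (nb c.Γ A \ c.S t).card :=
              Finset.card_le_card (Finset.sdiff_subset_sdiff (Finset.Subset.refl _) hS)
            omega
        have := hsub hx.2
        exact (Finset.mem_sdiff.mp hx.1).2 this

/-- (Q3) -/
theorem q3 (c : Cfg α χ) (a : α) :
    ∑ x ∈ c.N a, max 0 (c.p (c.μ a) - c.p x) + ∑ u ∈ c.Q a, ((u.card : ℝ) - 1) * c.X u ≤ 1 := by
  rcases p_mu c a with h0 | ⟨s, hs, hp, haA, hmin⟩
  · -- price zero
    have hQ : c.Q a = ∅ := by
      rw [Finset.eq_empty_iff_forall_notMem]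
      intro u hu
      obtain ⟨h3, hA⟩ := qthree_mem c a hu
      have hZ : c.μ a ∈ c.Z u.card := by
        unfold Cfg.Z
        exact Finset.mem_union_right _ (Finset.mem_image_of_mem _ hA)
      have h1 := p_of_mem_Z c h3 hZ
      have h2 := pr_pos u.card h3
      linarith
    rw [hQ, Finset.sum_empty, add_zero]
    have : ∑ x ∈ c.N a, max 0 (c.p (c.μ a) - c.p x) = 0 := by
      apply Finset.sum_eq_zero
      intro x _
      rw [h0]
      have := p_nonneg c x
      exact max_eq_left (by linarith)
    rw [this]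
    norm_num
  · have hH1 := H1 c s a haA
    have hpos := pr_pos s hs
    by_cases hQ : c.Q a = ∅
    · rw [hQ, Finset.sum_empty, add_zero]
      have h1 := qthree_first c a s s hs hs hp
      have h2 : (c.N a \ c.Z s) ∩ c.Z s = ∅ := Finset.sdiff_inter_self _ _
      rw [h2, Finset.card_empty, Nat.cast_zero, zero_mul, add_zero] at h1
      have h3 : (((c.N a \ c.Z s) \ c.Z s).card : ℝ) ≤ s := by
        have h4 : ((c.N a \ c.Z s) \ c.Z s).card ≤ s :=
          (Finset.card_le_card Finset.sdiff_subset).trans hH1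
        exact_mod_cast h4
      have h5 := pr_mul_le s hs
      have h6 := mul_le_mul_of_nonneg_right h3 hpos.le
      linarith
    · have hne : (c.Q a).Nonempty := Finset.nonempty_iff_ne_empty.mpr hQ
      have hge : ∀ u ∈ c.Q a, s ≤ u.card := by
        intro u hu
        obtain ⟨h3, hA⟩ := qthree_mem c a hu
        by_contra hcon
        push Not at hcon
        exact hmin u.card h3 hcon hA
      obtain ⟨u1, hu1, -, hsum⟩ := qsum c a s hs hp (c.Q a) (Finset.Subset.refl _) hne hge
      obtain ⟨ht3, -⟩ := qthree_mem c a hu1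
      have hst := hge u1 hu1
      set t := u1.card with ht
      have h1 := qthree_first c a s t hs ht3 hp
      set n1 := ((c.N a \ c.Z s) \ c.Z t).card with hn1
      set n2 := ((c.N a \ c.Z s) ∩ c.Z t).card with hn2
      have h12 : n1 + n2 ≤ s := by
        have h3 : n1 + n2 = (c.N a \ c.Z s).card := by
          rw [hn1, hn2]
          exact Finset.card_sdiff_add_card_inter _ _
        omega
      have hn1t : n1 + 1 ≤ t := by
        have h4 : (c.N a \ c.Z s) \ c.Z t ⊆ c.bt u1 := by
          intro x hx
          rw [Finset.mem_sdiff, Finset.mem_sdiff] at hx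
          exact q1' c a hu1 (Finset.mem_sdiff.mpr ⟨hx.1.1, hx.2⟩)
        have h5 := Finset.card_le_card h4
        have h6 : (c.bt u1).card + (c.tch u1).card = t := by
          unfold Cfg.bt Cfg.tch
          rw [ht]
          exact Finset.card_sdiff_add_card_inter _ _
        rw [q_tch c a hu1, Finset.card_singleton] at h6
        omega
      have hpt := pr_pos t ht3
      have hn2' : (0 : ℝ) ≤ n2 := Nat.cast_nonneg _
      rcases Nat.lt_or_ge s t with hlt | hge'
      · have h7 : ((n1 : ℝ) + n2) ≤ (t : ℝ) - 1 := by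
          have : n1 + n2 + 1 ≤ t := by omega
          have h8 : ((n1 + n2 + 1 : ℕ) : ℝ) ≤ t := by exact_mod_cast this
          push_cast at h8
          linarith
        have h9 := mul_le_mul_of_nonneg_right h7 hpos.le
        have h10 := mul_nonneg hn2' hpt.le
        linarith
      · have hst' : s = t := le_antisymm hst hge'
        have hn20 : n2 = 0 := by
          rw [hn2, ← hst', Finset.sdiff_inter_self, Finset.card_empty]
        rw [hn20, Nat.cast_zero, zero_mul, add_zero] at h1
        have h7 : (n1 : ℝ) ≤ (t : ℝ) - 1 := by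
          have h8 : ((n1 + 1 : ℕ) : ℝ) ≤ t := by exact_mod_cast hn1t
          push_cast at h8
          linarith
        have h9 := mul_le_mul_of_nonneg_right h7 hpos.le
        linarith

end Pool.Agent.UQ
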