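import Pool.Agent.UQ.Defs
import Pool.Agent.UQ.Mono
import Pool.Agent.UQ.NeedyTouch

set_option autoImplicit false

namespace Pool.Agent.UQ

open Finset

variable {α χ : Type} [Fintype α] [DecidableEq α] [Fintype χ] [DecidableEq χ]

/-- A needy edge is spanned or of Q-type at exactly one centre. -/
theorem split (c : Cfg α χ) (f : Finset χ → ℝ) :
    ∑ u ∈ c.Nd, f u = ∑ u ∈ c.Sp, f u + ∑ a, ∑ u ∈ c.Q a, f u := by
  classical
  -- a member of `Q a` has the small vertex `μ a`
  have hQz : ∀ a, ∀ u ∈ c.Q a, ∀ z, c.tch u = {z} → z = c.μ a := by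
    intro a u hu z hz
    obtain ⟨-, hμ, hA, -⟩ := mem_filter.1 hu
    have h1 : c.μ a ∈ c.tch u := mem_inter.2 ⟨hμ, (mu_mem_Z c _ a).2 hA⟩
    rw [hz, mem_singleton] at h1
    exact h1.symm
  have hdisj : ∀ a b, a ≠ b → Disjoint (c.Q a) (c.Q b) := by
    intro a b hab
    rw [Finset.disjoint_left]
    intro u hu hu'
    obtain ⟨z, -, -, hz, -⟩ := needy_touch c (mem_filter.1 hu).1
    exact hab (c.hμ ((hQz a u hu z hz).symm.trans (hQz b u hu' z hz)))
  have hSpQ : Disjoint c.Sp (univ.biUnion c.Q) := by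
    rw [Finset.disjoint_left]
    intro u hu hu'
    obtain ⟨a, -, ha⟩ := mem_biUnion.1 hu'
    obtain ⟨hN, hsub⟩ := mem_filter.1 hu
    obtain ⟨z, -, -, hz, -⟩ := needy_touch c hN
    have h1 := hQz a u ha z hz
    obtain ⟨-, -, -, hAt⟩ := mem_filter.1 ha
    have h2 : z ∈ c.S u.card ∪ (c.At u.card).image c.μ := hsub (by rw [hz]; exact mem_singleton_self z)
    rcases mem_union.1 h2 with h3 | h3
    · exact c.hμB a (S_sub c _ (by rw [← h1]; exact h3))
    · obtain ⟨b, hb, hbz⟩ := mem_image.1 h3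
      have : b = a := c.hμ (hbz.trans h1)
      exact hAt (this ▸ hb)
  have hunion : c.Nd = c.Sp ∪ univ.biUnion c.Q := by
    ext u
    rw [mem_union]
    constructor
    · intro hu
      by_cases hSp : u ∈ c.Sp
      · exact Or.inl hSp
      · right
        obtain ⟨z, hzu, hzZ, hz, -⟩ := needy_touch c hu
        have hz' : z ∉ c.S u.card ∪ (c.At u.card).image c.μ := by
          intro h
          apply hSp
          refine mem_filter.2 ⟨hu, ?_⟩
          rw [hz]
          exact singleton_subset_iff.2 h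
        rw [mem_union, not_or] at hz'
        rcases mem_union.1 hzZ with h | h
        · exact absurd h hz'.1
        · obtain ⟨a, ha, haz⟩ := mem_image.1 h
          refine mem_biUnion.2 ⟨a, mem_univ a, mem_filter.2 ⟨hu, ?_, ha, ?_⟩⟩
          · rw [haz]; exact hzu
          · intro hAt
            exact hz'.2 (mem_image.2 ⟨a, hAt, haz⟩)
    · rintro (h | h)
      · exact (mem_filter.1 h).1
      · obtain ⟨a, -, ha⟩ := mem_biUnion.1 h
        exact (mem_filter.1 ha).1
  rw [hunion, sum_union hSpQ, sum_biUnion fun a _ b _ hab => hdisj a b hab]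

end Pool.Agent.UQ
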