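import Pool.Agent.UQ.Defs
import Pool.Agent.UQ.PFacts
import Pool.Agent.UQ.NeedyTouch
import Pool.Agent.UQ.QThree
import Pool.Agent.UQ.Split
import Pool.Agent.UQ.AccOne
import Pool.Agent.UQ.AccTwo
import Pool.Agent.UQ.FlowEx
import Pool.Agent.UQ.PerV

set_option autoImplicit false

namespace Pool.Agent.UQ

open Finset

variable {α χ : Type} [Fintype α] [DecidableEq α] [Fintype χ] [DecidableEq χ]

/-- the cost of the missing slots at `a` -/
theorem miss_slots {c : Cfg α χ} (F : Flow c) (a : α) :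
    ∑ u ∈ c.Sp, (F.m u a : ℝ) * max 0 (c.X u + c.p (F.z u) - c.p (c.μ a))
      + ((c.D : ℝ) - (c.N a).card) * c.p (c.μ a) ≤ ((c.D : ℝ) - (c.N a).card) / 2 := by
  have hpa := p_le c (c.μ a)
  have h1 : ∀ u ∈ c.Sp, (F.m u a : ℝ) * max 0 (c.X u + c.p (F.z u) - c.p (c.μ a))
      ≤ (F.m u a : ℝ) * (1 / 2 - c.p (c.μ a)) := by
    intro u hu
    apply mul_le_mul_of_nonneg_left _ (Nat.cast_nonneg _)
    apply max_le
    · linarith
    · have hNd : u ∈ c.Nd := (Finset.mem_filter.mp hu).1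
      rw [X_add c hNd (F.hz u hu)]
      have hT : u ∈ c.T := (Finset.mem_filter.mp hNd).1
      have h3 : (3 : ℝ) ≤ u.card := by exact_mod_cast c.hT u hT
      have h4 : 1 / ((u.card : ℝ) - 1) ≤ 1 / 2 :=
        one_div_le_one_div_of_le (by norm_num) (by linarith)
      have h5 : 0 ≤ ∑ x ∈ c.bt u, c.p x := Finset.sum_nonneg (fun x _ => p_nonneg c x)
      linarith
  have h2 : (∑ u ∈ c.Sp, (F.m u a : ℝ)) ≤ (c.D : ℝ) - (c.N a).card := by
    have := F.hm a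
    have h' : ((∑ u ∈ c.Sp, F.m u a + (c.N a).card : ℕ) : ℝ) ≤ c.D := by exact_mod_cast this
    push_cast at h'
    linarith
  have h3 := Finset.sum_le_sum h1
  rw [← Finset.sum_mul] at h3
  have h4 : (∑ u ∈ c.Sp, (F.m u a : ℝ)) * (1 / 2 - c.p (c.μ a))
      ≤ ((c.D : ℝ) - (c.N a).card) * (1 / 2 - c.p (c.μ a)) :=
    mul_le_mul_of_nonneg_right h2 (by linarith)
  nlinarith [h3, h4]

/-- positive and negative parts of the price differences at `a` -/
theorem base_slots (c : Cfg α χ) (a : α) :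
    (c.D : ℝ) * c.p (c.μ a) - ∑ x ∈ c.N a, c.p x
      = ∑ x ∈ c.N a, max 0 (c.p (c.μ a) - c.p x) - ∑ x ∈ c.N a, max 0 (c.p x - c.p (c.μ a))
        + ((c.D : ℝ) - (c.N a).card) * c.p (c.μ a) := by
  have h1 : ∑ x ∈ c.N a, (c.p (c.μ a) - c.p x)
      = ∑ x ∈ c.N a, max 0 (c.p (c.μ a) - c.p x) - ∑ x ∈ c.N a, max 0 (c.p x - c.p (c.μ a)) := by
    rw [← Finset.sum_sub_distrib]
    apply Finset.sum_congr rfl
    intro x _
    rcases le_total (c.p (c.μ a)) (c.p x) with h | h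
    · rw [max_eq_left (by linarith : c.p (c.μ a) - c.p x ≤ 0),
        max_eq_right (by linarith : 0 ≤ c.p x - c.p (c.μ a))]
      ring
    · rw [max_eq_right (by linarith : 0 ≤ c.p (c.μ a) - c.p x),
        max_eq_left (by linarith : c.p x - c.p (c.μ a) ≤ 0)]
      ring
  rw [← h1, Finset.sum_sub_distrib, Finset.sum_const, nsmul_eq_mul]
  ring

/-- (MC') -/
theorem mcprime (c : Cfg α χ) :
    (c.T.card : ℝ) ≤ ((c.D : ℝ) + 1) * c.B.card
      + ∑ a, (1 + ((c.D : ℝ) - (c.N a).card) / 2) := by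
  have hNa : ∀ a, 0 ≤ (c.D : ℝ) - (c.N a).card := by
    intro a
    have : ((c.N a).card : ℝ) ≤ c.D := by exact_mod_cast c.hN a
    linarith
  rcases isEmpty_or_nonempty χ with hχ | hχ
  · have hT : c.T = ∅ := by
      apply Finset.eq_empty_of_forall_notMem
      intro E hE
      have h3 := c.hT E hE
      have : E = ∅ := Finset.eq_empty_of_isEmpty E
      rw [this] at h3
      simp at h3
    rw [hT]
    have h1 : 0 ≤ ∑ a, (1 + ((c.D : ℝ) - (c.N a).card) / 2) :=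
      Finset.sum_nonneg (fun a _ => by have := hNa a; linarith)
    have h2 : 0 ≤ ((c.D : ℝ) + 1) * c.B.card := by positivity
    simp only [Finset.card_empty, Nat.cast_zero]
    linarith
  · obtain ⟨F⟩ := flow_exists c
    have hac1 := ac1 c
    have hac2 := ac2 c
    have hsp := split c (fun u => ((u.card : ℝ) - 1) * c.X u)
    have hacc := F.hacc
    have hswap1 : ∑ u ∈ c.Sp, ∑ a, (F.m u a : ℝ) * max 0 (c.X u + c.p (F.z u) - c.p (c.μ a))
        = ∑ a, ∑ u ∈ c.Sp, (F.m u a : ℝ) * max 0 (c.X u + c.p (F.z u) - c.p (c.μ a)) :=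
      Finset.sum_comm
    have hswap2 : ∑ u ∈ c.Sp, ∑ v ∈ c.B, (F.r u v : ℝ) * max 0 (c.X u + c.p (F.z u) - pr v.card)
        = ∑ v ∈ c.B, ∑ u ∈ c.Sp, (F.r u v : ℝ) * max 0 (c.X u + c.p (F.z u) - pr v.card) :=
      Finset.sum_comm
    rw [hswap1, hswap2] at hacc
    have hbase : ∑ a, ((c.D : ℝ) * c.p (c.μ a) - ∑ x ∈ c.N a, c.p x)
        = ∑ a, ∑ x ∈ c.N a, max 0 (c.p (c.μ a) - c.p x)
          - ∑ a, ∑ x ∈ c.N a, max 0 (c.p x - c.p (c.μ a))
          + ∑ a, ((c.D : ℝ) - (c.N a).card) * c.p (c.μ a) := by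
      rw [← Finset.sum_sub_distrib, ← Finset.sum_add_distrib]
      exact Finset.sum_congr rfl (fun a _ => base_slots c a)
    have hq : ∑ a, ∑ x ∈ c.N a, max 0 (c.p (c.μ a) - c.p x)
        + ∑ a, ∑ u ∈ c.Q a, ((u.card : ℝ) - 1) * c.X u ≤ ∑ a : α, (1 : ℝ) := by
      rw [← Finset.sum_add_distrib]
      exact Finset.sum_le_sum (fun a _ => q3 c a)
    have hms : ∑ a, ∑ u ∈ c.Sp, (F.m u a : ℝ) * max 0 (c.X u + c.p (F.z u) - c.p (c.μ a))
        + ∑ a, ((c.D : ℝ) - (c.N a).card) * c.p (c.μ a)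
        ≤ ∑ a, ((c.D : ℝ) - (c.N a).card) / 2 := by
      rw [← Finset.sum_add_distrib]
      exact Finset.sum_le_sum (fun a _ => miss_slots F a)
    have hpv : ∑ v ∈ c.B, (v.card : ℝ) * pr v.card * ((c.D : ℝ) - ((v.card : ℝ) - 1))
        + ∑ v ∈ c.B, ∑ u ∈ c.Sp, (F.r u v : ℝ) * max 0 (c.X u + c.p (F.z u) - pr v.card)
        ≤ (c.B.card : ℝ) * c.D := by
      rw [← Finset.sum_add_distrib]
      calc _ ≤ ∑ v ∈ c.B, (c.D : ℝ) := Finset.sum_le_sum (fun v hv => perv F hv)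
        _ = (c.B.card : ℝ) * c.D := by rw [Finset.sum_const, nsmul_eq_mul]
    have hfin : ∑ a, (1 + ((c.D : ℝ) - (c.N a).card) / 2)
        = ∑ a : α, (1 : ℝ) + ∑ a, ((c.D : ℝ) - (c.N a).card) / 2 := Finset.sum_add_distrib
    rw [hfin]
    have e1 : ((c.D : ℝ) + 1) * c.B.card = c.B.card + (c.B.card : ℝ) * c.D := by ring
    rw [e1]
    linarith

end Pool.Agent.UQ
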