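import Pool.Agent.UQ.Defs

set_option autoImplicit false

namespace Pool.Agent.UQ

open Finset

variable {V : Type} [Fintype V] [DecidableEq V]

/-- the graph of the 2-edges of `H` on `S` -/
private def tgr (H : Finset (Finset V)) (S : Finset V) : SimpleGraph S where
  Adj x y := x ≠ y ∧ ({x.1, y.1} : Finset V) ∈ H
  symm := ⟨fun x y h => ⟨h.1.symm, by rw [Finset.pair_comm]; exact h.2⟩⟩
  loopless := ⟨fun _ h => h.1 rfl⟩

private lemma tgr_pm (H : Finset (Finset V)) (S : Finset V)
    (M : (tgr H S).Subgraph) (hM : M.IsPerfectMatching) : PM H S := by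
  classical
  have hu := SimpleGraph.Subgraph.isPerfectMatching_iff.mp hM
  choose m hm using hu
  have hadj : ∀ v, M.Adj v (m v) := fun v => (hm v).1
  have huniq : ∀ v w, M.Adj v w → w = m v := fun v w h => (hm v).2 w h
  have hmm : ∀ v, m (m v) = v := fun v => (huniq _ _ (hadj v).symm).symm
  have hG : ∀ v, v ≠ m v ∧ ({v.1, (m v).1} : Finset V) ∈ H := fun v => M.adj_sub (hadj v)
  refine ⟨S.attach.image (fun v => ({v.1, (m v).1} : Finset V)), ?_, ?_, ?_, ?_⟩
  · intro e he
    obtain ⟨v, _, rfl⟩ := Finset.mem_image.mp he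
    exact (hG v).2
  · intro e he
    obtain ⟨v, _, rfl⟩ := Finset.mem_image.mp he
    exact Finset.card_pair (fun h => (hG v).1 (Subtype.ext h))
  · intro e he f hf hef
    obtain ⟨v, _, rfl⟩ := Finset.mem_image.mp he
    obtain ⟨w, _, rfl⟩ := Finset.mem_image.mp hf
    rw [Finset.disjoint_left]
    intro x hx hx'
    apply hef
    rw [Finset.mem_insert, Finset.mem_singleton] at hx hx'
    rcases hx with hx | hx <;> rcases hx' with hx' | hx'
    · have h : v = w := Subtype.ext (hx.symm.trans hx')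
      rw [h]
    · have h : v = m w := Subtype.ext (hx.symm.trans hx')
      rw [h, hmm, Finset.pair_comm]
    · have h : m v = w := Subtype.ext (hx.symm.trans hx')
      rw [← h, hmm, Finset.pair_comm]
    · have h : m v = m w := Subtype.ext (hx.symm.trans hx')
      have h' : v = w := by rw [← hmm v, h, hmm]
      rw [h']
  · ext x
    unfold vs
    rw [Finset.mem_biUnion]
    constructor
    · rintro ⟨e, he, hx⟩
      obtain ⟨v, _, rfl⟩ := Finset.mem_image.mp he
      rw [id, Finset.mem_insert, Finset.mem_singleton] at hx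
      rcases hx with hx | hx
      · rw [hx]; exact v.2
      · rw [hx]; exact (m v).2
    · intro hx
      exact ⟨_, Finset.mem_image_of_mem _ (Finset.mem_attach S ⟨x, hx⟩),
        Finset.mem_insert_self _ _⟩

/-- Tutte's theorem for the graph of 2-edges of `H` on a vertex set `S` of even size. -/
theorem tutteFin (H : Finset (Finset V)) (S : Finset V) (hS : Even S.card) (h : ¬ PM H S) :
    ∃ W ⊆ S, ∃ P : Finset (Finset V),
      (∀ K ∈ P, K ⊆ S \ W ∧ Odd K.card) ∧
      (∀ K ∈ P, ∀ L ∈ P, K ≠ L → Disjoint K L) ∧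
      (∀ K ∈ P, ∀ x ∈ K, ∀ y ∈ S \ W, y ∉ K → ({x, y} : Finset V) ∉ H) ∧
      W.card + 2 ≤ P.card := by
  classical
  have hno : ¬ ∃ M : (tgr H S).Subgraph, M.IsPerfectMatching :=
    fun ⟨M, hM⟩ => h (tgr_pm H S M hM)
  rw [SimpleGraph.tutte] at hno
  push Not at hno
  obtain ⟨u, hu⟩ := hno
  unfold SimpleGraph.IsTutteViolator at hu
  set Y := ((⊤ : (tgr H S).Subgraph).deleteVerts u) with hY
  have hverts : ∀ y : S, y ∈ Y.verts ↔ y ∉ u := by
    intro y
    rw [hY, SimpleGraph.Subgraph.deleteVerts_verts]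
    exact ⟨fun h => h.2, fun h => ⟨trivial, h⟩⟩
  have hYc : Y.verts = uᶜ := by
    ext y
    rw [hverts y]
    rfl
  have hcardX : u.ncard + Nat.card Y.verts = S.card := by
    have h1 : Nat.card Y.verts = Y.verts.ncard := rfl
    rw [h1, hYc, Set.ncard_add_ncard_compl, Nat.card_eq_fintype_card, Fintype.card_coe]
  have hpar := SimpleGraph.odd_ncard_oddComponents (G := Y.coe)
  have hge : u.ncard + 2 ≤ Y.coe.oddComponents.ncard := by
    rw [Nat.odd_iff, Nat.odd_iff] at hpar
    rw [Nat.even_iff] at hS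
    omega
  -- the blocks
  let f : Y.coe.ConnectedComponent → Finset V := fun c =>
    (Finset.univ.filter (fun y : Y.verts => y ∈ c.supp)).image (fun y => (y.1.1 : V))
  have hinj : Function.Injective (fun y : Y.verts => (y.1.1 : V)) := fun a b hab =>
    Subtype.ext (Subtype.ext hab)
  have hmem : ∀ (c : Y.coe.ConnectedComponent) (x : V), x ∈ f c ↔
      ∃ y : Y.verts, y ∈ c.supp ∧ (y.1.1 : V) = x := by
    intro c x
    show x ∈ (Finset.univ.filter (fun y : Y.verts => y ∈ c.supp)).image _ ↔ _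
    rw [Finset.mem_image]
    constructor
    · rintro ⟨y, hy, hx⟩
      exact ⟨y, (Finset.mem_filter.mp hy).2, hx⟩
    · rintro ⟨y, hy, hx⟩
      exact ⟨y, Finset.mem_filter.mpr ⟨Finset.mem_univ _, hy⟩, hx⟩
  have hcard : ∀ c : Y.coe.ConnectedComponent, (f c).card = c.supp.ncard := by
    intro c
    show ((Finset.univ.filter (fun y : Y.verts => y ∈ c.supp)).image _).card = _
    rw [Finset.card_image_of_injective _ hinj, Set.ncard_eq_toFinset_card']
    congr 1
    ext y
    rw [Finset.mem_filter, Set.mem_toFinset]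
    exact ⟨fun h => h.2, fun h => ⟨Finset.mem_univ _, h⟩⟩
  have hcomp : ∀ (c d : Y.coe.ConnectedComponent) (x : V), x ∈ f c → x ∈ f d → c = d := by
    intro c d x hc hd
    obtain ⟨y, hy, hyx⟩ := (hmem c x).mp hc
    obtain ⟨y', hy', hyx'⟩ := (hmem d x).mp hd
    have h1 : y = y' := hinj (hyx.trans hyx'.symm)
    rw [← h1] at hy'
    exact hy.symm.trans hy'
  have hne : ∀ c : Y.coe.ConnectedComponent, (f c).Nonempty := by
    intro c
    obtain ⟨y, hy⟩ := c.nonempty_supp
    exact ⟨_, (hmem c _).mpr ⟨y, hy, rfl⟩⟩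
  have hfin : Y.coe.oddComponents.Finite := Set.toFinite _
  let P : Finset (Finset V) := hfin.toFinset.image f
  have hPcard : P.card = Y.coe.oddComponents.ncard := by
    rw [Set.ncard_eq_toFinset_card _ hfin]
    refine Finset.card_image_of_injOn ?_
    intro c _ d _ hcd
    obtain ⟨x, hx⟩ := hne c
    have hx' : x ∈ f d := by
      have h1 : f c = f d := hcd
      rw [← h1]
      exact hx
    exact hcomp c d x hx hx'
  let W : Finset V := S.attach.filter (fun y => y ∈ u) |>.image (fun y => y.1)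
  have hWmem : ∀ x : V, x ∈ W ↔ ∃ hx : x ∈ S, (⟨x, hx⟩ : S) ∈ u := by
    intro x
    show x ∈ (S.attach.filter (fun y => y ∈ u)).image (fun y => y.1) ↔ _
    rw [Finset.mem_image]
    constructor
    · rintro ⟨y, hy, rfl⟩
      exact ⟨y.2, (Finset.mem_filter.mp hy).2⟩
    · rintro ⟨hx, hxu⟩
      exact ⟨⟨x, hx⟩, Finset.mem_filter.mpr ⟨Finset.mem_attach _ _, hxu⟩, rfl⟩
  have hWcard : W.card = u.ncard := by
    show ((S.attach.filter (fun y => y ∈ u)).image (fun y => y.1)).card = _
    rw [Finset.card_image_of_injective _ Subtype.val_injective, Set.ncard_eq_toFinset_card']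
    congr 1
    ext y
    rw [Finset.mem_filter, Set.mem_toFinset]
    exact ⟨fun h => h.2, fun h => ⟨Finset.mem_attach _ _, h⟩⟩
  refine ⟨W, ?_, P, ?_, ?_, ?_, ?_⟩
  · intro x hx
    obtain ⟨hxS, _⟩ := (hWmem x).mp hx
    exact hxS
  · intro K hK
    obtain ⟨c, hc, rfl⟩ := Finset.mem_image.mp hK
    refine ⟨?_, ?_⟩
    · intro x hx
      obtain ⟨y, hy, rfl⟩ := (hmem c x).mp hx
      refine Finset.mem_sdiff.mpr ⟨y.1.2, fun hxW => ?_⟩
      obtain ⟨hx', hxu⟩ := (hWmem _).mp hxW
      exact (hverts y.1).mp y.2 hxu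
    · rw [hcard]
      exact (Set.Finite.mem_toFinset hfin).mp hc
  · intro K hK L hL hKL
    obtain ⟨c, hc, rfl⟩ := Finset.mem_image.mp hK
    obtain ⟨d, hd, rfl⟩ := Finset.mem_image.mp hL
    rw [Finset.disjoint_left]
    intro x hx hx'
    exact hKL (by rw [hcomp c d x hx hx'])
  · intro K hK x hx y hy hyK hH
    obtain ⟨c, hc, rfl⟩ := Finset.mem_image.mp hK
    obtain ⟨x', hx', rfl⟩ := (hmem c x).mp hx
    rw [Finset.mem_sdiff] at hy
    have hyu : (⟨y, hy.1⟩ : S) ∉ u := fun h' => hy.2 ((hWmem y).mpr ⟨hy.1, h'⟩)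
    have hyY : (⟨y, hy.1⟩ : S) ∈ Y.verts := (hverts _).mpr hyu
    apply hyK
    rw [hmem]
    refine ⟨⟨⟨y, hy.1⟩, hyY⟩, ?_, rfl⟩
    have hadj : Y.coe.Adj x' ⟨⟨y, hy.1⟩, hyY⟩ := by
      show Y.Adj x'.1 ⟨y, hy.1⟩
      refine SimpleGraph.Subgraph.deleteVerts_adj.mpr ?_
      refine ⟨trivial, (hverts _).mp x'.2, trivial, hyu, ?_⟩
      refine ⟨fun h' => ?_, hH⟩
      apply hyK
      rw [hmem]
      exact ⟨x', hx', by rw [h']⟩
    have h1 : Y.coe.connectedComponentMk x' = c := hx'
    show Y.coe.connectedComponentMk _ = c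
    rw [← h1]
    exact (SimpleGraph.ConnectedComponent.sound hadj.reachable).symm
  · rw [hPcard, hWcard]
    exact hge

end Pool.Agent.UQ
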