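import Pool.Agent.UQ.Defs
import Pool.Agent.UQ.TutteFin

set_option autoImplicit false

namespace Pool.Agent.UQ

open Finset

variable {V : Type} [Fintype V] [DecidableEq V]

/-- (G2) -/
theorem maxSys_factor {H : Finset (Finset V)} {A : Finset V} {P : Finset (Finset V)}
    (h : MaxSys H A P) {K : Finset V} (hK : K ∈ P) {v : V} (hv : v ∈ K) : PM H (K.erase v) := by
  by_contra hno
  have hodd := h.sys.odd K hK
  have heven : Even (K.erase v).card := by
    rw [Finset.card_erase_of_mem hv]
    rw [Nat.odd_iff] at hodd
    rw [Nat.even_iff]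
    omega
  obtain ⟨W, hW, P', h1, h2, h3, h4⟩ := tutteFin H (K.erase v) heven hno
  have hWK : W ⊆ K := hW.trans (Finset.erase_subset _ _)
  have hvW : v ∉ W := fun hvW => (Finset.mem_erase.mp (hW hvW)).1 rfl
  have hKA := h.sys.sub K hK
  have hvA : v ∉ A := fun hvA => Finset.disjoint_left.mp hKA hv hvA
  have hWA : Disjoint W A := Finset.disjoint_of_subset_left hWK hKA
  have hsubK : ∀ L ∈ P', L ⊆ K := fun L hL =>
    ((h1 L hL).1.trans Finset.sdiff_subset).trans (Finset.erase_subset _ _)
  have hPK : ∀ L ∈ P.erase K, Disjoint L K := fun L hL =>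
    h.sys.dis L (Finset.mem_of_mem_erase hL) K hK (Finset.ne_of_mem_erase hL)
  have hsys : Sys H (A ∪ insert v W) (P.erase K ∪ P') := by
    refine ⟨?_, ?_, ?_, ?_⟩
    · intro L hL
      rw [Finset.disjoint_union_right]
      rcases Finset.mem_union.mp hL with hL | hL
      · refine ⟨h.sys.sub L (Finset.mem_of_mem_erase hL), ?_⟩
        exact Finset.disjoint_of_subset_right (Finset.insert_subset hv hWK) (hPK L hL)
      · refine ⟨Finset.disjoint_of_subset_left (hsubK L hL) hKA, ?_⟩
        rw [Finset.disjoint_left]
        intro x hx hxW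
        have hx1 := Finset.mem_sdiff.mp ((h1 L hL).1 hx)
        rcases Finset.mem_insert.mp hxW with hxv | hxW
        · exact (Finset.mem_erase.mp hx1.1).1 hxv
        · exact hx1.2 hxW
    · intro L hL
      rcases Finset.mem_union.mp hL with hL | hL
      · exact h.sys.odd L (Finset.mem_of_mem_erase hL)
      · exact (h1 L hL).2
    · intro L hL L' hL' hne
      rcases Finset.mem_union.mp hL with hL | hL <;> rcases Finset.mem_union.mp hL' with hL' | hL'
      · exact h.sys.dis L (Finset.mem_of_mem_erase hL) L' (Finset.mem_of_mem_erase hL') hne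
      · exact Finset.disjoint_of_subset_right (hsubK L' hL') (hPK L hL)
      · exact Finset.disjoint_of_subset_left (hsubK L hL) (hPK L' hL').symm
      · exact h2 L hL L' hL' hne
    · intro L hL x hx y hy hyA
      rw [Finset.mem_union, Finset.mem_insert] at hyA
      push Not at hyA
      rcases Finset.mem_union.mp hL with hL | hL
      · exact h.sys.iso L (Finset.mem_of_mem_erase hL) x hx y hy hyA.1
      · by_cases hyK : y ∈ K
        · exact h3 L hL x hx y
            (Finset.mem_sdiff.mpr ⟨Finset.mem_erase.mpr ⟨hyA.2.1, hyK⟩, hyA.2.2⟩) hy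
        · exact h.sys.iso K hK x (hsubK L hL hx) y hyK hyA.1
  have hdisj : Disjoint (P.erase K) P' := by
    rw [Finset.disjoint_left]
    intro L hL hL'
    have h5 : Disjoint L L := Finset.disjoint_of_subset_right (hsubK L hL') (hPK L hL)
    rw [disjoint_self] at h5
    have h6 := (h1 L hL').2
    rw [h5] at h6
    simp at h6
  have hc1 : (P.erase K ∪ P').card = P.card - 1 + P'.card := by
    rw [Finset.card_union_of_disjoint hdisj, Finset.card_erase_of_mem hK]
  have hc2 : (A ∪ insert v W).card = A.card + (W.card + 1) := by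
    rw [Finset.card_union_of_disjoint, Finset.card_insert_of_notMem hvW]
    rw [Finset.disjoint_insert_right]
    exact ⟨hvA, hWA.symm⟩
  have hPpos : 0 < P.card := Finset.card_pos.mpr ⟨K, hK⟩
  have hm1 := h.max1 _ _ hsys
  have hm2 := h.max2 _ _ hsys
  omega

end Pool.Agent.UQ
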