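import Pool.Agent.UQ.Defs

set_option autoImplicit false

namespace Pool.Agent.UQ

open Finset

variable {V : Type} [Fintype V] [DecidableEq V]

theorem exists_maxSys (H : Finset (Finset V)) : ∃ A P, MaxSys H A P := by
  classical
  let n := Fintype.card V
  let f : Finset V × Finset (Finset V) → ℕ := fun q =>
    (q.2.card + (n - q.1.card)) * (n + 1) + q.1.card
  let s : Finset (Finset V × Finset (Finset V)) := univ.filter (fun q => Sys H q.1 q.2)
  have hs : s.Nonempty := by
    refine ⟨(∅, ∅), mem_filter.2 ⟨mem_univ _, ?_⟩⟩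
    exact ⟨fun K hK => absurd hK (notMem_empty K), fun K hK => absurd hK (notMem_empty K),
      fun K hK => absurd hK (notMem_empty K), fun K hK => absurd hK (notMem_empty K)⟩
  obtain ⟨⟨A, P⟩, hAP, hmax⟩ := s.exists_max_image f hs
  have hA : A.card ≤ n := card_le_univ A
  have key : ∀ A' P', Sys H A' P' → (P'.card + (n - A'.card)) * (n + 1) + A'.card ≤
      (P.card + (n - A.card)) * (n + 1) + A.card := fun A' P' h' =>
    hmax (A', P') (mem_filter.2 ⟨mem_univ _, h'⟩)
  refine ⟨A, P, (mem_filter.1 hAP).2, fun A' P' h' => ?_, fun A' P' h' he => ?_⟩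
  · have h1 := key A' P' h'
    have hA' : A'.card ≤ n := card_le_univ A'
    by_contra hcon
    have h2 : P.card + (n - A.card) + 1 ≤ P'.card + (n - A'.card) := by omega
    have h3 := Nat.mul_le_mul_right (n + 1) h2
    have h4 : (P.card + (n - A.card) + 1) * (n + 1) =
        (P.card + (n - A.card)) * (n + 1) + (n + 1) := by ring
    omega
  · have h1 := key A' P' h'
    have hA' : A'.card ≤ n := card_le_univ A'
    have h2 : P'.card + (n - A'.card) = P.card + (n - A.card) := by omega
    rw [h2] at h1
    omega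

/-- (G1) -/
theorem maxSys_cover {H : Finset (Finset V)} {A : Finset V} {P : Finset (Finset V)}
    (h : MaxSys H A P) (v : V) : v ∈ A ∨ ∃ K ∈ P, v ∈ K := by
  by_contra hcon
  push Not at hcon
  obtain ⟨hvA, hvP⟩ := hcon
  let R : Finset V := univ \ (A ∪ vs P)
  have hR : ∀ x, x ∈ R ↔ x ∉ A ∧ ∀ K ∈ P, x ∉ K := by
    intro x
    simp only [R, vs, mem_sdiff, mem_univ, true_and, mem_union, mem_biUnion, id_eq, not_or,
      not_exists, not_and]
  have hvR : v ∈ R := (hR v).2 ⟨hvA, hvP⟩
  have hiso : ∀ x, x ∉ A → ∀ K ∈ P, x ∉ K → ∀ y ∈ K, ({x, y} : Finset V) ∉ H := by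
    intro x hxA K hK hxK y hy
    rw [pair_comm]
    exact h.sys.iso K hK y hy x hxK hxA
  rcases Nat.even_or_odd R.card with hev | hodd
  · -- even
    have hodd' : Odd (R.erase v).card := by
      rw [card_erase_of_mem hvR]
      have h1 : 0 < R.card := card_pos.2 ⟨v, hvR⟩
      obtain ⟨m, hm⟩ := hev
      exact ⟨m - 1, by omega⟩
    have hsys : Sys H (insert v A) (insert (R.erase v) P) := by
      refine ⟨fun K hK => ?_, fun K hK => ?_, fun K hK L hL hne => ?_, fun K hK x hx y hy hyA => ?_⟩
      · rcases mem_insert.1 hK with h1 | h1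
        · rw [h1, disjoint_left]
          intro x hx hx'
          rcases mem_insert.1 hx' with h2 | h2
          · exact ne_of_mem_erase hx h2
          · exact ((hR x).1 (mem_of_mem_erase hx)).1 h2
        · rw [disjoint_insert_right]
          exact ⟨hvP K h1, h.sys.sub K h1⟩
      · rcases mem_insert.1 hK with h1 | h1
        · rw [h1]; exact hodd'
        · exact h.sys.odd K h1
      · rcases mem_insert.1 hK with h1 | h1 <;> rcases mem_insert.1 hL with h2 | h2
        · exact absurd (h1.trans h2.symm) hne
        · rw [h1, disjoint_left]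
          intro x hx
          exact ((hR x).1 (mem_of_mem_erase hx)).2 L h2
        · rw [h2, disjoint_right]
          intro x hx
          exact ((hR x).1 (mem_of_mem_erase hx)).2 K h1
        · exact h.sys.dis K h1 L h2 hne
      · have hyv : y ≠ v := fun h1 => hyA (mem_insert.2 (Or.inl h1))
        have hyA' : y ∉ A := fun h1 => hyA (mem_insert.2 (Or.inr h1))
        rcases mem_insert.1 hK with h1 | h1
        · rw [h1] at hx hy
          have hx' := (hR x).1 (mem_of_mem_erase hx)
          have hyR : y ∉ R := fun h2 => hy (mem_erase.2 ⟨hyv, h2⟩)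
          have hyK : ∃ L ∈ P, y ∈ L := by
            by_contra h2
            push Not at h2
            exact hyR ((hR y).2 ⟨hyA', h2⟩)
          obtain ⟨L, hL, hyL⟩ := hyK
          exact hiso x hx'.1 L hL (hx'.2 L hL) y hyL
        · exact h.sys.iso K h1 x hx y hy hyA'
    have hnot : R.erase v ∉ P := by
      intro h1
      obtain ⟨x, hx⟩ : (R.erase v).Nonempty := by
        rw [← card_pos]
        obtain ⟨m, hm⟩ := hodd'
        omega
      exact ((hR x).1 (mem_of_mem_erase hx)).2 _ h1 hx
    have h2 := h.max2 _ _ hsys (by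
      rw [card_insert_of_notMem hnot, card_insert_of_notMem hvA]
      omega)
    rw [card_insert_of_notMem hvA] at h2
    omega
  · -- odd
    have hsys : Sys H A (insert R P) := by
      refine ⟨fun K hK => ?_, fun K hK => ?_, fun K hK L hL hne => ?_, fun K hK x hx y hy hyA => ?_⟩
      · rcases mem_insert.1 hK with h1 | h1
        · rw [h1, disjoint_left]
          intro x hx
          exact ((hR x).1 hx).1
        · exact h.sys.sub K h1
      · rcases mem_insert.1 hK with h1 | h1
        · rw [h1]; exact hodd
        · exact h.sys.odd K h1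
      · rcases mem_insert.1 hK with h1 | h1 <;> rcases mem_insert.1 hL with h2 | h2
        · exact absurd (h1.trans h2.symm) hne
        · rw [h1, disjoint_left]
          intro x hx
          exact ((hR x).1 hx).2 L h2
        · rw [h2, disjoint_right]
          intro x hx
          exact ((hR x).1 hx).2 K h1
        · exact h.sys.dis K h1 L h2 hne
      · rcases mem_insert.1 hK with h1 | h1
        · rw [h1] at hx hy
          have hx' := (hR x).1 hx
          have hyK : ∃ L ∈ P, y ∈ L := by
            by_contra h2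
            push Not at h2
            exact hy ((hR y).2 ⟨hyA, h2⟩)
          obtain ⟨L, hL, hyL⟩ := hyK
          exact hiso x hx'.1 L hL (hx'.2 L hL) y hyL
        · exact h.sys.iso K h1 x hx y hy hyA
    have hnot : R ∉ P := fun h1 => hvP R h1 hvR
    have h2 := h.max1 _ _ hsys
    rw [card_insert_of_notMem hnot] at h2
    omega

/-- (G3) -/
theorem maxSys_hall {H : Finset (Finset V)} {A : Finset V} {P : Finset (Finset V)}
    (h : MaxSys H A P) (A' : Finset V) (hA : A' ⊆ A) :
    A'.card ≤ (P.filter (fun K => ∃ a ∈ A', ∃ y ∈ K, ({a, y} : Finset V) ∈ H)).card := by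
  have hsys : Sys H (A \ A')
      (P.filter (fun K => ¬ ∃ a ∈ A', ∃ y ∈ K, ({a, y} : Finset V) ∈ H)) := by
    refine ⟨fun K hK => ?_, fun K hK => ?_, fun K hK L hL hne => ?_, fun K hK x hx y hy hyA => ?_⟩
    · exact (h.sys.sub K (mem_filter.1 hK).1).mono_right sdiff_subset
    · exact h.sys.odd K (mem_filter.1 hK).1
    · exact h.sys.dis K (mem_filter.1 hK).1 L (mem_filter.1 hL).1 hne
    · obtain ⟨hK1, hK2⟩ := mem_filter.1 hK
      by_cases h1 : y ∈ A'
      · intro h2
        rw [pair_comm] at h2
        exact hK2 ⟨y, h1, x, hx, h2⟩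
      · exact h.sys.iso K hK1 x hx y hy fun h2 => hyA (mem_sdiff.2 ⟨h2, h1⟩)
  have h1 := h.max1 _ _ hsys
  have h2 := card_filter_add_card_filter_not (s := P)
    (fun K => ∃ a ∈ A', ∃ y ∈ K, ({a, y} : Finset V) ∈ H)
  have h3 := card_sdiff_add_card_eq_card hA
  omega

end Pool.Agent.UQ
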