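import Pool.Agent.UQ.Defs

set_option autoImplicit false

namespace Pool.Agent.UQ

open Finset

variable {V : Type} [Fintype V] [DecidableEq V]

/-- twice the weight that an edge puts on a vertex -/
def Slack_f (X : Finset V) (E : Finset V) (v : V) : ℕ :=
  (E.card - 1) + (if ∃ x ∈ X, E = {v, x} then 1 else 0)

theorem Slack_ge (X E : Finset V) (h2 : 2 ≤ E.card) (hX : E.card = 2 → ¬ E ⊆ X)
    (hE : ¬ (3 ≤ E.card ∧ E ⊆ X)) : 2 ≤ ∑ v ∈ E \ X, Slack_f X E v := by
  have hsub : ¬ E ⊆ X := by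
    intro h
    rcases Nat.lt_or_ge E.card 3 with h3 | h3
    · exact hX (by omega) h
    · exact hE ⟨h3, h⟩
  obtain ⟨v, hv, hvX⟩ := Finset.not_subset.mp hsub
  have hvm : v ∈ E \ X := mem_sdiff.mpr ⟨hv, hvX⟩
  rcases Nat.lt_or_ge E.card 3 with h3 | h3
  · have hc : E.card = 2 := by omega
    obtain ⟨a, b, hab, rfl⟩ := Finset.card_eq_two.mp hc
    -- the other point
    obtain ⟨w, hw, hEw⟩ : ∃ w, w ≠ v ∧ ({a, b} : Finset V) = {v, w} := by
      rcases mem_insert.mp hv with rfl | hv'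
      · exact ⟨b, hab.symm, rfl⟩
      · rw [mem_singleton] at hv'
        subst hv'
        exact ⟨a, hab, Finset.pair_comm _ _⟩
    rw [hEw] at hc hvm ⊢
    by_cases hwX : w ∈ X
    · refine le_trans ?_ (Finset.single_le_sum (f := fun y => Slack_f X {v, w} y)
        (fun _ _ => Nat.zero_le _) hvm)
      change 2 ≤ (({v, w} : Finset V).card - 1) + (if ∃ x ∈ X, ({v, w} : Finset V) = {v, x} then 1
        else 0)
      rw [if_pos ⟨w, hwX, rfl⟩, hc]
    · have hwm : w ∈ ({v, w} : Finset V) \ X :=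
        mem_sdiff.mpr ⟨mem_insert_of_mem (mem_singleton_self w), hwX⟩
      have hsubs : ({v, w} : Finset V) ⊆ ({v, w} : Finset V) \ X := by
        intro y hy
        rcases mem_insert.mp hy with rfl | hy
        · exact hvm
        · rw [mem_singleton] at hy
          subst hy
          exact hwm
      refine le_trans ?_ (Finset.sum_le_sum_of_subset hsubs)
      rw [Finset.sum_pair hw.symm]
      have h1 : 1 ≤ Slack_f X {v, w} v := by
        change 1 ≤ (({v, w} : Finset V).card - 1) + _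
        rw [hc]
        omega
      have h1' : 1 ≤ Slack_f X {v, w} w := by
        change 1 ≤ (({v, w} : Finset V).card - 1) + _
        rw [hc]
        omega
      omega
  · refine le_trans ?_ (Finset.single_le_sum (f := fun y => Slack_f X E y)
      (fun _ _ => Nat.zero_le _) hvm)
    change 2 ≤ (E.card - 1) + _
    omega

theorem Slack_cnt (H F : Finset (Finset V)) (hF : F ⊆ H) (X : Finset V) (v : V) :
    ∑ E ∈ F.filter (fun E => v ∈ E), (if ∃ x ∈ X, E = {v, x} then 1 else 0)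
      ≤ (X.filter (fun y => ({v, y} : Finset V) ∈ H)).card := by
  rw [← Finset.card_filter]
  refine le_trans (Finset.card_le_card (t := (X.filter
    (fun y => ({v, y} : Finset V) ∈ H)).image (fun y => ({v, y} : Finset V))) ?_)
    Finset.card_image_le
  intro E hE
  obtain ⟨hE1, x, hx, rfl⟩ := mem_filter.mp hE
  have hEF := (mem_filter.mp hE1).1
  exact mem_image.mpr ⟨x, mem_filter.mpr ⟨hx, hF hEF⟩, rfl⟩

/-- (G5) -/
theorem slack (H : Finset (Finset V)) (D : ℕ) (X : Finset V)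
    (hD : ∀ v, ∑ E ∈ H.filter (fun E => v ∈ E), (E.card - 1) ≤ D)
    (h2 : ∀ E ∈ H, 2 ≤ E.card) (hX : ∀ E ∈ H, E.card = 2 → ¬ E ⊆ X) :
    2 * (H.filter (fun E => ¬ (3 ≤ E.card ∧ E ⊆ X))).card
      ≤ ∑ v ∈ univ \ X, (D + (X.filter (fun y => ({v, y} : Finset V) ∈ H)).card) := by
  set F := H.filter (fun E => ¬ (3 ≤ E.card ∧ E ⊆ X)) with hFdef
  have hFH : F ⊆ H := Finset.filter_subset _ _
  have hA : 2 * F.card ≤ ∑ E ∈ F, ∑ v ∈ E \ X, Slack_f X E v := by
    rw [mul_comm, ← smul_eq_mul, ← Finset.sum_const]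
    refine Finset.sum_le_sum (fun E hE => ?_)
    have hEm := mem_filter.mp hE
    exact Slack_ge X E (h2 E hEm.1) (hX E hEm.1) hEm.2
  have hB : ∑ E ∈ F, ∑ v ∈ E \ X, Slack_f X E v =
      ∑ v ∈ univ \ X, ∑ E ∈ F.filter (fun E => v ∈ E), Slack_f X E v := by
    refine Finset.sum_comm' (fun E v => ?_)
    simp only [mem_sdiff, mem_filter, mem_univ, true_and]
    tauto
  rw [hB] at hA
  refine le_trans hA (Finset.sum_le_sum (fun v _ => ?_))
  have hC : ∑ E ∈ F.filter (fun E => v ∈ E), Slack_f X E v =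
      ∑ E ∈ F.filter (fun E => v ∈ E), (E.card - 1) +
      ∑ E ∈ F.filter (fun E => v ∈ E), (if ∃ x ∈ X, E = {v, x} then 1 else 0) := by
    rw [← Finset.sum_add_distrib]
    rfl
  rw [hC]
  refine Nat.add_le_add (le_trans ?_ (hD v)) (Slack_cnt H F hFH X v)
  exact Finset.sum_le_sum_of_subset (Finset.filter_subset_filter _ hFH)

end Pool.Agent.UQ
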