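import Pool.Agent.UQ.Defs
import Pool.Agent.UQ.MaxSysEx
import Pool.Agent.UQ.MSFactor
import Pool.Agent.UQ.GMatch
import Pool.Agent.UQ.Slack
import Pool.Agent.UQ.CfgEx
import Pool.Agent.UQ.MCPrime

set_option autoImplicit false

namespace Pool.Agent.UQ

open Finset

variable {V : Type} [Fintype V] [DecidableEq V]

/-- number of 2-edges and weight of a family of larger edges at a vertex -/
theorem Main2_deg (H : Finset (Finset V)) (D : ℕ)
    (hD : ∀ v, ∑ E ∈ H.filter (fun E => v ∈ E), (E.card - 1) ≤ D)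
    (h2 : ∀ E ∈ H, 2 ≤ E.card) (T : Finset (Finset V)) (hTH : T ⊆ H)
    (hT : ∀ E ∈ T, 3 ≤ E.card) (v : V) (Y : Finset V)
    (hY : ∀ y ∈ Y, ({v, y} : Finset V) ∈ H) :
    Y.card + ∑ E ∈ T.filter (fun E => v ∈ E), (E.card - 1) ≤ D := by
  have hne : ∀ y ∈ Y, v ≠ y := by
    intro y hy e
    have h := h2 _ (hY y hy)
    rw [e, pair_eq_singleton, card_singleton] at h
    omega
  have hc : ∀ y ∈ Y, ({v, y} : Finset V).card = 2 := fun y hy => card_pair (hne y hy)
  have hinj : Set.InjOn (fun y => ({v, y} : Finset V)) (Y : Set V) := by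
    intro y hy z hz e
    have h1 : y ∈ ({v, z} : Finset V) := by
      have e' : ({v, y} : Finset V) = {v, z} := e
      rw [← e']
      simp
    rw [mem_insert, mem_singleton] at h1
    rcases h1 with h1 | h1
    · exact absurd h1.symm (hne y hy)
    · exact h1
  have hdis : Disjoint (Y.image (fun y => ({v, y} : Finset V))) (T.filter (fun E => v ∈ E)) := by
    rw [disjoint_left]
    intro E hE hE'
    obtain ⟨y, hy, rfl⟩ := mem_image.1 hE
    have h3 := hT _ (mem_filter.1 hE').1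
    rw [hc y hy] at h3
    omega
  have hsub : Y.image (fun y => ({v, y} : Finset V)) ∪ T.filter (fun E => v ∈ E) ⊆
      H.filter (fun E => v ∈ E) := by
    intro E hE
    rw [mem_union] at hE
    rw [mem_filter]
    rcases hE with hE | hE
    · obtain ⟨y, hy, rfl⟩ := mem_image.1 hE
      exact ⟨hY y hy, by simp⟩
    · exact ⟨hTH (mem_filter.1 hE).1, (mem_filter.1 hE).2⟩
  calc Y.card + ∑ E ∈ T.filter (fun E => v ∈ E), (E.card - 1)
      = ∑ E ∈ Y.image (fun y => ({v, y} : Finset V)), (E.card - 1) +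
          ∑ E ∈ T.filter (fun E => v ∈ E), (E.card - 1) := by
        rw [sum_image hinj, sum_congr rfl (fun y hy => by rw [hc y hy] : ∀ y ∈ Y,
          ({v, y} : Finset V).card - 1 = 1), sum_const, smul_eq_mul, mul_one]
    _ = ∑ E ∈ Y.image (fun y => ({v, y} : Finset V)) ∪ T.filter (fun E => v ∈ E),
          (E.card - 1) := (sum_union hdis).symm
    _ ≤ ∑ E ∈ H.filter (fun E => v ∈ E), (E.card - 1) := sum_le_sum_of_subset hsub
    _ ≤ D := hD v

/-- Theorem U for edges of size at least two. -/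
theorem main2 (H : Finset (Finset V)) (D : ℕ)
    (hD : ∀ v, ∑ E ∈ H.filter (fun E => v ∈ E), (E.card - 1) ≤ D)
    (hlin : ∀ E ∈ H, ∀ F ∈ H, E ≠ F → (E ∩ F).card ≤ 1)
    (h2 : ∀ E ∈ H, 2 ≤ E.card) :
    ∃ M : Finset (Finset V), M ⊆ H ∧ (∀ E ∈ M, ∀ F ∈ M, E ≠ F → Disjoint E F) ∧
      H.card ≤ (D + 1) * M.card := by
  classical
  rcases isEmpty_or_nonempty V with hV | hV
  · refine ⟨∅, by simp, by simp, ?_⟩
    have : H = ∅ := by
      rw [eq_empty_iff_forall_notMem]
      intro E hE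
      have h := h2 E hE
      have : E = ∅ := eq_empty_of_isEmpty E
      rw [this] at h
      simp at h
    rw [this]
    simp
  obtain ⟨v0⟩ := hV
  obtain ⟨A, P, hMS⟩ := exists_maxSys H
  have hfac : ∀ K ∈ P, ∀ v ∈ K, PM H (K.erase v) := fun K hK v hv => maxSys_factor hMS hK hv
  have hsys := hMS.sys
  have hPne : ∀ K ∈ P, K.Nonempty := by
    intro K hK
    rw [← card_pos]
    exact (hsys.odd K hK).pos
  obtain ⟨x, hx⟩ : ∃ x : Finset V → V, ∀ K ∈ P, x K ∈ K := by
    refine ⟨fun K => if h : K.Nonempty then h.choose else v0, fun K hK => ?_⟩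
    have h := hPne K hK
    simp only [dif_pos h]
    exact h.choose_spec
  have hxin : ∀ K ∈ P, ∀ L ∈ P, x K ∈ L → K = L := by
    intro K hK L hL h
    by_contra hne
    exact disjoint_left.1 (hsys.dis K hK L hL hne) (hx K hK) h
  have hxinj : Set.InjOn x (P : Set (Finset V)) := by
    intro K hK L hL e
    exact hxin K hK L hL (by rw [e]; exact hx L hL)
  have hxA : ∀ K ∈ P, x K ∉ A := fun K hK => disjoint_left.1 (hsys.sub K hK) (hx K hK)
  set X : Finset V := P.image x with hX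
  set Γ : {a // a ∈ A} → Finset V := fun a =>
    (P.filter (fun K => ∃ y ∈ K, ({a.1, y} : Finset V) ∈ H)).image x with hΓ
  set N : {a // a ∈ A} → Finset V := fun a => X.filter (fun y => ({a.1, y} : Finset V) ∈ H)
    with hN
  set T : Finset (Finset V) := H.filter (fun E => 3 ≤ E.card ∧ E ⊆ X) with hT
  have hTH : T ⊆ H := filter_subset _ _
  have hT3 : ∀ E ∈ T, 3 ≤ E.card := fun E hE => (mem_filter.1 hE).2.1
  have hNΓ : ∀ a, N a ⊆ Γ a := by
    intro a y hy
    obtain ⟨hy1, hy2⟩ := mem_filter.1 hy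
    obtain ⟨K, hK, rfl⟩ := mem_image.1 hy1
    exact mem_image.2 ⟨K, mem_filter.2 ⟨hK, x K, hx K hK, hy2⟩, rfl⟩
  have hNc : ∀ a, (N a).card ≤ D := by
    intro a
    have h := Main2_deg H D hD h2 T hTH hT3 a.1 (N a) (fun y hy => (mem_filter.1 hy).2)
    omega
  have hdeg : ∀ y, (univ.filter (fun a => y ∈ N a)).card
      + ∑ E ∈ T.filter (fun E => y ∈ E), (E.card - 1) ≤ D := by
    intro y
    have h := Main2_deg H D hD h2 T hTH hT3 y
      ((univ.filter (fun a => y ∈ N a)).image Subtype.val) (by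
        intro a ha
        obtain ⟨b, hb, rfl⟩ := mem_image.1 ha
        have h1 := (mem_filter.1 (mem_filter.1 hb).2).2
        rw [pair_comm]
        exact h1)
    rw [card_image_of_injective _ Subtype.val_injective] at h
    exact h
  have hHall : Miss Γ ∅ := by
    intro A'
    have h := maxSys_hall hMS (A'.image Subtype.val) (by
      intro a ha
      obtain ⟨b, -, rfl⟩ := mem_image.1 ha
      exact b.2)
    rw [card_image_of_injective _ Subtype.val_injective] at h
    refine h.trans ?_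
    rw [sdiff_empty, ← card_image_of_injOn (f := x) (hxinj.mono (fun K hK =>
      (mem_filter.1 hK).1))]
    refine card_le_card ?_
    intro y hy
    obtain ⟨K, hK, rfl⟩ := mem_image.1 hy
    obtain ⟨hK1, a, ha, z, hz, hH⟩ := mem_filter.1 hK
    obtain ⟨b, hb, rfl⟩ := mem_image.1 ha
    exact mem_biUnion.2 ⟨b, hb, mem_image.2 ⟨K, mem_filter.2 ⟨hK1, z, hz, hH⟩, rfl⟩⟩
  obtain ⟨c, cΓ, cN, cT, cD, cM⟩ := exists_cfg Γ N T D hNΓ hT3
    (fun E hE F hF => hlin E (hTH hE) F (hTH hF)) hNc hdeg hHall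
  have hmc := mcprime c
  have hBT := c.hBT
  have hκ : ∀ a, ∃ K ∈ P, (∃ y ∈ K, ({a.1, y} : Finset V) ∈ H) ∧ x K = c.μ a := by
    intro a
    have h := c.hμΓ a
    rw [cΓ] at h
    obtain ⟨K, hK, h3⟩ := mem_image.1 h
    obtain ⟨hK1, hK2⟩ := mem_filter.1 hK
    exact ⟨K, hK1, hK2, h3⟩
  choose κ hκP hκadj hκx using hκ
  obtain ⟨M, hMH, hMd, hMc⟩ := gmatch hsys hfac x hx c.B
    (fun E hE => hTH (cT ▸ hBT hE)) (fun E hE => hT3 E (cT ▸ hBT hE))
    (fun E hE => (mem_filter.1 (cT ▸ hBT hE : E ∈ T)).2.2) c.hB κ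
    (fun a b e => c.hμ (by rw [← hκx a, ← hκx b, e])) hκP hκadj
    (fun a => by rw [hκx]; exact c.hμB a)
  refine ⟨M, hMH, hMd, ?_⟩
  have hX2 : ∀ E ∈ H, E.card = 2 → ¬ E ⊆ X := by
    intro E hE hc hEX
    obtain ⟨y, z, hyz, rfl⟩ := card_eq_two.1 hc
    obtain ⟨K, hK, hy⟩ := mem_image.1 (hEX (by simp : y ∈ ({y, z} : Finset V)))
    obtain ⟨L, hL, hz⟩ := mem_image.1 (hEX (by simp : z ∈ ({y, z} : Finset V)))
    have hKL : L ≠ K := by
      rintro rfl
      exact hyz (hy.symm.trans hz)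
    have h1 : z ∉ K := by
      rw [← hz]
      exact fun h => hKL (hxin L hL K hK h)
    have h3 := hsys.iso K hK y (hy ▸ hx K hK) z h1 (hz ▸ hxA L hL)
    exact h3 hE
  have hsl := slack H D X hD h2 hX2
  set f : V → ℕ := fun v => D + (X.filter (fun y => ({v, y} : Finset V) ∈ H)).card with hf
  have hcov : univ \ X ⊆ A ∪ P.biUnion (fun K => K.erase (x K)) := by
    intro v hv
    have hvX := (mem_sdiff.1 hv).2
    rw [mem_union, mem_biUnion]
    rcases maxSys_cover hMS v with h | ⟨K, hK, hvK⟩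
    · exact Or.inl h
    · refine Or.inr ⟨K, hK, mem_erase.2 ⟨fun e => hvX ?_, hvK⟩⟩
      rw [e]
      exact mem_image_of_mem x hK
  have hW : ∀ K ∈ P, ∀ v ∈ K.erase (x K), f v ≤ D + 1 := by
    intro K hK v hv
    have hvK := (mem_erase.1 hv).2
    have h1 : X.filter (fun y => ({v, y} : Finset V) ∈ H) ⊆ {x K} := by
      intro y hy
      obtain ⟨hy1, hy2⟩ := mem_filter.1 hy
      obtain ⟨L, hL, rfl⟩ := mem_image.1 hy1
      rw [mem_singleton]
      by_contra hne
      have hKL : L ≠ K := by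
        rintro rfl
        exact hne rfl
      exact hsys.iso K hK v hvK (x L) (fun h => hKL (hxin L hL K hK h)) (hxA L hL) hy2
    have h3 := card_le_card h1
    rw [card_singleton] at h3
    rw [hf]
    simp only
    omega
  have hsum : ∑ v ∈ univ \ X, f v ≤ ∑ a ∈ A, f a + (D + 1) * ∑ K ∈ P, (K.card - 1) := by
    calc ∑ v ∈ univ \ X, f v ≤ ∑ v ∈ A ∪ P.biUnion (fun K => K.erase (x K)), f v :=
          sum_le_sum_of_subset hcov
      _ ≤ ∑ a ∈ A, f a + ∑ v ∈ P.biUnion (fun K => K.erase (x K)), f v := by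
          rw [← sum_union_inter]
          exact Nat.le_add_right _ _
      _ ≤ ∑ a ∈ A, f a + (D + 1) * ∑ K ∈ P, (K.card - 1) := by
          refine Nat.add_le_add_left ?_ _
          rw [sum_biUnion, mul_sum]
          · refine sum_le_sum fun K hK => ?_
            refine (sum_le_card_nsmul _ _ _ (hW K hK)).trans ?_
            rw [card_erase_of_mem (hx K hK), smul_eq_mul, mul_comm]
          · intro K hK L hL hKL
            exact (hsys.dis K hK L hL hKL).mono (erase_subset _ _) (erase_subset _ _)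
  have hcard : H.card = T.card + (H.filter (fun E => ¬ (3 ≤ E.card ∧ E ⊆ X))).card := by
    rw [hT]
    exact (card_filter_add_card_filter_not (s := H) (fun E => 3 ≤ E.card ∧ E ⊆ X)).symm
  have hfA : ∑ a ∈ A, (f a : ℝ) = ∑ a : {a // a ∈ A}, ((D : ℝ) + (N a).card) := by
    rw [← sum_coe_sort A (fun a => (f a : ℝ))]
    refine sum_congr rfl fun a _ => ?_
    rw [hf, hN]
    push_cast
    rfl
  rw [cT, cN, cD] at hmc
  have hfin : (2 : ℝ) * H.card ≤ (D + 1) * (2 * M.card) := by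
    have e1 : (2 : ℝ) * (H.filter (fun E => ¬ (3 ≤ E.card ∧ E ⊆ X))).card ≤
        ∑ a ∈ A, (f a : ℝ) + (D + 1) * ((∑ K ∈ P, (K.card - 1) : ℕ) : ℝ) := by
      exact_mod_cast hsl.trans hsum
    have e2 : (2 : ℝ) * c.B.card + 2 * A.card + ((∑ K ∈ P, (K.card - 1) : ℕ) : ℝ) ≤
        2 * M.card := by exact_mod_cast hMc
    have e3 : (H.card : ℝ) = T.card + (H.filter (fun E => ¬ (3 ≤ E.card ∧ E ⊆ X))).card := by
      exact_mod_cast hcard
    have e4 : ∑ a : {a // a ∈ A}, (1 + ((D : ℝ) - (N a).card) / 2) * 2 +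
        ∑ a : {a // a ∈ A}, ((D : ℝ) + (N a).card) = A.card * (2 * (D + 1)) := by
      rw [← sum_add_distrib]
      have e5 : ∀ a : {a // a ∈ A}, (1 + ((D : ℝ) - (N a).card) / 2) * 2 +
          ((D : ℝ) + (N a).card) = 2 * (D + 1) := fun a => by ring
      rw [sum_congr rfl fun a _ => e5 a, sum_const, card_univ, Fintype.card_coe, nsmul_eq_mul]
    rw [← sum_mul] at e4
    rw [hfA] at e1
    have hD0 : (0 : ℝ) ≤ (D : ℝ) + 1 := by positivity
    have e6 := mul_le_mul_of_nonneg_left e2 hD0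
    rw [e3]
    nlinarith
  have hfin2 : 2 * H.card ≤ (D + 1) * (2 * M.card) := by exact_mod_cast hfin
  have : (D + 1) * (2 * M.card) = 2 * ((D + 1) * M.card) := by ring
  omega

end Pool.Agent.UQ
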