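import Pool.Agent.UQ.Defs
import Pool.Agent.UQ.Main2

set_option autoImplicit false

namespace Pool.Agent.UQ

open Finset

variable {V : Type} [Fintype V] [DecidableEq V]

/-- Theorem U with the degree sum. -/
theorem main1 (H : Finset (Finset V)) (D : ℕ)
    (hD : ∀ v, ∑ E ∈ H.filter (fun E => v ∈ E), (E.card - 1) ≤ D)
    (hlin : ∀ E ∈ H, ∀ F ∈ H, E ≠ F → (E ∩ F).card ≤ 1) :
    ∃ M : Finset (Finset V), M ⊆ H ∧ (∀ E ∈ M, ∀ F ∈ M, E ≠ F → Disjoint E F) ∧
      H.card ≤ (D + 1) * M.card := by
  classical
  set S0 : Finset V := univ.filter (fun v => ({v} : Finset V) ∈ H) with hS0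
  set H' : Finset (Finset V) := H.filter (fun E => 2 ≤ E.card ∧ Disjoint E S0) with hH'
  set S : Finset (Finset V) := S0.image (fun v => {v}) with hS
  set Z : Finset (Finset V) := H.filter (fun E => E.card = 0) with hZ
  set K : Finset (Finset V) := H.filter (fun E => 2 ≤ E.card ∧ ¬ Disjoint E S0) with hK
  have hH'H : H' ⊆ H := filter_subset _ _
  obtain ⟨M', hM'H', hM'd, hM'c⟩ := main2 H' D (fun v => by
      refine le_trans (sum_le_sum_of_subset ?_) (hD v)
      exact filter_subset_filter _ hH'H)
    (fun E hE F hF hne => hlin E (hH'H hE) F (hH'H hF) hne)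
    (fun E hE => (mem_filter.1 hE).2.1)
  have hSmem : ∀ E ∈ S, ∃ v ∈ S0, {v} = E := fun E hE => mem_image.1 hE
  have hSH : S ⊆ H := by
    intro E hE
    obtain ⟨v, hv, rfl⟩ := hSmem E hE
    exact (mem_filter.1 hv).2
  have hScard : S.card = S0.card := card_image_of_injective _ singleton_injective
  have hS1 : ∀ E ∈ S, E.card = 1 := by
    intro E hE
    obtain ⟨v, -, rfl⟩ := hSmem E hE
    exact card_singleton v
  have hZ0 : ∀ E ∈ Z, E = ∅ := fun E hE => card_eq_zero.1 (mem_filter.1 hE).2
  have hM'2 : ∀ E ∈ M', 2 ≤ E.card ∧ Disjoint E S0 := fun E hE => (mem_filter.1 (hM'H' hE)).2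
  refine ⟨M' ∪ S ∪ Z, ?_, ?_, ?_⟩
  · exact union_subset (union_subset (hM'H'.trans hH'H) hSH) (filter_subset _ _)
  · intro E hE F hF hne
    rcases mem_union.1 hE with hE | hE
    · rcases mem_union.1 hF with hF | hF
      · rcases mem_union.1 hE with hE | hE
        · rcases mem_union.1 hF with hF | hF
          · exact hM'd E hE F hF hne
          · obtain ⟨v, hv, rfl⟩ := hSmem F hF
            exact (hM'2 E hE).2.mono_right (singleton_subset_iff.2 hv)
        · obtain ⟨v, hv, rfl⟩ := hSmem E hE
          rcases mem_union.1 hF with hF | hF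
          · exact ((hM'2 F hF).2.mono_right (singleton_subset_iff.2 hv)).symm
          · obtain ⟨w, hw, rfl⟩ := hSmem F hF
            rw [disjoint_singleton]
            rintro rfl
            exact hne rfl
      · rw [hZ0 F hF]
        exact disjoint_empty_right _
    · rw [hZ0 E hE]
      exact disjoint_empty_left _
  · have hdis1 : Disjoint M' S := by
      rw [disjoint_left]
      intro E h1 h2
      have h3 := (hM'2 E h1).1
      have h4 := hS1 E h2
      omega
    have hdis2 : Disjoint (M' ∪ S) Z := by
      rw [disjoint_left]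
      intro E h1 h2
      have h5 := hZ0 E h2
      rcases mem_union.1 h1 with h1 | h1
      · have h3 := (hM'2 E h1).1
        rw [h5, card_empty] at h3
        omega
      · have h4 := hS1 E h1
        rw [h5, card_empty] at h4
        omega
    have hMc : (M' ∪ S ∪ Z).card = M'.card + S.card + Z.card := by
      rw [card_union_of_disjoint hdis2, card_union_of_disjoint hdis1]
    have hKc : K.card ≤ S0.card * D := by
      have h1 : K ⊆ S0.biUnion (fun v => (H.filter (fun E => v ∈ E)).filter
          (fun E => 2 ≤ E.card)) := by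
        intro E hE
        obtain ⟨hEH, hE2, hEd⟩ := mem_filter.1 hE
        obtain ⟨v, hvE, hvS⟩ := not_disjoint_iff.1 hEd
        exact mem_biUnion.2 ⟨v, hvS, mem_filter.2 ⟨mem_filter.2 ⟨hEH, hvE⟩, hE2⟩⟩
      refine (card_le_card h1).trans ?_
      refine card_biUnion_le_card_mul _ _ _ fun v _ => ?_
      refine le_trans ?_ (hD v)
      calc ((H.filter (fun E => v ∈ E)).filter (fun E => 2 ≤ E.card)).card
          = ∑ E ∈ (H.filter (fun E => v ∈ E)).filter (fun E => 2 ≤ E.card), 1 := by
            rw [card_eq_sum_ones]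
        _ ≤ ∑ E ∈ (H.filter (fun E => v ∈ E)).filter (fun E => 2 ≤ E.card), (E.card - 1) := by
            refine sum_le_sum fun E hE => ?_
            have := (mem_filter.1 hE).2
            omega
        _ ≤ ∑ E ∈ H.filter (fun E => v ∈ E), (E.card - 1) :=
            sum_le_sum_of_subset (filter_subset _ _)
    have hHsub : H ⊆ ((H' ∪ S) ∪ Z) ∪ K := by
      intro E hE
      rcases Nat.lt_or_ge E.card 2 with h | h
      · rcases Nat.lt_or_ge E.card 1 with h' | h'
        · refine mem_union_left _ (mem_union_right _ (mem_filter.2 ⟨hE, by omega⟩))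
        · refine mem_union_left _ (mem_union_left _ (mem_union_right _ ?_))
          have h1 : E.card = 1 := by omega
          obtain ⟨v, rfl⟩ := card_eq_one.1 h1
          exact mem_image.2 ⟨v, mem_filter.2 ⟨mem_univ _, hE⟩, rfl⟩
      · by_cases hd : Disjoint E S0
        · exact mem_union_left _ (mem_union_left _ (mem_union_left _
            (mem_filter.2 ⟨hE, h, hd⟩)))
        · exact mem_union_right _ (mem_filter.2 ⟨hE, h, hd⟩)
    have hHc : H.card ≤ H'.card + S.card + Z.card + K.card := by
      refine (card_le_card hHsub).trans ?_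
      refine (card_union_le _ _).trans ?_
      have h1 := card_union_le (H' ∪ S) Z
      have h2 := card_union_le H' S
      omega
    rw [hMc, hScard]
    rw [hScard] at hHc
    nlinarith [Nat.zero_le (D * Z.card)]

end Pool.Agent.UQ
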