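import Pool.Agent.UQ.Defs

set_option autoImplicit false

namespace Pool.Agent.UQ

open Finset

variable {V : Type} [Fintype V] [DecidableEq V]

/-- 2-section degree of a linear hypergraph. -/
theorem twosec (H : Finset (Finset V)) (D : ℕ)
    (hlin : ∀ E ∈ H, ∀ F ∈ H, E ≠ F → (E ∩ F).card ≤ 1) (v : V)
    (h : {u : V | u ≠ v ∧ ∃ E ∈ H, u ∈ E ∧ v ∈ E}.ncard ≤ D) :
    ∑ E ∈ H.filter (fun E => v ∈ E), (E.card - 1) ≤ D := by
  classical
  have h1 : ∑ E ∈ H.filter (fun E => v ∈ E), (E.card - 1) =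
      ((H.filter (fun E => v ∈ E)).biUnion fun E => E.erase v).card := by
    rw [card_biUnion]
    · refine sum_congr rfl fun E hE => ?_
      rw [card_erase_of_mem (mem_filter.1 hE).2]
    · intro E hE F hF hEF
      rw [Function.onFun, disjoint_left]
      intro u hu hu'
      have h2 := hlin E (mem_filter.1 hE).1 F (mem_filter.1 hF).1 hEF
      have h3 : 1 < (E ∩ F).card := by
        rw [one_lt_card]
        exact ⟨u, mem_inter.2 ⟨mem_of_mem_erase hu, mem_of_mem_erase hu'⟩, v,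
          mem_inter.2 ⟨(mem_filter.1 hE).2, (mem_filter.1 hF).2⟩, ne_of_mem_erase hu⟩
      omega
  rw [h1, ← Set.ncard_coe_finset]
  refine le_trans (Set.ncard_le_ncard ?_ (Set.toFinite _)) h
  intro u hu
  rw [mem_coe, mem_biUnion] at hu
  obtain ⟨E, hE, hu⟩ := hu
  exact ⟨ne_of_mem_erase hu, E, (mem_filter.1 hE).1, mem_of_mem_erase hu, (mem_filter.1 hE).2⟩

end Pool.Agent.UQ
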