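import Mathlib

/-!
Definitions for the unweighted form of Q1 of MP_4c2c9c_co
(`|H| ≤ (D+1) ν(H)` for linear hypergraphs).  Text proof: team store `uq1_paper.md`.
-/

set_option autoImplicit false

namespace Pool.Agent.UQ

open Finset

/-- Vertices covered by a family of edges. -/
def vs {χ : Type} [DecidableEq χ] (B : Finset (Finset χ)) : Finset χ := B.biUnion id

/-- Members of size at most `s`. -/
def low {χ : Type} (B : Finset (Finset χ)) (s : ℕ) : Finset (Finset χ) :=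
  B.filter (fun E => E.card ≤ s)

/-- Neighbourhood of a set of centres. -/
def nb {α χ : Type} [DecidableEq χ] (Γ : α → Finset χ) (A : Finset α) : Finset χ := A.biUnion Γ

/-- `Y` is missable: Hall's condition holds after deleting `Y`. -/
def Miss {α χ : Type} [DecidableEq χ] (Γ : α → Finset χ) (Y : Finset χ) : Prop :=
  ∀ A : Finset α, A.card ≤ (nb Γ A \ Y).card

/-- Prices by level. -/
noncomputable def pr (s : ℕ) : ℝ :=
  if s = 3 then 1 / 4 else if s ≤ 5 then 1 / 6 else 1 / (2 * ((s : ℝ) - 1))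

/-- The configuration of section 2 of the text: `Γ` component adjacency, `N` real adjacency,
`T` big edges, `B` a missable matching with the two local optimality properties `e1`, `e2`,
`μ` a system of representatives of the centres outside `B`. -/
structure Cfg (α χ : Type) [Fintype α] [DecidableEq α] [Fintype χ] [DecidableEq χ] where
  Γ : α → Finset χ
  N : α → Finset χ
  T : Finset (Finset χ)
  B : Finset (Finset χ)
  μ : α → χ
  D : ℕ
  hNΓ : ∀ a, N a ⊆ Γ a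
  hT : ∀ E ∈ T, 3 ≤ E.card
  hlin : ∀ E ∈ T, ∀ F ∈ T, E ≠ F → (E ∩ F).card ≤ 1
  hN : ∀ a, (N a).card ≤ D
  hdeg : ∀ x, (univ.filter (fun a => x ∈ N a)).card
    + ∑ E ∈ T.filter (fun E => x ∈ E), (E.card - 1) ≤ D
  hBT : B ⊆ T
  hB : ∀ E ∈ B, ∀ F ∈ B, E ≠ F → Disjoint E F
  hμ : Function.Injective μ
  hμΓ : ∀ a, μ a ∈ Γ a
  hμB : ∀ a, μ a ∉ vs B
  e1 : ∀ u ∈ T, u ∉ B → Disjoint u (vs (low B u.card)) → ¬ Miss Γ (vs (low B u.card) ∪ u)
  e2 : ∀ v ∈ B, ∀ u ∈ T, ∀ u' ∈ T, u ∉ B → u' ∉ B → u.card = v.card → v.card ≤ u'.card →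
    Disjoint u u' → Disjoint u (vs (low B u'.card) \ v) → Disjoint u' (vs (low B u'.card) \ v) →
    ¬ Miss Γ ((vs (low B u'.card) \ v) ∪ u ∪ u')

namespace Cfg

variable {α χ : Type} [Fintype α] [DecidableEq α] [Fintype χ] [DecidableEq χ] (c : Cfg α χ)

/-- Vertices covered by the members of `B` of size at most `s`. -/
def S (s : ℕ) : Finset χ := vs (low c.B s)

/-- Centres contained in a set of defect at most `s` at level `s`. -/
def Ah (s : ℕ) : Finset α :=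
  univ.filter (fun a => ∃ A : Finset α, a ∈ A ∧ (nb c.Γ A \ c.S s).card ≤ A.card + s)

/-- Centres contained in a tight set at level `s`. -/
def At (s : ℕ) : Finset α :=
  univ.filter (fun a => ∃ A : Finset α, a ∈ A ∧ (nb c.Γ A \ c.S s).card ≤ A.card)

/-- Vertices of level at most `s`. -/
def Z (s : ℕ) : Finset χ := c.S s ∪ (c.Ah s).image c.μ

open Classical in
/-- Price of a vertex. -/
noncomputable def p (x : χ) : ℝ :=
  if h : ∃ s, 3 ≤ s ∧ x ∈ c.Z s then pr (Nat.find h) else 0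

/-- `X_u = 1/(|u|-1) - Σ_{x∈u} p x`. -/
noncomputable def X (u : Finset χ) : ℝ := 1 / ((u.card : ℝ) - 1) - ∑ x ∈ u, c.p x

/-- Needy edges. -/
noncomputable def Nd : Finset (Finset χ) := c.T.filter (fun u => u ∉ c.B ∧ 0 < c.X u)

/-- Small vertices of `u`. -/
def tch (u : Finset χ) : Finset χ := u ∩ c.Z u.card

/-- The part of `u` of level larger than `|u|`. -/
def bt (u : Finset χ) : Finset χ := u \ c.Z u.card

/-- Spanned needy edges: the small vertex lies in `S_{|u|} ∪ μ(At_{|u|})`. -/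
noncomputable def Sp : Finset (Finset χ) :=
  c.Nd.filter (fun u => c.tch u ⊆ c.S u.card ∪ (c.At u.card).image c.μ)

/-- Q-type edges at the centre `a`. -/
noncomputable def Q (a : α) : Finset (Finset χ) :=
  c.Nd.filter (fun u => c.μ a ∈ u ∧ a ∈ c.Ah u.card ∧ a ∉ c.At u.card)

/-- Units at a vertex: pairs `(u,i)` with `i < |u|-1` and centres `a` with `x ∈ N a`. -/
def Un (x : χ) : Finset ((Finset χ × ℕ) ⊕ α) :=
  ((c.T.filter (fun E => x ∈ E)).biUnion
    (fun E => (range (E.card - 1)).image (fun i => Sum.inl (E, i))))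
  ∪ (univ.filter (fun a => x ∈ c.N a)).image Sum.inr

end Cfg

/-- A choice of the partial injections of the units at `μ a` into `N a`. -/
structure Route {α χ : Type} [Fintype α] [DecidableEq α] [Fintype χ] [DecidableEq χ]
    (c : Cfg α χ) where
  nx : α → ((Finset χ × ℕ) ⊕ α) → Option χ
  h1 : ∀ a, ∀ η ∈ c.Un (c.μ a), ∀ y, nx a η = some y → y ∈ c.N a
  h2 : ∀ a, ∀ η ∈ c.Un (c.μ a), ∀ η' ∈ c.Un (c.μ a), ∀ y,
    nx a η = some y → nx a η' = some y → η = η'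
  h3 : ∀ a, ((c.Un (c.μ a)).filter (fun η => nx a η = none)).card + (c.N a).card ≤ c.D

namespace Route

variable {α χ : Type} [Fintype α] [DecidableEq α] [Fintype χ] [DecidableEq χ] {c : Cfg α χ}

/-- One step of a unit: at `μ a` it moves along the assigned real edge to `y ∈ N a`. -/
def Step (R : Route c) (σ τ : χ × ((Finset χ × ℕ) ⊕ α)) : Prop :=
  ∃ a, σ.1 = c.μ a ∧ σ.2 ∈ c.Un (c.μ a) ∧ R.nx a σ.2 = some τ.1 ∧ τ.2 = Sum.inr a

/-- Reachability of states. -/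
def Reach (R : Route c) : χ × ((Finset χ × ℕ) ⊕ α) → χ × ((Finset χ × ℕ) ⊕ α) → Prop :=
  Relation.ReflTransGen R.Step

end Route

/-- `z` and `z'` are parallel over `Y`. -/
def Par {α χ : Type} [DecidableEq χ] (Γ : α → Finset χ) (Y : Finset χ) (z z' : χ) : Prop :=
  z = z' ∨ ¬ Miss Γ (Y ∪ {z, z'})

/-- `z` is a nonloop over `Y`. -/
def NL {α χ : Type} [DecidableEq χ] (Γ : α → Finset χ) (Y : Finset χ) (z : χ) : Prop :=
  z ∉ Y ∧ Miss Γ (Y ∪ {z})

open Classical in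
/-- Outcome of following all units: `r u v` units of `u` end in `v`, `m u a` units of `u` end in a
missing slot of `a`. -/
structure Flow {α χ : Type} [Fintype α] [DecidableEq α] [Fintype χ] [DecidableEq χ]
    (c : Cfg α χ) where
  z : Finset χ → χ
  r : Finset χ → Finset χ → ℕ
  m : Finset χ → α → ℕ
  hz : ∀ u ∈ c.Sp, c.tch u = {z u}
  hr : ∀ u ∈ c.Sp, ∑ v ∈ c.B, r u v + ∑ a, m u a = u.card - 1
  hm : ∀ a, ∑ u ∈ c.Sp, m u a + (c.N a).card ≤ c.D
  hrv : ∀ v ∈ c.B, ∑ u ∈ c.Sp, r u v ≤ v.card * (c.D - (v.card - 1))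
  hle : ∀ u ∈ c.Sp, ∀ v ∈ c.B, 0 < r u v → v.card ≤ u.card
  hnl : ∀ u ∈ c.Sp, ∀ v ∈ c.B, 0 < r u v → NL c.Γ (vs c.B \ v) (z u)
  hC1 : ∀ v ∈ c.B, ∀ z0, NL c.Γ (vs c.B \ v) z0 →
    ∑ u ∈ c.Sp.filter (fun u => Par c.Γ (vs c.B \ v) z0 (z u)), r u v ≤ c.D
  hacc : ∑ u ∈ c.Sp, ((u.card : ℝ) - 1) * c.X u
    ≤ ∑ a, ∑ x ∈ c.N a, max 0 (c.p x - c.p (c.μ a))
      + ∑ u ∈ c.Sp, ∑ v ∈ c.B, (r u v : ℝ) * max 0 (c.X u + c.p (z u) - pr v.card)
      + ∑ u ∈ c.Sp, ∑ a, (m u a : ℝ) * max 0 (c.X u + c.p (z u) - c.p (c.μ a))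

/-- Threshold weight of section 6. -/
noncomputable def wk (k : ℕ) : ℝ := if k ≤ 3 then 0 else ((k : ℝ) - 2) / (2 * ((k : ℝ) - 1))

/-- `ρ = (k-1)/(k+1)`. -/
noncomputable def rho (k : ℕ) : ℝ := ((k : ℝ) - 1) / ((k : ℝ) + 1)

/-- The abstract data of Lemma X_k (section 7): `K` and `O` are the heavy and the medium needy
edges reaching `v`, `β u` the part of `u` outside its small vertex, `r u` the number of its units
reaching `v`, `cl u` its class, `W u` the weight of its units. -/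
structure XD (χ ι κ : Type) [DecidableEq χ] [DecidableEq ι] [DecidableEq κ] where
  k : ℕ
  D : ℕ
  K : Finset ι
  O : Finset ι
  β : ι → Finset χ
  r : ι → ℕ
  cl : ι → κ
  W : ι → ℝ
  hk : 2 ≤ k
  hkD : k ≤ D
  hKO : Disjoint K O
  hK : ∀ u ∈ K, (β u).card = k
  hO : ∀ u ∈ O, k ≤ (β u).card ∧ (β u).card ≤ 2 * k - 1
  hlin : ∀ u ∈ K ∪ O, ∀ u' ∈ K ∪ O, u ≠ u' → (β u ∩ β u').card ≤ 1
  hr : ∀ u ∈ K ∪ O, r u ≤ (β u).card
  c1 : ∀ g, ∑ u ∈ (K ∪ O).filter (fun u => cl u = g), r u ≤ D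
  c2 : ∀ q, ∑ u ∈ (K ∪ O).filter (fun u => q ∈ β u), (β u).card ≤ D
  c3 : ∑ u ∈ K ∪ O, r u ≤ (k + 1) * (D - k)
  c4 : ∀ u ∈ K, ∀ u' ∈ K ∪ O, cl u ≠ cl u' → ¬ Disjoint (β u) (β u')
  hWK : ∀ u ∈ K, W u ≤ 1
  hWO : ∀ u ∈ O, W u ≤ rho k ∧ ((β u).card : ℝ) * W u ≤ (k : ℝ) - 1

namespace XD

variable {χ ι κ : Type} [DecidableEq χ] [DecidableEq ι] [DecidableEq κ] (d : XD χ ι κ)

/-- Contribution of an edge above the threshold. -/
noncomputable def ct (u : ι) : ℝ := (d.r u : ℝ) * max 0 (d.W u - wk d.k)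

/-- `Φ'`. -/
noncomputable def Phi : ℝ :=
  wk d.k * (((d.k : ℝ) + 1) * ((d.D : ℝ) - d.k)) + ∑ u ∈ d.K ∪ d.O, d.ct u

/-- The bound to be proved. -/
def Good : Prop := d.Phi ≤ ((d.k : ℝ) - 1) * d.D + d.k * (d.k + 1)

end XD

/-- Perfect matching of the vertex set `S` by 2-edges of `H`. -/
def PM {V : Type} [DecidableEq V] (H : Finset (Finset V)) (S : Finset V) : Prop :=
  ∃ M : Finset (Finset V), M ⊆ H ∧ (∀ e ∈ M, e.card = 2) ∧
    (∀ e ∈ M, ∀ f ∈ M, e ≠ f → Disjoint e f) ∧ vs M = S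

/-- A system: barrier `A`, odd blocks `P`, no 2-edge from a block to `V \ (A ∪ block)`. -/
structure Sys {V : Type} [DecidableEq V] (H : Finset (Finset V)) (A : Finset V)
    (P : Finset (Finset V)) : Prop where
  sub : ∀ K ∈ P, Disjoint K A
  odd : ∀ K ∈ P, Odd K.card
  dis : ∀ K ∈ P, ∀ L ∈ P, K ≠ L → Disjoint K L
  iso : ∀ K ∈ P, ∀ x ∈ K, ∀ y, y ∉ K → y ∉ A → ({x, y} : Finset V) ∉ H

/-- Maximal systems. -/
structure MaxSys {V : Type} [DecidableEq V] (H : Finset (Finset V)) (A : Finset V)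
    (P : Finset (Finset V)) : Prop where
  sys : Sys H A P
  max1 : ∀ A' P', Sys H A' P' → P'.card + A.card ≤ P.card + A'.card
  max2 : ∀ A' P', Sys H A' P' → P'.card + A.card = P.card + A'.card → A'.card ≤ A.card

end Pool.Agent.UQ
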